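import Pool.Agent.H15.BPB.Defs

set_option autoImplicit false

namespace Pool.Agent.H15.BPB

open Filter Topology

variable {𝕜 : Type*} [RCLike 𝕜] {X : Type*} [NormedAddCommGroup X] [NormedSpace 𝕜 X]

lemma norm_apply_le_of_mem {p : X × (X →L[𝕜] 𝕜)} (hp : p ∈ PiSet 𝕜 X) (T : X →L[𝕜] X) :
    ‖p.2 (T p.1)‖ ≤ ‖T‖ := by
  obtain ⟨h1, h2, h3⟩ := hp
  calc ‖p.2 (T p.1)‖ ≤ ‖p.2‖ * ‖T p.1‖ := p.2.le_opNorm _
    _ ≤ 1 * (‖T‖ * ‖p.1‖) := by
        rw [h2]; gcongr; exact T.le_opNorm _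
    _ = ‖T‖ := by rw [h1]; ring

lemma bddAbove_num (T : X →L[𝕜] X) :
    BddAbove {r : ℝ | ∃ p ∈ PiSet 𝕜 X, r = ‖p.2 (T p.1)‖} := by
  refine ⟨‖T‖, ?_⟩
  rintro r ⟨p, hp, rfl⟩
  exact norm_apply_le_of_mem hp T

lemma le_numRadius {p : X × (X →L[𝕜] 𝕜)} (hp : p ∈ PiSet 𝕜 X) (T : X →L[𝕜] X) :
    ‖p.2 (T p.1)‖ ≤ numRadius 𝕜 X T :=
  le_csSup (bddAbove_num T) ⟨p, hp, rfl⟩

lemma numRadius_le {T : X →L[𝕜] X} {r : ℝ} (hne : (PiSet 𝕜 X).Nonempty)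
    (h : ∀ p ∈ PiSet 𝕜 X, ‖p.2 (T p.1)‖ ≤ r) : numRadius 𝕜 X T ≤ r := by
  obtain ⟨p, hp⟩ := hne
  refine csSup_le ⟨_, p, hp, rfl⟩ ?_
  rintro _ ⟨p, hp, rfl⟩
  exact h p hp

lemma exists_lt_of_lt_numRadius {T : X →L[𝕜] X} {r : ℝ} (hne : (PiSet 𝕜 X).Nonempty)
    (h : r < numRadius 𝕜 X T) : ∃ p ∈ PiSet 𝕜 X, r < ‖p.2 (T p.1)‖ := by
  by_contra hcon
  push Not at hcon
  exact absurd (numRadius_le hne hcon) (not_le.mpr h)

lemma numRadius_sub_le {T S : X →L[𝕜] X} (hne : (PiSet 𝕜 X).Nonempty) :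
    numRadius 𝕜 X T ≤ numRadius 𝕜 X S + ‖T - S‖ := by
  refine numRadius_le hne fun p hp => ?_
  have : p.2 (T p.1) = p.2 (S p.1) + p.2 ((T - S) p.1) := by
    rw [← map_add]; simp
  rw [this]
  exact (norm_add_le _ _).trans (add_le_add (le_numRadius hp S) (norm_apply_le_of_mem hp _))

/-- a unimodular scalar making a number real nonnegative -/
lemma exists_unimodular (z : 𝕜) : ∃ α : 𝕜, ‖α‖ = 1 ∧ α * z = (‖z‖ : 𝕜) := by
  by_cases hz : z = 0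
  · exact ⟨1, by simp, by simp [hz]⟩
  · refine ⟨(starRingEnd 𝕜 z) / (‖z‖ : 𝕜), ?_, ?_⟩
    · rw [norm_div, RCLike.norm_conj]
      simp [hz]
    · have h0 : (‖z‖ : 𝕜) ≠ 0 := by simpa using hz
      field_simp
      rw [RCLike.conj_mul]

include 𝕜 in
lemma norm_add_self' (x : X) : ‖x + x‖ = 2 * ‖x‖ := by
  have := norm_smul (2 : 𝕜) x
  rw [two_smul, RCLike.norm_ofNat] at this
  simpa using this

lemma uc_dual {m : ℝ}
    (uc : ∀ x y : X, 2 * ‖x‖ ^ 2 + 2 * m * ‖y‖ ^ 2 ≤ ‖x + y‖ ^ 2 + ‖x - y‖ ^ 2)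
    {x : X} {f : X →L[𝕜] 𝕜} (hp : (x, f) ∈ PiSet 𝕜 X) {y : X} (hy : ‖y‖ ≤ 1) :
    RCLike.re (f y) ≤ 1 - m / 4 * ‖x - y‖ ^ 2 := by
  obtain ⟨h1, h2, h3⟩ := hp
  simp only at h1 h2 h3
  have e := uc (x + y) (x - y)
  have e1 : x + y + (x - y) = x + x := by abel
  have e2 : x + y - (x - y) = y + y := by abel
  rw [e1, e2, norm_add_self' (𝕜 := 𝕜), norm_add_self' (𝕜 := 𝕜), h1] at e
  have hy2 : ‖y‖ ^ 2 ≤ 1 := by
    have := norm_nonneg y
    nlinarith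
  have hq : ‖x + y‖ ^ 2 ≤ 4 - m * ‖x - y‖ ^ 2 := by nlinarith
  have hr : RCLike.re (f (x + y)) ≤ ‖x + y‖ := by
    calc RCLike.re (f (x + y)) ≤ ‖f (x + y)‖ := RCLike.re_le_norm _
      _ ≤ ‖f‖ * ‖x + y‖ := f.le_opNorm _
      _ = ‖x + y‖ := by rw [h2, one_mul]
  rw [map_add, map_add, h3, RCLike.one_re] at hr
  nlinarith [sq_nonneg (‖x + y‖ - 2)]

lemma us_dual {M : ℝ} (hM : 0 < M)
    (us : ∀ x y : X, ‖x + y‖ ^ 2 + ‖x - y‖ ^ 2 ≤ 2 * ‖x‖ ^ 2 + 2 * M * ‖y‖ ^ 2)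
    {x : X} {f : X →L[𝕜] 𝕜} (hp : (x, f) ∈ PiSet 𝕜 X) {g : X →L[𝕜] 𝕜} (hg : ‖g‖ ≤ 1) :
    ‖g - f‖ ^ 2 ≤ 4 * M * (1 - RCLike.re (g x)) := by
  obtain ⟨h1, h2, h3⟩ := hp
  simp only at h1 h2 h3
  set η : ℝ := 1 - RCLike.re (g x) with hη
  have hη0 : 0 ≤ η := by
    have : RCLike.re (g x) ≤ 1 := by
      calc RCLike.re (g x) ≤ ‖g x‖ := RCLike.re_le_norm _
        _ ≤ ‖g‖ * ‖x‖ := g.le_opNorm _
        _ ≤ 1 := by rw [h1]; linarith
    linarith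
  have key : ∀ h : X, RCLike.re ((g - f) h) ≤ η + M * ‖h‖ ^ 2 := by
    intro h
    have a1 : RCLike.re (g (x + h)) ≤ ‖x + h‖ := by
      calc RCLike.re (g (x + h)) ≤ ‖g (x + h)‖ := RCLike.re_le_norm _
        _ ≤ ‖g‖ * ‖x + h‖ := g.le_opNorm _
        _ ≤ 1 * ‖x + h‖ := by gcongr
        _ = ‖x + h‖ := one_mul _
    have a2 : RCLike.re (f (x - h)) ≤ ‖x - h‖ := by
      calc RCLike.re (f (x - h)) ≤ ‖f (x - h)‖ := RCLike.re_le_norm _
        _ ≤ ‖f‖ * ‖x - h‖ := f.le_opNorm _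
        _ = ‖x - h‖ := by rw [h2, one_mul]
    have a3 := us x h
    rw [map_add, map_add] at a1
    rw [map_sub, map_sub, h3, RCLike.one_re] at a2
    rw [sub_apply, map_sub]
    nlinarith [sq_nonneg (‖x + h‖ - 1), sq_nonneg (‖x - h‖ - 1)]
  have key2 : ∀ h : X, ‖(g - f) h‖ ^ 2 ≤ 4 * M * η * ‖h‖ ^ 2 := by
    intro h
    obtain ⟨α, hα, hα2⟩ := exists_unimodular ((g - f) h)
    have hall : ∀ t : ℝ, 0 ≤ (M * ‖h‖ ^ 2) * (t * t) + (-‖(g - f) h‖) * t + η := by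
      intro t
      have e : (g - f) ((t : 𝕜) • α • h) = ((t * ‖(g - f) h‖ : ℝ) : 𝕜) := by
        rw [map_smul (g - f), map_smul (g - f), smul_eq_mul, smul_eq_mul, hα2,
          RCLike.ofReal_mul]
      have := key ((t : 𝕜) • α • h)
      rw [e, RCLike.ofReal_re, norm_smul, norm_smul, hα, one_mul, RCLike.norm_ofReal, mul_pow,
        sq_abs] at this
      nlinarith
    have := discrim_le_zero hall
    unfold discrim at this
    nlinarith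
  have hb : ‖g - f‖ ≤ Real.sqrt (4 * M * η) := by
    refine ContinuousLinearMap.opNorm_le_bound _ (Real.sqrt_nonneg _) fun h => ?_
    refine abs_le_of_sq_le_sq' ?_ (by positivity) |>.2
    rw [mul_pow, Real.sq_sqrt (by positivity)]
    exact key2 h
  calc ‖g - f‖ ^ 2 ≤ (Real.sqrt (4 * M * η)) ^ 2 := by gcongr
    _ = 4 * M * η := Real.sq_sqrt (by positivity)

/-- the rank one operator `y ↦ f y • x` -/
noncomputable def rk (f : X →L[𝕜] 𝕜) (x : X) : X →L[𝕜] X := f.smulRight x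

lemma step {m : ℝ} (hm : 0 < m)
    (uc : ∀ x y : X, 2 * ‖x‖ ^ 2 + 2 * m * ‖y‖ ^ 2 ≤ ‖x + y‖ ^ 2 + ‖x - y‖ ^ 2)
    (T : X →L[𝕜] X) {x : X} {f : X →L[𝕜] 𝕜} (hp : (x, f) ∈ PiSet 𝕜 X) {η η' δ : ℝ}
    (hη' : 0 < η') (hδ : 0 < δ)
    (hT : numRadius 𝕜 X T - η ≤ ‖f (T x)‖) :
    ∃ (T' : X →L[𝕜] X) (x' : X) (f' : X →L[𝕜] 𝕜), (x', f') ∈ PiSet 𝕜 X ∧
      numRadius 𝕜 X T' - η' ≤ ‖f' (T' x')‖ ∧ ‖T' - T‖ ≤ δ ∧
      ‖x' - x‖ ^ 2 ≤ 4 / m * ((η + η') / δ) := by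
  have hne : (PiSet 𝕜 X).Nonempty := ⟨_, hp⟩
  obtain ⟨h1, h2, h3⟩ := id hp
  simp only at h1 h2 h3
  -- a scalar `c` of modulus `δ` aligned with `f (T x)`
  obtain ⟨α, hα, hα2⟩ := exists_unimodular (f (T x))
  have hα0 : α ≠ 0 := by
    intro h; rw [h] at hα; simp at hα
  set c : 𝕜 := (δ : 𝕜) * α⁻¹ with hc
  have hcn : ‖c‖ = δ := by
    rw [hc, norm_mul, norm_inv, hα, inv_one, mul_one, RCLike.norm_ofReal, abs_of_pos hδ]
  set T' : X →L[𝕜] X := T + c • rk f x with hT'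
  have hT'T : ‖T' - T‖ ≤ δ := by
    have : T' - T = c • rk f x := by rw [hT']; abel
    rw [this, norm_smul, hcn, rk, ContinuousLinearMap.norm_smulRight_apply, h1, h2]
    simp
  have hval : ‖f (T' x)‖ = ‖f (T x)‖ + δ := by
    have e : f (T' x) = α⁻¹ * ((‖f (T x)‖ + δ : ℝ) : 𝕜) := by
      have e1 : f (T' x) = f (T x) + c := by
        rw [hT']
        simp [rk, h3]
      rw [e1, RCLike.ofReal_add, ← hα2, hc]
      field_simp
    rw [e, norm_mul, norm_inv, hα, RCLike.norm_ofReal, abs_of_nonneg (by positivity)]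
    simp
  have hlow : numRadius 𝕜 X T - η + δ ≤ numRadius 𝕜 X T' := by
    have := le_numRadius hp T'
    simp only at this
    linarith
  obtain ⟨⟨y, g⟩, hg, hgy⟩ := exists_lt_of_lt_numRadius (T := T') hne
    (show numRadius 𝕜 X T' - η' < numRadius 𝕜 X T' by linarith)
  simp only at hgy
  obtain ⟨g1, g2, g3⟩ := id hg
  simp only at g1 g2 g3
  -- bound of `‖g (T' y)‖`
  have hup : ‖g (T' y)‖ ≤ numRadius 𝕜 X T + δ * ‖f y‖ := by
    have e : g (T' y) = g (T y) + c * (f y * g x) := by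
      rw [hT']
      simp [rk]
    rw [e]
    refine (norm_add_le _ _).trans (add_le_add (le_numRadius hg T) ?_)
    rw [norm_mul, hcn, norm_mul]
    have : ‖g x‖ ≤ 1 := by
      calc ‖g x‖ ≤ ‖g‖ * ‖x‖ := g.le_opNorm _
        _ = 1 := by rw [g2, h1, one_mul]
    have h0 : 0 ≤ ‖f y‖ := norm_nonneg _
    have : ‖f y‖ * ‖g x‖ ≤ ‖f y‖ := by nlinarith
    nlinarith
  obtain ⟨β, hβ, hβ2⟩ := exists_unimodular (f y)
  have hβ0 : β ≠ 0 := by
    intro h; rw [h] at hβ; simp at hβ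
  refine ⟨T', β • y, β⁻¹ • g, ⟨?_, ?_, ?_⟩, ?_, hT'T, ?_⟩
  · simp [norm_smul, hβ, g1]
  · simp [norm_smul, hβ, g2]
  · simp [g3, hβ0]
  · have : (β⁻¹ • g) (T' (β • y)) = g (T' y) := by
      simp [hβ0]
    rw [this]
    exact hgy.le
  · have hu := uc_dual uc hp (y := β • y) (by simp [norm_smul, hβ, g1])
    rw [map_smul, smul_eq_mul, hβ2, RCLike.ofReal_re] at hu
    have h5 : 1 - ‖f y‖ ≤ (η + η') / δ := by
      rw [le_div_iff₀ hδ]
      nlinarith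
    have h6 : m / 4 * ‖x - β • y‖ ^ 2 ≤ (η + η') / δ := by linarith
    rw [norm_sub_rev]
    calc ‖x - β • y‖ ^ 2 = 4 / m * (m / 4 * ‖x - β • y‖ ^ 2) := by field_simp
      _ ≤ 4 / m * ((η + η') / δ) := by gcongr

/-- One stage of the iteration: an operator together with a point of `Π(X)` at which its numerical
radius is attained up to `η / 8 ^ k`. -/
structure Stage (𝕜 : Type*) [RCLike 𝕜] (X : Type*) [NormedAddCommGroup X] [NormedSpace 𝕜 X]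
    (η : ℝ) (k : ℕ) where
  T : X →L[𝕜] X
  x : X
  f : X →L[𝕜] 𝕜
  mem : (x, f) ∈ PiSet 𝕜 X
  att : numRadius 𝕜 X T - η / 8 ^ k ≤ ‖f (T x)‖

lemma exists_next {m : ℝ} (hm : 0 < m)
    (uc : ∀ x y : X, 2 * ‖x‖ ^ 2 + 2 * m * ‖y‖ ^ 2 ≤ ‖x + y‖ ^ 2 + ‖x - y‖ ^ 2)
    {η δ r : ℝ} (hη : 0 < η) (hδ : 0 < δ) (hr : 0 < r) (hsm : η ≤ m * δ * r ^ 2 / 64)
    (k : ℕ) (s : Stage 𝕜 X η k) :
    ∃ s' : Stage 𝕜 X η (k + 1), ‖s'.T - s.T‖ ≤ δ / 2 / 2 ^ k ∧ ‖s'.x - s.x‖ ≤ r / 2 / 2 ^ k := by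
  obtain ⟨T', x', f', h1, h2, h3, h4⟩ := step (𝕜 := 𝕜) hm uc s.T s.mem (η := η / 8 ^ k)
    (η' := η / 8 ^ (k + 1)) (δ := δ / 2 / 2 ^ k) (by positivity) (by positivity) s.att
  refine ⟨⟨T', x', f', h1, h2⟩, h3, ?_⟩
  have h5 : 4 / m * ((η / 8 ^ k + η / 8 ^ (k + 1)) / (δ / 2 / 2 ^ k)) ≤ (r / 2 / 2 ^ k) ^ 2 := by
    have h8 : (8 : ℝ) ^ k = 2 ^ k * 2 ^ k * 2 ^ k := by
      rw [← mul_pow, ← mul_pow]; norm_num
    have hpos : (0 : ℝ) < 2 ^ k := by positivity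
    rw [pow_succ, h8]
    set p : ℝ := 2 ^ k
    have e1 : 4 / m * ((η / (p * p * p) + η / (p * p * p * 8)) / (δ / 2 / p))
        = (9 * η / (m * δ)) / p ^ 2 := by
      field_simp
      ring
    have e2 : (r / 2 / p) ^ 2 = (r ^ 2 / 4) / p ^ 2 := by
      field_simp
      ring
    rw [e1, e2]
    refine div_le_div_of_nonneg_right ?_ (by positivity)
    rw [div_le_iff₀ (by positivity)]
    nlinarith [mul_pos (mul_pos hm hδ) (pow_pos hr 2)]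
  exact abs_le_of_sq_le_sq' (h4.trans h5) (by positivity) |>.2

/-- A space that is 2-uniformly convex, 2-uniformly smooth, and on which the numerical radius is
equivalent to the operator norm has the Bishop-Phelps-Bollobas property for the numerical radius. -/
theorem hasBPBpNu_of [CompleteSpace X] {m M C : ℝ} (hm : 0 < m) (hM : 0 < M) (hC : 0 ≤ C)
    (uc : ∀ x y : X, 2 * ‖x‖ ^ 2 + 2 * m * ‖y‖ ^ 2 ≤ ‖x + y‖ ^ 2 + ‖x - y‖ ^ 2)
    (us : ∀ x y : X, ‖x + y‖ ^ 2 + ‖x - y‖ ^ 2 ≤ 2 * ‖x‖ ^ 2 + 2 * M * ‖y‖ ^ 2)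
    (ni : ∀ T : X →L[𝕜] X, ‖T‖ ≤ C * numRadius 𝕜 X T) :
    HasBPBpNu 𝕜 X := by
  intro ε hε
  -- parameters
  obtain ⟨δ, hδ, hδ1, hδ2⟩ : ∃ δ : ℝ, 0 < δ ∧ δ < 1 ∧ (1 + C) * δ < ε := by
    refine ⟨min (1 / 2) (ε / (2 * (1 + C))), by positivity, ?_, ?_⟩
    · exact (min_le_left _ _).trans_lt (by norm_num)
    · calc (1 + C) * min (1 / 2) (ε / (2 * (1 + C))) ≤ (1 + C) * (ε / (2 * (1 + C))) := by
            gcongr; exact min_le_right _ _
        _ = ε / 2 := by field_simp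
        _ < ε := by linarith
  obtain ⟨r, hr, hr1, hr2⟩ : ∃ r : ℝ, 0 < r ∧ r < ε ∧ 4 * M * r < ε ^ 2 := by
    refine ⟨min (ε / 2) (ε ^ 2 / (8 * M)), by positivity, ?_, ?_⟩
    · exact (min_le_left _ _).trans_lt (by linarith)
    · calc 4 * M * min (ε / 2) (ε ^ 2 / (8 * M)) ≤ 4 * M * (ε ^ 2 / (8 * M)) := by
            gcongr; exact min_le_right _ _
        _ = ε ^ 2 / 2 := by field_simp; ring
        _ < ε ^ 2 := by have : 0 < ε ^ 2 := by positivity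
                        linarith
  refine ⟨m * δ * r ^ 2 / 64, by positivity, ?_⟩
  intro T hT x₀ f₀ h₀ hatt
  set η : ℝ := m * δ * r ^ 2 / 64 with hη
  have hηpos : 0 < η := by positivity
  have hne : (PiSet 𝕜 X).Nonempty := ⟨_, h₀⟩
  let s₀ : Stage 𝕜 X η 0 := ⟨T, x₀, f₀, h₀, by rw [hT]; simpa using hatt.le⟩
  choose nxt hnxt using exists_next (𝕜 := 𝕜) hm uc hηpos hδ hr le_rfl
  let seq : ∀ k : ℕ, Stage 𝕜 X η k := fun k => Nat.rec s₀ (fun k s => nxt k s) k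
  have hseq : ∀ k, seq (k + 1) = nxt k (seq k) := fun k => rfl
  have hT1 : ∀ k, dist (seq k).T (seq (k + 1)).T ≤ δ / 2 / 2 ^ k := by
    intro k
    rw [dist_comm, dist_eq_norm, hseq]
    exact (hnxt k (seq k)).1
  have hx1 : ∀ k, dist (seq k).x (seq (k + 1)).x ≤ r / 2 / 2 ^ k := by
    intro k
    rw [dist_comm, dist_eq_norm, hseq]
    exact (hnxt k (seq k)).2
  obtain ⟨S, hS⟩ := cauchySeq_tendsto_of_complete (cauchySeq_of_le_geometric_two hT1)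
  obtain ⟨x₁, hx₁⟩ := cauchySeq_tendsto_of_complete (cauchySeq_of_le_geometric_two hx1)
  have hST : ‖S - T‖ ≤ δ := by
    have := dist_le_of_le_geometric_two_of_tendsto₀ hT1 hS
    rw [dist_comm, dist_eq_norm] at this
    exact this
  have hxx : ‖x₁ - x₀‖ ≤ r := by
    have := dist_le_of_le_geometric_two_of_tendsto₀ hx1 hx₁
    rw [dist_comm, dist_eq_norm] at this
    exact this
  have hx₁n : ‖x₁‖ = 1 := by
    have h1 : Tendsto (fun k => ‖(seq k).x‖) atTop (𝓝 ‖x₁‖) := hx₁.norm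
    have h2 : Tendsto (fun k => ‖(seq k).x‖) atTop (𝓝 1) := by
      have : (fun k => ‖(seq k).x‖) = fun _ => (1 : ℝ) := by
        funext k; exact (seq k).mem.1
      rw [this]; exact tendsto_const_nhds
    exact tendsto_nhds_unique h1 h2
  obtain ⟨f₁, hf₁, hf₁x⟩ := exists_dual_vector 𝕜 x₁ (by rw [hx₁n]; norm_num)
  have hmem : (x₁, f₁) ∈ PiSet 𝕜 X := by
    refine ⟨hx₁n, hf₁, ?_⟩
    simp only
    rw [hf₁x, hx₁n]
    simp
  -- convergence of the functionals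
  have hfd : ∀ (x : X) (f : X →L[𝕜] 𝕜), (x, f) ∈ PiSet 𝕜 X →
      ‖f₁ - f‖ ^ 2 ≤ 4 * M * ‖x₁ - x‖ := by
    intro x f hf
    have h1 := us_dual hM us hmem (g := f) (le_of_eq hf.2.1)
    have h2 : 1 - RCLike.re (f x₁) ≤ ‖x₁ - x‖ := by
      have e : f x₁ = 1 + f (x₁ - x) := by
        rw [map_sub, hf.2.2]; ring
      rw [e, map_add, RCLike.one_re]
      have h3 : -RCLike.re (f (x₁ - x)) ≤ ‖x₁ - x‖ := by
        calc -RCLike.re (f (x₁ - x)) ≤ |RCLike.re (f (x₁ - x))| := neg_le_abs _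
          _ ≤ ‖f (x₁ - x)‖ := RCLike.abs_re_le_norm _
          _ ≤ ‖f‖ * ‖x₁ - x‖ := f.le_opNorm _
          _ = ‖x₁ - x‖ := by
            have := hf.2.1
            simp only at this
            rw [this, one_mul]
      linarith
    rw [norm_sub_rev]
    calc ‖f - f₁‖ ^ 2 ≤ 4 * M * (1 - RCLike.re (f x₁)) := h1
      _ ≤ 4 * M * ‖x₁ - x‖ := by gcongr
  have hf₁₀ : ‖f₁ - f₀‖ < ε := by
    have h1 := hfd x₀ f₀ h₀
    have h2 : ‖f₁ - f₀‖ ^ 2 < ε ^ 2 := by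
      calc ‖f₁ - f₀‖ ^ 2 ≤ 4 * M * ‖x₁ - x₀‖ := h1
        _ ≤ 4 * M * r := by gcongr
        _ < ε ^ 2 := hr2
    exact lt_of_pow_lt_pow_left₀ 2 hε.le h2
  have hflim : Tendsto (fun k => (seq k).f) atTop (𝓝 f₁) := by
    rw [tendsto_iff_norm_sub_tendsto_zero]
    have h1 : Tendsto (fun k => Real.sqrt (4 * M * ‖x₁ - (seq k).x‖)) atTop (𝓝 0) := by
      have h2 : Tendsto (fun k => ‖x₁ - (seq k).x‖) atTop (𝓝 0) := by
        have := (tendsto_const_nhds (x := x₁)).sub hx₁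
        rw [sub_self] at this
        simpa using this.norm
      have h3 := (h2.const_mul (4 * M)).sqrt
      simpa using h3
    refine squeeze_zero (fun k => norm_nonneg _) (fun k => ?_) h1
    rw [norm_sub_rev]
    exact Real.le_sqrt_of_sq_le (hfd _ _ (seq k).mem)
  have hval : Tendsto (fun k => ‖(seq k).f ((seq k).T (seq k).x)‖) atTop (𝓝 ‖f₁ (S x₁)‖) := by
    have h1 : Tendsto (fun k => (seq k).T (seq k).x) atTop (𝓝 (S x₁)) :=
      (isBoundedBilinearMap_apply (𝕜 := 𝕜) (E := X) (F := X)).continuous.tendsto (S, x₁)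
        |>.comp (hS.prodMk_nhds hx₁)
    have h2 : Tendsto (fun k => (seq k).f ((seq k).T (seq k).x)) atTop (𝓝 (f₁ (S x₁))) :=
      (isBoundedBilinearMap_apply (𝕜 := 𝕜) (E := X) (F := 𝕜)).continuous.tendsto (f₁, S x₁)
        |>.comp (hflim.prodMk_nhds h1)
    exact h2.norm
  have hnr : ∀ A B : X →L[𝕜] X, |numRadius 𝕜 X A - numRadius 𝕜 X B| ≤ ‖A - B‖ := by
    intro A B
    rw [abs_le]
    constructor
    · have := numRadius_sub_le (T := B) (S := A) hne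
      rw [norm_sub_rev] at this
      linarith
    · have := numRadius_sub_le (T := A) (S := B) hne
      linarith
  have hνlim : Tendsto (fun k => numRadius 𝕜 X (seq k).T) atTop (𝓝 (numRadius 𝕜 X S)) := by
    rw [tendsto_iff_norm_sub_tendsto_zero]
    have h2 : Tendsto (fun k => ‖(seq k).T - S‖) atTop (𝓝 0) := by
      rw [← tendsto_iff_norm_sub_tendsto_zero]; exact hS
    exact squeeze_zero (fun k => norm_nonneg _) (fun k => hnr _ _) h2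
  have hSatt : ‖f₁ (S x₁)‖ = numRadius 𝕜 X S := by
    refine le_antisymm (le_numRadius hmem S) ?_
    have h1 : Tendsto (fun k : ℕ => numRadius 𝕜 X (seq k).T - η / 8 ^ k) atTop
        (𝓝 (numRadius 𝕜 X S - 0)) := by
      refine hνlim.sub ?_
      have : Tendsto (fun k : ℕ => η * (1 / 8 : ℝ) ^ k) atTop (𝓝 (η * 0)) :=
        (tendsto_pow_atTop_nhds_zero_of_lt_one (by norm_num) (by norm_num)).const_mul _
      rw [mul_zero] at this
      refine this.congr fun k => ?_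
      rw [one_div, inv_pow, div_eq_mul_inv]
    rw [sub_zero] at h1
    exact le_of_tendsto_of_tendsto' h1 hval fun k => (seq k).att
  -- normalisation
  set v := numRadius 𝕜 X S with hv
  have hv1 : |v - 1| ≤ δ := by
    have := hnr S T
    rw [hT] at this
    exact this.trans hST
  have hvpos : 0 < v := by
    rw [abs_le] at hv1; linarith
  refine ⟨((v⁻¹ : ℝ) : 𝕜) • S, x₁, f₁, hmem, ?_, ?_, ?_, hxx.trans_lt hr1, hf₁₀⟩
  · have hle : ∀ p ∈ PiSet 𝕜 X, ‖p.2 ((((v⁻¹ : ℝ) : 𝕜) • S) p.1)‖ ≤ 1 := by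
      intro p hp
      have h1 := le_numRadius hp S
      rw [smul_apply, map_smul, norm_smul, RCLike.norm_ofReal, abs_of_pos (by positivity)]
      calc v⁻¹ * ‖p.2 (S p.1)‖ ≤ v⁻¹ * v := by gcongr
        _ = 1 := by field_simp
    refine le_antisymm (numRadius_le hne hle) ?_
    have h1 := le_numRadius hmem (((v⁻¹ : ℝ) : 𝕜) • S)
    refine le_trans (le_of_eq ?_) h1
    simp only
    rw [smul_apply, map_smul, norm_smul, RCLike.norm_ofReal, abs_of_pos (by positivity), hSatt]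
    field_simp
  · rw [smul_apply, map_smul, norm_smul, RCLike.norm_ofReal, abs_of_pos (by positivity), hSatt]
    field_simp
  · have e : (((v⁻¹ : ℝ) : 𝕜) • S) - T = ((v⁻¹ - 1 : ℝ) : 𝕜) • S + (S - T) := by
      rw [RCLike.ofReal_sub, sub_smul, RCLike.ofReal_one, one_smul]
      abel
    rw [e]
    have h1 : ‖((v⁻¹ - 1 : ℝ) : 𝕜) • S‖ ≤ C * δ := by
      rw [norm_smul, RCLike.norm_ofReal]
      have h2 : v⁻¹ - 1 = -(v - 1) * v⁻¹ := by field_simp; ring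
      rw [h2, abs_mul, abs_neg, abs_of_pos (show 0 < v⁻¹ by positivity)]
      calc |v - 1| * v⁻¹ * ‖S‖ ≤ δ * v⁻¹ * (C * v) := by
            gcongr
            exact ni S
        _ = C * δ := by field_simp
    calc ‖((v⁻¹ - 1 : ℝ) : 𝕜) • S + (S - T)‖ ≤ C * δ + δ := (norm_add_le _ _).trans
          (add_le_add h1 hST)
      _ = (1 + C) * δ := by ring
      _ < ε := hδ2

end Pool.Agent.H15.BPB
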