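import Pool.Agent.H15.BPB.Defs

set_option autoImplicit false

namespace Pool.Agent.H15.BPB

open Filter Topology RCLike
open scoped ComplexConjugate

section Forms

variable {𝕜 : Type*} [RCLike 𝕜]

/-- squared Euclidean norm on `𝕜 × 𝕜` -/
noncomputable def rr (v : 𝕜 × 𝕜) : ℝ := ‖v.1‖ ^ 2 + ‖v.2‖ ^ 2

/-- Euclidean inner product on `𝕜 × 𝕜` -/
noncomputable def hip (v w : 𝕜 × 𝕜) : 𝕜 := conj v.1 * w.1 + conj v.2 * w.2

/-- the hermitian form with matrix `!![0, 1; 1, 0]` -/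
noncomputable def hqf (v w : 𝕜 × 𝕜) : 𝕜 := conj v.1 * w.2 + conj v.2 * w.1

/-- the quadratic form `2 Re (conj a * b)` -/
noncomputable def qq (v : 𝕜 × 𝕜) : ℝ := re (hqf v v)

lemma rr_nonneg (v : 𝕜 × 𝕜) : 0 ≤ rr v := by unfold rr; positivity

lemma rr_eq_zero {v : 𝕜 × 𝕜} (h : rr v = 0) : v = 0 := by
  unfold rr at h
  have h1 : ‖v.1‖ ^ 2 = 0 := by nlinarith [sq_nonneg ‖v.1‖, sq_nonneg ‖v.2‖]
  have h2 : ‖v.2‖ ^ 2 = 0 := by nlinarith [sq_nonneg ‖v.1‖, sq_nonneg ‖v.2‖]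
  ext
  · simpa using h1
  · simpa using h2

lemma rr_pos {v : 𝕜 × 𝕜} (h : v ≠ 0) : 0 < rr v :=
  lt_of_le_of_ne (rr_nonneg v) fun h' => h (rr_eq_zero h'.symm)

@[simp] lemma rr_zero : rr (0 : 𝕜 × 𝕜) = 0 := by simp [rr]

@[simp] lemma qq_zero : qq (0 : 𝕜 × 𝕜) = 0 := by simp [qq, hqf]

lemma norm_add_sq' (a b : 𝕜) : ‖a + b‖ ^ 2 = ‖a‖ ^ 2 + 2 * re (conj a * b) + ‖b‖ ^ 2 := by
  have := @norm_add_sq 𝕜 𝕜 _ _ _ a b
  rw [this, RCLike.inner_apply, mul_comm b]

lemma rr_add (v w : 𝕜 × 𝕜) : rr (v + w) = rr v + 2 * re (hip v w) + rr w := by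
  simp only [rr, hip, Prod.fst_add, Prod.snd_add, norm_add_sq', map_add]
  ring

lemma hqf_add_left (u v w : 𝕜 × 𝕜) : hqf (u + v) w = hqf u w + hqf v w := by
  simp only [hqf, Prod.fst_add, Prod.snd_add, map_add]; ring

lemma hqf_add_right (u v w : 𝕜 × 𝕜) : hqf u (v + w) = hqf u v + hqf u w := by
  simp only [hqf, Prod.fst_add, Prod.snd_add]; ring

lemma hqf_conj (v w : 𝕜 × 𝕜) : conj (hqf v w) = hqf w v := by
  simp only [hqf, map_add, map_mul, conj_conj]; ring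

lemma hip_conj (v w : 𝕜 × 𝕜) : conj (hip v w) = hip w v := by
  simp only [hip, map_add, map_mul, conj_conj]; ring

lemma re_hqf_comm (v w : 𝕜 × 𝕜) : re (hqf v w) = re (hqf w v) := by
  rw [← hqf_conj, conj_re]

lemma qq_add (v w : 𝕜 × 𝕜) : qq (v + w) = qq v + 2 * re (hqf v w) + qq w := by
  simp only [qq, hqf_add_left, hqf_add_right, map_add]
  rw [re_hqf_comm w v]; ring

lemma hqf_self (v : 𝕜 × 𝕜) : hqf v v = (qq v : 𝕜) := by
  rw [qq, eq_comm, ← conj_eq_iff_re]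
  exact hqf_conj v v

lemma hip_self (v : 𝕜 × 𝕜) : hip v v = (rr v : 𝕜) := by
  rw [hip, rr, RCLike.conj_mul, RCLike.conj_mul, RCLike.ofReal_add, RCLike.ofReal_pow,
    RCLike.ofReal_pow]

lemma norm_two_le (a b c d : 𝕜) :
    ‖conj a * c + conj b * d‖ ^ 2 ≤ (‖a‖ ^ 2 + ‖b‖ ^ 2) * (‖c‖ ^ 2 + ‖d‖ ^ 2) := by
  have h1 : ‖conj a * c + conj b * d‖ ≤ ‖a‖ * ‖c‖ + ‖b‖ * ‖d‖ := by
    refine (norm_add_le _ _).trans (le_of_eq ?_)
    rw [norm_mul, norm_mul, norm_conj, norm_conj]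
  calc ‖conj a * c + conj b * d‖ ^ 2 ≤ (‖a‖ * ‖c‖ + ‖b‖ * ‖d‖) ^ 2 := by gcongr
    _ ≤ _ := by nlinarith [sq_nonneg (‖a‖ * ‖d‖ - ‖b‖ * ‖c‖)]

lemma norm_hip_sq_le (v w : 𝕜 × 𝕜) : ‖hip v w‖ ^ 2 ≤ rr v * rr w := norm_two_le _ _ _ _

lemma norm_hqf_sq_le (v w : 𝕜 × 𝕜) : ‖hqf v w‖ ^ 2 ≤ rr v * rr w := by
  have := norm_two_le v.1 v.2 w.2 w.1
  unfold hqf rr
  linarith

lemma sq_re_le (z : 𝕜) : (re z) ^ 2 ≤ ‖z‖ ^ 2 := by
  have := abs_re_le_norm z
  rw [← sq_abs]; gcongr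

lemma abs_qq_le (v : 𝕜 × 𝕜) : |qq v| ≤ rr v := by
  have h := (sq_re_le _).trans (norm_hqf_sq_le v v)
  have h0 := rr_nonneg v
  exact abs_le_of_sq_le_sq (by unfold qq; linarith) h0

lemma rr_smul (α : 𝕜) (v : 𝕜 × 𝕜) : rr (α • v) = ‖α‖ ^ 2 * rr v := by
  simp only [rr, Prod.smul_fst, Prod.smul_snd, norm_smul]; ring

lemma hip_smul_right (α : 𝕜) (v w : 𝕜 × 𝕜) : hip v (α • w) = α * hip v w := by
  simp only [hip, Prod.smul_fst, Prod.smul_snd, smul_eq_mul]; ring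

lemma hqf_smul_right (α : 𝕜) (v w : 𝕜 × 𝕜) : hqf v (α • w) = α * hqf v w := by
  simp only [hqf, Prod.smul_fst, Prod.smul_snd, smul_eq_mul]; ring

lemma hip_add_right (u v w : 𝕜 × 𝕜) : hip u (v + w) = hip u v + hip u w := by
  simp only [hip, Prod.fst_add, Prod.snd_add]; ring

lemma qq_smul (α : 𝕜) (v : 𝕜 × 𝕜) : qq (α • v) = ‖α‖ ^ 2 * qq v := by
  have : hqf (α • v) (α • v) = ((‖α‖ ^ 2 : ℝ) : 𝕜) * hqf v v := by
    rw [RCLike.ofReal_pow, ← RCLike.conj_mul]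
    simp only [hqf, Prod.smul_fst, Prod.smul_snd, smul_eq_mul, map_mul]; ring
  rw [qq, this, re_ofReal_mul, qq]

lemma rr_neg (v : 𝕜 × 𝕜) : rr (-v) = rr v := by simp [rr]

lemma qq_neg (v : 𝕜 × 𝕜) : qq (-v) = qq v := by simp [qq, hqf]

lemma hip_neg_right (v w : 𝕜 × 𝕜) : hip v (-w) = - hip v w := by
  simp only [hip, Prod.fst_neg, Prod.snd_neg]; ring

lemma hqf_neg_right (v w : 𝕜 × 𝕜) : hqf v (-w) = - hqf v w := by
  simp only [hqf, Prod.fst_neg, Prod.snd_neg]; ring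

end Forms

section Profile

/-- Data on a profile function `G` with derivative `G'`. -/
structure Nice (G G' : ℝ → ℝ) (κ : ℝ) : Prop where
  κ_nonneg : 0 ≤ κ
  tay : ∀ s s' : ℝ, |G s' - G s - G' s * (s' - s)| ≤ κ * (s' - s) ^ 2
  small : ∀ s : ℝ, |s| ≤ 1 → |G s| + 2 * |G' s| + 100 * κ ≤ 1 / 10

variable {𝕜 : Type*} [RCLike 𝕜] {G G' : ℝ → ℝ} {κ : ℝ}

/-- the squared norm with profile `G` -/
noncomputable def PhiG (G : ℝ → ℝ) (v : 𝕜 × 𝕜) : ℝ := rr v * (1 + G (qq v / rr v))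

/-- the duality map with profile `G`, `G'` -/
noncomputable def JG (G G' : ℝ → ℝ) (v w : 𝕜 × 𝕜) : 𝕜 :=
  ((1 + G (qq v / rr v) - (qq v / rr v) * G' (qq v / rr v) : ℝ) : 𝕜) * hip v w
    + ((G' (qq v / rr v) : ℝ) : 𝕜) * hqf v w

lemma abs_ratio_le (v : 𝕜 × 𝕜) : |qq v / rr v| ≤ 1 := by
  rw [abs_div, abs_of_nonneg (rr_nonneg v)]
  exact div_le_one_of_le₀ (abs_qq_le v) (rr_nonneg v)

lemma ratio_mul (v : 𝕜 × 𝕜) : qq v / rr v * rr v = qq v := by
  by_cases h : rr v = 0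
  · have := rr_eq_zero h; subst this; simp
  · field_simp

lemma JG_self (v : 𝕜 × 𝕜) : JG G G' v v = (PhiG G v : 𝕜) := by
  unfold JG PhiG
  rw [hip_self, hqf_self]
  have hq := ratio_mul v
  set s := qq v / rr v
  rw [← RCLike.ofReal_mul, ← RCLike.ofReal_mul, ← RCLike.ofReal_add, ← hq]
  congr 1
  ring

/-- the elementary inequality behind the remainder estimate, near case -/
lemma near_aux {a b A B s q ρ : ℝ} (ha : 0 < a) (hb : 0 ≤ b) (hab : 2 * b ≤ a) (hA : |A| ≤ a * b)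
    (hB : |B| ≤ a * b) (hs : |s| ≤ 1) (hq : |q| ≤ b ^ 2) (hρ : ρ = a ^ 2 + 2 * A + b ^ 2) :
    (2 * (B - s * A) + (q - s * b ^ 2)) ^ 2 ≤ ρ * (ρ * 0 + 100 * b ^ 2) := by
  have hρlow : a ^ 2 / 4 ≤ ρ := by
    have := (abs_le.mp hA).1
    rw [hρ]
    nlinarith
  have t1 : |s * A| ≤ a * b := by
    rw [abs_mul]
    calc |s| * |A| ≤ 1 * (a * b) := by gcongr
      _ = a * b := one_mul _
  have t2 : |q - s * b ^ 2| ≤ 2 * b ^ 2 := by
    refine (abs_sub _ _).trans ?_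
    rw [abs_mul, abs_of_nonneg (sq_nonneg b)]
    nlinarith [sq_nonneg b]
  have t3 : |2 * (B - s * A) + (q - s * b ^ 2)| ≤ 5 * (a * b) := by
    calc |2 * (B - s * A) + (q - s * b ^ 2)|
        ≤ |2 * (B - s * A)| + |q - s * b ^ 2| := abs_add_le _ _
      _ ≤ 2 * (|B| + |s * A|) + 2 * b ^ 2 := by
          rw [abs_mul, abs_two]
          gcongr
          exact abs_sub _ _
      _ ≤ 2 * (a * b + a * b) + 2 * b ^ 2 := by gcongr
      _ ≤ 5 * (a * b) := by nlinarith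
  calc (2 * (B - s * A) + (q - s * b ^ 2)) ^ 2
      = |2 * (B - s * A) + (q - s * b ^ 2)| ^ 2 := (sq_abs _).symm
    _ ≤ (5 * (a * b)) ^ 2 := by gcongr
    _ = (a ^ 2 / 4) * (100 * b ^ 2) := by ring
    _ ≤ ρ * (100 * b ^ 2) := by gcongr
    _ = _ := by ring

lemma remainder_aux (v w : 𝕜 × 𝕜) {s : ℝ} (hs1 : |s| ≤ 1)
    (hD : qq (v + w) - s * rr (v + w)
      = 2 * (re (hqf v w) - s * re (hip v w)) + (qq w - s * rr w)) :
    rr (v + w) * (qq (v + w) / rr (v + w) - s) ^ 2 ≤ 100 * rr w := by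
  have hs'1 := abs_ratio_le (v + w)
  have hm : rr (v + w) * (qq (v + w) / rr (v + w)) = qq (v + w) := by
    rw [mul_comm]; exact ratio_mul (v + w)
  set s' := qq (v + w) / rr (v + w) with hs'
  have hρ0 : 0 ≤ rr (v + w) := rr_nonneg _
  have hρe : rr (v + w) = rr v + 2 * re (hip v w) + rr w := rr_add v w
  have hrv := rr_nonneg v
  have hrw := rr_nonneg w
  have hA : re (hip v w) ^ 2 ≤ rr v * rr w := (sq_re_le _).trans (norm_hip_sq_le v w)
  have hB : re (hqf v w) ^ 2 ≤ rr v * rr w := (sq_re_le _).trans (norm_hqf_sq_le v w)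
  have hqw := abs_qq_le w
  generalize rr (v + w) = ρ at *
  generalize re (hip v w) = A at *
  generalize re (hqf v w) = B at *
  generalize qq (v + w) = Q at *
  by_cases hc : rr v ≤ 4 * rr w
  · -- far case
    have h3 : (s' - s) ^ 2 ≤ 4 := by
      have : |s' - s| ≤ 2 := (abs_sub _ _).trans (by linarith)
      rw [← sq_abs]; nlinarith [abs_nonneg (s' - s)]
    have hA2 : A ≤ 2 * rr w := by
      have : A ^ 2 ≤ (2 * rr w) ^ 2 := by nlinarith
      exact (abs_le_of_sq_le_sq' this (by positivity)).2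
    nlinarith
  · -- near case
    push Not at hc
    generalize rr v = V at *
    generalize rr w = W at *
    generalize qq w = Qw at *
    clear_value s'
    clear hs'
    obtain ⟨a, ha0, rfl⟩ : ∃ a : ℝ, 0 ≤ a ∧ a ^ 2 = V :=
      ⟨Real.sqrt V, Real.sqrt_nonneg _, Real.sq_sqrt hrv⟩
    obtain ⟨b, hb0, rfl⟩ : ∃ b : ℝ, 0 ≤ b ∧ b ^ 2 = W :=
      ⟨Real.sqrt W, Real.sqrt_nonneg _, Real.sq_sqrt hrw⟩
    have hAB : |A| ≤ a * b := by
      refine abs_le_of_sq_le_sq ?_ (by positivity)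
      rw [mul_pow]; exact hA
    have hBB : |B| ≤ a * b := by
      refine abs_le_of_sq_le_sq ?_ (by positivity)
      rw [mul_pow]; exact hB
    have hab : 2 * b ≤ a := by
      have : (2 * b) ^ 2 ≤ a ^ 2 := by nlinarith
      exact (abs_le_of_sq_le_sq' this ha0).2
    have hapos : 0 < a := by
      rcases ha0.lt_or_eq with h | h
      · exact h
      · exfalso
        rw [← h] at hc
        nlinarith [sq_nonneg b]
    have hρlow : a ^ 2 / 4 ≤ ρ := by
      have := (abs_le.mp hAB).1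
      rw [hρe]
      nlinarith
    have hρpos : 0 < ρ := by nlinarith [sq_pos_of_pos hapos]
    have h7 := near_aux hapos hb0 hab hAB hBB hs1 hqw hρe
    rw [← hD, ← hm] at h7
    have h8 : ρ * (ρ * (s' - s) ^ 2) ≤ ρ * (100 * b ^ 2) := by
      calc ρ * (ρ * (s' - s) ^ 2) = (ρ * s' - s * ρ) ^ 2 := by ring
        _ ≤ ρ * (ρ * 0 + 100 * b ^ 2) := h7
        _ = ρ * (100 * b ^ 2) := by ring
    exact le_of_mul_le_mul_left h8 hρpos

lemma tangent (h : Nice G G' κ) (v w : 𝕜 × 𝕜) :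
    |PhiG G (v + w) - PhiG G v - 2 * re (JG G G' v w) - rr w| ≤ 1 / 10 * rr w := by
  set s := qq v / rr v with hs
  have hs1 : |s| ≤ 1 := abs_ratio_le v
  have hsm := h.small s hs1
  have hκ := h.κ_nonneg
  set s' := qq (v + w) / rr (v + w) with hs'
  have hs'1 : |s'| ≤ 1 := abs_ratio_le (v + w)
  -- the quantity `q - s r`
  have hD : qq (v + w) - s * rr (v + w)
      = 2 * (re (hqf v w) - s * re (hip v w)) + (qq w - s * rr w) := by
    rw [qq_add, rr_add]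
    have := ratio_mul v
    rw [← hs] at this
    linear_combination -this
  have e1 : PhiG G (v + w) = rr (v + w) * (1 + G s) + G' s * (qq (v + w) - s * rr (v + w))
      + rr (v + w) * (G s' - G s - G' s * (s' - s)) := by
    unfold PhiG
    rw [← hs']
    have := ratio_mul (v + w)
    rw [← hs'] at this
    rw [← this]
    ring
  have e2 : re (JG G G' v w) = (1 + G s - s * G' s) * re (hip v w) + G' s * re (hqf v w) := by
    unfold JG
    rw [← hs, map_add, re_ofReal_mul, re_ofReal_mul]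
  have e3 : PhiG G v = rr v * (1 + G s) := rfl
  have e4 : PhiG G (v + w) - PhiG G v - 2 * re (JG G G' v w) - rr w
      = G s * rr w + G' s * (qq w - s * rr w)
        + rr (v + w) * (G s' - G s - G' s * (s' - s)) := by
    rw [e1, e2, e3, hD, rr_add]
    ring
  rw [e4]
  -- the remainder
  have hE : |rr (v + w) * (G s' - G s - G' s * (s' - s))| ≤ 100 * κ * rr w := by
    rw [abs_mul, abs_of_nonneg (rr_nonneg _)]
    have h1 : rr (v + w) * |G s' - G s - G' s * (s' - s)|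
        ≤ κ * (rr (v + w) * (s' - s) ^ 2) := by
      calc rr (v + w) * |G s' - G s - G' s * (s' - s)| ≤ rr (v + w) * (κ * (s' - s) ^ 2) := by
            gcongr
            · exact rr_nonneg _
            · exact h.tay s s'
        _ = _ := by ring
    refine h1.trans ?_
    have h2 : rr (v + w) * (s' - s) ^ 2 ≤ 100 * rr w := remainder_aux v w hs1 hD
    calc κ * (rr (v + w) * (s' - s) ^ 2) ≤ κ * (100 * rr w) := by gcongr
      _ = 100 * κ * rr w := by ring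
  have hw := rr_nonneg w
  have hqw := abs_qq_le w
  have t3 : |G s * rr w| ≤ |G s| * rr w := by rw [abs_mul, abs_of_nonneg hw]
  have t4 : |G' s * (qq w - s * rr w)| ≤ |G' s| * (2 * rr w) := by
    rw [abs_mul]
    gcongr
    refine (abs_sub _ _).trans ?_
    rw [abs_mul, abs_of_nonneg hw]
    nlinarith
  calc |G s * rr w + G' s * (qq w - s * rr w)
        + rr (v + w) * (G s' - G s - G' s * (s' - s))|
      ≤ |G s| * rr w + |G' s| * (2 * rr w) + 100 * κ * rr w := by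
        refine (abs_add_le _ _).trans (add_le_add ((abs_add_le _ _).trans (add_le_add t3 t4)) hE)
    _ = (|G s| + 2 * |G' s| + 100 * κ) * rr w := by ring
    _ ≤ 1 / 10 * rr w := by gcongr

lemma JG_smul_right (α : 𝕜) (v w : 𝕜 × 𝕜) : JG G G' v (α • w) = α * JG G G' v w := by
  unfold JG
  rw [hip_smul_right, hqf_smul_right]; ring

lemma JG_add_right (u v w : 𝕜 × 𝕜) : JG G G' u (v + w) = JG G G' u v + JG G G' u w := by
  unfold JG
  rw [hip_add_right, hqf_add_right]; ring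

lemma JG_neg_right (v w : 𝕜 × 𝕜) : JG G G' v (-w) = -JG G G' v w := by
  unfold JG
  rw [hip_neg_right, hqf_neg_right]; ring

lemma PhiG_smul (α : 𝕜) (v : 𝕜 × 𝕜) : PhiG G (α • v) = ‖α‖ ^ 2 * PhiG G v := by
  unfold PhiG
  by_cases hα : α = 0
  · subst hα; simp
  · have : qq (α • v) / rr (α • v) = qq v / rr v := by
      rw [qq_smul, rr_smul]
      have h0 : ‖α‖ ^ 2 ≠ 0 := by simpa using hα
      exact mul_div_mul_left _ _ h0
    rw [this, rr_smul]; ring

lemma PhiG_neg (v : 𝕜 × 𝕜) : PhiG G (-v) = PhiG G v := by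
  unfold PhiG; rw [rr_neg, qq_neg]

@[simp] lemma PhiG_zero : PhiG G (0 : 𝕜 × 𝕜) = 0 := by simp [PhiG]

lemma PhiG_lower (h : Nice G G' κ) (v : 𝕜 × 𝕜) : 9 / 10 * rr v ≤ PhiG G v := by
  have h1 := h.small _ (abs_ratio_le v)
  have h2 := abs_nonneg (G' (qq v / rr v))
  have h3 := h.κ_nonneg
  have h4 := neg_abs_le (G (qq v / rr v))
  have h5 := rr_nonneg v
  unfold PhiG
  nlinarith

lemma PhiG_upper (h : Nice G G' κ) (v : 𝕜 × 𝕜) : PhiG G v ≤ 11 / 10 * rr v := by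
  have h1 := h.small _ (abs_ratio_le v)
  have h2 := abs_nonneg (G' (qq v / rr v))
  have h3 := h.κ_nonneg
  have h4 := le_abs_self (G (qq v / rr v))
  have h5 := rr_nonneg v
  unfold PhiG
  nlinarith

lemma PhiG_nonneg (h : Nice G G' κ) (v : 𝕜 × 𝕜) : 0 ≤ PhiG G v :=
  le_trans (mul_nonneg (by norm_num) (rr_nonneg v)) (PhiG_lower h v)

lemma second_diff (h : Nice G G' κ) (v w : 𝕜 × 𝕜) :
    |PhiG G (v + w) + PhiG G (v - w) - 2 * PhiG G v - 2 * rr w| ≤ 2 / 10 * rr w := by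
  have h1 := tangent h v w
  have h2 := tangent h v (-w)
  rw [JG_neg_right, rr_neg, ← sub_eq_add_neg, map_neg] at h2
  rw [abs_le] at *
  constructor <;> linarith [h1.1, h1.2, h2.1, h2.2]

lemma norm_JG_sq_le (h : Nice G G' κ) (v w : 𝕜 × 𝕜) :
    ‖JG G G' v w‖ ^ 2 ≤ PhiG G v * PhiG G w := by
  obtain ⟨α, hα, hα2⟩ : ∃ α : 𝕜, ‖α‖ = 1 ∧ α * JG G G' v w = (‖JG G G' v w‖ : 𝕜) := by
    by_cases hz : JG G G' v w = 0
    · exact ⟨1, by simp, by simp [hz]⟩
    · refine ⟨conj (JG G G' v w) / (‖JG G G' v w‖ : 𝕜), ?_, ?_⟩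
      · rw [norm_div, RCLike.norm_conj]; simp [hz]
      · have h0 : (‖JG G G' v w‖ : 𝕜) ≠ 0 := by simpa using hz
        field_simp
        rw [RCLike.conj_mul]
  have hall : ∀ t : ℝ, 0 ≤ PhiG G w * (t * t) + (-(2 * ‖JG G G' v w‖)) * t + PhiG G v := by
    intro t
    have h1 := tangent h v (((t : 𝕜) * α) • w + -v)
    have e1 : v + (((t : 𝕜) * α) • w + -v) = ((t : 𝕜) * α) • w := by abel
    rw [e1, PhiG_smul, norm_mul, hα, mul_one, RCLike.norm_ofReal, sq_abs, JG_add_right,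
      JG_neg_right, JG_smul_right, JG_self, mul_assoc, hα2, ← RCLike.ofReal_mul, map_add,
      map_neg, RCLike.ofReal_re, RCLike.ofReal_re] at h1
    have h2 := (abs_le.mp h1).1
    have h3 := rr_nonneg (((t : 𝕜) * α) • w + -v)
    nlinarith
  have := discrim_le_zero hall
  unfold discrim at this
  nlinarith

/-- the norm with profile `G` -/
noncomputable def nG (G : ℝ → ℝ) (v : 𝕜 × 𝕜) : ℝ := Real.sqrt (PhiG G v)

lemma nG_sq (h : Nice G G' κ) (v : 𝕜 × 𝕜) : nG G v ^ 2 = PhiG G v := Real.sq_sqrt (PhiG_nonneg h v)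

lemma nG_nonneg (v : 𝕜 × 𝕜) : 0 ≤ nG G v := Real.sqrt_nonneg _

lemma norm_JG_le (h : Nice G G' κ) (v w : 𝕜 × 𝕜) : ‖JG G G' v w‖ ≤ nG G v * nG G w := by
  refine abs_le_of_sq_le_sq' ?_ (mul_nonneg (nG_nonneg _) (nG_nonneg _)) |>.2
  rw [mul_pow, nG_sq h, nG_sq h]
  exact norm_JG_sq_le h v w

lemma nG_add_le (h : Nice G G' κ) (v w : 𝕜 × 𝕜) : nG G (v + w) ≤ nG G v + nG G w := by
  have h1 : nG G (v + w) ^ 2 ≤ nG G (v + w) * (nG G v + nG G w) := by
    have e : nG G (v + w) ^ 2 = re (JG G G' (v + w) v) + re (JG G G' (v + w) w) := by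
      rw [nG_sq h, ← map_add, ← JG_add_right, JG_self, RCLike.ofReal_re]
    rw [e, mul_add]
    exact add_le_add ((RCLike.re_le_norm _).trans (norm_JG_le h _ _))
      ((RCLike.re_le_norm _).trans (norm_JG_le h _ _))
  rcases (nG_nonneg (G := G) (v + w)).lt_or_eq with h0 | h0
  · rw [sq] at h1
    exact le_of_mul_le_mul_left h1 h0
  · rw [← h0]
    exact add_nonneg (nG_nonneg _) (nG_nonneg _)

lemma nG_smul (α : 𝕜) (v : 𝕜 × 𝕜) : nG G (α • v) = ‖α‖ * nG G v := by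
  unfold nG
  rw [PhiG_smul, Real.sqrt_mul (by positivity), Real.sqrt_sq (norm_nonneg _)]

lemma nG_neg (v : 𝕜 × 𝕜) : nG G (-v) = nG G v := by
  unfold nG; rw [PhiG_neg]

lemma nG_zero : nG G (0 : 𝕜 × 𝕜) = 0 := by
  unfold nG; rw [PhiG_zero, Real.sqrt_zero]

lemma nG_eq_zero (h : Nice G G' κ) {v : 𝕜 × 𝕜} (hv : nG G v = 0) : v = 0 := by
  have h1 := nG_sq h v
  rw [hv] at h1
  have h2 := PhiG_lower h v
  have h3 := rr_nonneg v
  exact rr_eq_zero (by nlinarith)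

end Profile

section Concrete

/-- the oscillating function `cos x + sin 2x` -/
noncomputable def osc (x : ℝ) : ℝ := Real.cos x + Real.sin (2 * x)

/-- its derivative -/
noncomputable def osc' (x : ℝ) : ℝ := -Real.sin x + 2 * Real.cos (2 * x)

lemma abs_osc_le (x : ℝ) : |osc x| ≤ 2 := by
  unfold osc
  have h1 := Real.neg_one_le_cos x
  have h2 := Real.cos_le_one x
  have h3 := Real.neg_one_le_sin (2 * x)
  have h4 := Real.sin_le_one (2 * x)
  rw [abs_le]; constructor <;> linarith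

lemma abs_osc'_le (x : ℝ) : |osc' x| ≤ 3 := by
  unfold osc'
  have h1 := Real.neg_one_le_cos (2 * x)
  have h2 := Real.cos_le_one (2 * x)
  have h3 := Real.neg_one_le_sin x
  have h4 := Real.sin_le_one x
  rw [abs_le]; constructor <;> linarith

lemma osc_lip (x y : ℝ) : |osc x - osc y| ≤ 3 * |x - y| := by
  unfold osc
  have h1 := Real.abs_cos_sub_cos_le x y
  have h2 := Real.abs_sin_sub_sin_le (2 * x) (2 * y)
  have h3 : |2 * x - 2 * y| = 2 * |x - y| := by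
    rw [← mul_sub, abs_mul, abs_two]
  calc |Real.cos x + Real.sin (2 * x) - (Real.cos y + Real.sin (2 * y))|
      = |(Real.cos x - Real.cos y) + (Real.sin (2 * x) - Real.sin (2 * y))| := by ring_nf
    _ ≤ |Real.cos x - Real.cos y| + |Real.sin (2 * x) - Real.sin (2 * y)| := abs_add_le _ _
    _ ≤ _ := by linarith

lemma osc'_lip (x y : ℝ) : |osc' x - osc' y| ≤ 5 * |x - y| := by
  unfold osc'
  have h1 := Real.abs_sin_sub_sin_le x y
  have h2 := Real.abs_cos_sub_cos_le (2 * x) (2 * y)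
  have h3 : |2 * x - 2 * y| = 2 * |x - y| := by
    rw [← mul_sub, abs_mul, abs_two]
  calc |-Real.sin x + 2 * Real.cos (2 * x) - (-Real.sin y + 2 * Real.cos (2 * y))|
      = |(-(Real.sin x - Real.sin y)) + 2 * (Real.cos (2 * x) - Real.cos (2 * y))| := by ring_nf
    _ ≤ |(-(Real.sin x - Real.sin y))| + |2 * (Real.cos (2 * x) - Real.cos (2 * y))| :=
        abs_add_le _ _
    _ ≤ _ := by rw [abs_neg, abs_mul, abs_two]; linarith

lemma hasDerivAt_osc (x : ℝ) : HasDerivAt osc (osc' x) x := by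
  unfold osc osc'
  have h1 := Real.hasDerivAt_cos x
  have h2 := (Real.hasDerivAt_sin (2 * x)).comp x ((hasDerivAt_id x).const_mul 2)
  have h3 := h1.add h2
  refine (h3.congr_deriv ?_)
  ring

lemma osc_taylor (x y : ℝ) : |osc y - osc x - osc' x * (y - x)| ≤ 5 * (y - x) ^ 2 := by
  have h := Convex.norm_image_sub_le_of_norm_hasDerivWithin_le
    (f := fun z => osc z - osc' x * z) (f' := fun z => osc' z - osc' x) (C := 5 * |y - x|)
    (s := Set.uIcc x y) (x := x) (y := y) ?_ ?_ (convex_uIcc x y) Set.left_mem_uIcc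
    Set.right_mem_uIcc
  · rw [Real.norm_eq_abs, Real.norm_eq_abs] at h
    calc |osc y - osc x - osc' x * (y - x)| = |osc y - osc' x * y - (osc x - osc' x * x)| := by
          congr 1; ring
      _ ≤ 5 * |y - x| * |y - x| := h
      _ = 5 * (y - x) ^ 2 := by rw [mul_assoc, ← sq, sq_abs]
  · intro z _
    have := (hasDerivAt_osc z).sub ((hasDerivAt_id z).const_mul (osc' x))
    simp only [mul_one] at this
    exact this.hasDerivWithinAt
  · intro z hz
    rw [Real.norm_eq_abs]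
    refine (osc'_lip z x).trans ?_
    have : |z - x| ≤ |y - x| := Set.abs_sub_left_of_mem_uIcc hz
    gcongr

/-- the two numerical parameters -/
noncomputable def cc : ℝ := 1 / 2000
noncomputable def dd : ℝ := 1 / 10 ^ 8

/-- the `n`-th profile -/
noncomputable def Gn (n : ℕ) (s : ℝ) : ℝ :=
  cc * s ^ 2 + dd / ((n : ℝ) + 1) ^ 2 * osc (((n : ℝ) + 1) * s)

/-- its derivative -/
noncomputable def Gn' (n : ℕ) (s : ℝ) : ℝ :=
  2 * cc * s + dd / ((n : ℝ) + 1) * osc' (((n : ℝ) + 1) * s)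

lemma abs_Gn_osc_le (n : ℕ) (s : ℝ) :
    |dd / ((n : ℝ) + 1) ^ 2 * osc (((n : ℝ) + 1) * s)| ≤ 2 * dd := by
  have hd : 0 < dd := by unfold dd; norm_num
  rw [abs_mul]
  have h1 : |dd / ((n : ℝ) + 1) ^ 2| ≤ dd := by
    rw [abs_of_pos (by positivity)]
    refine div_le_self hd.le ?_
    have : (0 : ℝ) ≤ n := Nat.cast_nonneg n
    nlinarith
  have h2 := abs_osc_le (((n : ℝ) + 1) * s)
  calc |dd / ((n : ℝ) + 1) ^ 2| * |osc (((n : ℝ) + 1) * s)| ≤ dd * 2 := by gcongr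
    _ = 2 * dd := by ring

lemma abs_Gn'_osc_le (n : ℕ) (s : ℝ) :
    |dd / ((n : ℝ) + 1) * osc' (((n : ℝ) + 1) * s)| ≤ 3 * dd := by
  have hd : 0 < dd := by unfold dd; norm_num
  rw [abs_mul]
  have h1 : |dd / ((n : ℝ) + 1)| ≤ dd := by
    rw [abs_of_pos (by positivity)]
    refine div_le_self hd.le ?_
    have : (0 : ℝ) ≤ n := Nat.cast_nonneg n
    linarith
  have h2 := abs_osc'_le (((n : ℝ) + 1) * s)
  calc |dd / ((n : ℝ) + 1)| * |osc' (((n : ℝ) + 1) * s)| ≤ dd * 3 := by gcongr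
    _ = 3 * dd := by ring

lemma nice_Gn (n : ℕ) : Nice (Gn n) (Gn' n) (cc + 5 * dd) := by
  have hd : 0 < dd := by unfold dd; norm_num
  have hc : 0 < cc := by unfold cc; norm_num
  refine ⟨by positivity, ?_, ?_⟩
  · intro s s'
    set m : ℝ := (n : ℝ) + 1 with hm
    have hm0 : 0 < m := by positivity
    have e : Gn n s' - Gn n s - Gn' n s * (s' - s)
        = cc * (s' - s) ^ 2
          + dd / m ^ 2 * (osc (m * s') - osc (m * s) - osc' (m * s) * (m * s' - m * s)) := by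
      unfold Gn Gn'
      rw [← hm]
      field_simp
      ring
    rw [e]
    refine (abs_add_le _ _).trans ?_
    rw [abs_of_nonneg (show 0 ≤ cc * (s' - s) ^ 2 by positivity), abs_mul,
      abs_of_pos (show 0 < dd / m ^ 2 by positivity)]
    have h1 := osc_taylor (m * s) (m * s')
    calc cc * (s' - s) ^ 2
          + dd / m ^ 2 * |osc (m * s') - osc (m * s) - osc' (m * s) * (m * s' - m * s)|
        ≤ cc * (s' - s) ^ 2 + dd / m ^ 2 * (5 * (m * s' - m * s) ^ 2) := by gcongr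
      _ = (cc + 5 * dd) * (s' - s) ^ 2 := by field_simp
  · intro s hs
    have h1 := abs_Gn_osc_le n s
    have h2 := abs_Gn'_osc_le n s
    have h3 : |Gn n s| ≤ cc + 2 * dd := by
      unfold Gn
      refine (abs_add_le _ _).trans (add_le_add ?_ h1)
      rw [abs_mul, abs_of_pos hc, abs_of_nonneg (sq_nonneg s)]
      have : s ^ 2 ≤ 1 := by rw [← sq_abs]; nlinarith [abs_nonneg s]
      nlinarith
    have h4 : |Gn' n s| ≤ 2 * cc + 3 * dd := by
      unfold Gn'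
      refine (abs_add_le _ _).trans (add_le_add ?_ h2)
      rw [abs_mul, abs_of_pos (by positivity)]
      nlinarith
    have h5 : cc + 2 * dd + 2 * (2 * cc + 3 * dd) + 100 * (cc + 5 * dd) ≤ 1 / 10 := by
      unfold cc dd; norm_num
    linarith

end Concrete

end Pool.Agent.H15.BPB
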