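import Mathlib

/-!
# Numerical radius, the Bishop-Phelps-Bollobas property for it, and property (nu)

All notions are over a field `𝕜` with `RCLike 𝕜` (that is, the real or the complex numbers).
-/

set_option autoImplicit false

namespace Pool.Agent.H15.BPB

variable (𝕜 : Type*) [RCLike 𝕜] (X : Type*) [NormedAddCommGroup X] [NormedSpace 𝕜 X]

/-- The set `Π(X)` of all pairs `(x, f)` with `x` in the unit sphere of `X`, `f` in the unit sphere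
of the dual `X*` and `f x = 1`. -/
def PiSet : Set (X × (X →L[𝕜] 𝕜)) := {p | ‖p.1‖ = 1 ∧ ‖p.2‖ = 1 ∧ p.2 p.1 = 1}

/-- The numerical radius `ν(T) = sup {|f (T x)| : (x, f) ∈ Π(X)}` of a bounded operator `T`. -/
noncomputable def numRadius (T : X →L[𝕜] X) : ℝ :=
  sSup {r : ℝ | ∃ p ∈ PiSet 𝕜 X, r = ‖p.2 (T p.1)‖}

/-- `X` has the Bishop-Phelps-Bollobas property for the numerical radius (BPBp-nu). -/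
def HasBPBpNu : Prop :=
  ∀ ε : ℝ, 0 < ε → ∃ η : ℝ, 0 < η ∧ ∀ T : X →L[𝕜] X, numRadius 𝕜 X T = 1 →
    ∀ (x₀ : X) (f₀ : X →L[𝕜] 𝕜), (x₀, f₀) ∈ PiSet 𝕜 X → 1 - η < ‖f₀ (T x₀)‖ →
      ∃ (S : X →L[𝕜] X) (x₁ : X) (f₁ : X →L[𝕜] 𝕜), (x₁, f₁) ∈ PiSet 𝕜 X ∧
        numRadius 𝕜 X S = 1 ∧ ‖f₁ (S x₁)‖ = 1 ∧ ‖S - T‖ < ε ∧ ‖x₁ - x₀‖ < ε ∧ ‖f₁ - f₀‖ < ε

/-- `X` has property (nu): operators of norm one that attain their norm at `(x₀, f₀)` with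
`Re f₀ x₀` close to one are close to operators of norm one attaining their norm, hence their
numerical radius, at a nearby point of `Π(X)`. -/
def HasPropertyNu : Prop :=
  ∀ ε : ℝ, 0 < ε → ∃ η : ℝ, 0 < η ∧ ∀ (T : X →L[𝕜] X) (x₀ : X) (f₀ : X →L[𝕜] 𝕜),
    ‖T‖ = 1 → ‖x₀‖ = 1 → ‖f₀‖ = 1 → 1 - η < RCLike.re (f₀ x₀) → ‖f₀ (T x₀)‖ = 1 →
      ∃ (S : X →L[𝕜] X) (x₁ : X) (f₁ : X →L[𝕜] 𝕜), ‖S‖ = 1 ∧ ‖x₁‖ = 1 ∧ ‖f₁‖ = 1 ∧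
        ‖f₁ (S x₁)‖ = 1 ∧ f₁ x₁ = 1 ∧ ‖x₁ - x₀‖ < ε ∧ ‖f₁ - f₀‖ < ε ∧ ‖S - T‖ < ε

end Pool.Agent.H15.BPB
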