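import Pool.Agent.H15.BPB.Block

set_option autoImplicit false

namespace Pool.Agent.H15.BPB

open Filter Topology RCLike
open scoped ComplexConjugate

lemma cc_nonneg' : 0 ≤ cc := by unfold cc; norm_num
lemma cc_le' : cc ≤ 1 := by unfold cc; norm_num

section Real

/-- error of the local model -/
lemma model_err {r₀ q₀ α β s₀ m t c δ : ℝ} (hr1 : 81 / 100 ≤ r₀) (hr2 : r₀ ≤ 13 / 10)
    (hs : q₀ = s₀ * r₀) (hs1 : |s₀| ≤ 1) (hα2 : |α| ≤ 11 / 10)
    (hβ : |β| ≤ 1 / 10) (hm : 100 ≤ m) (ht : |t| ≤ 4 / m) (hc0 : 0 ≤ c) (hc1 : c ≤ 1)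
    (hδ0 : 0 ≤ δ) (hδ1 : δ ≤ 1) :
    |(r₀ + 2 * t * β + t ^ 2) * (1 + (c * ((q₀ + 2 * t * α) / (r₀ + 2 * t * β + t ^ 2)) ^ 2
        + δ / m ^ 2 * osc (m * ((q₀ + 2 * t * α) / (r₀ + 2 * t * β + t ^ 2)))))
      - ((r₀ + 2 * t * β + t ^ 2) + c * (s₀ ^ 2 * (r₀ + 2 * t * β + t ^ 2)
          + 2 * s₀ * (2 * t * (α - s₀ * β) - s₀ * t ^ 2) + 4 * (α - s₀ * β) ^ 2 * t ^ 2 / r₀)
        + δ / m ^ 2 * (r₀ * osc (m * s₀ + m * (2 * (α - s₀ * β) / r₀) * t)))| ≤ 1000 / m ^ 3 := by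
  have hm0 : 0 < m := by linarith
  have ht4 : |t| ≤ 4 / 100 := by
    refine ht.trans ?_
    rw [div_le_div_iff₀ hm0 (by norm_num)]
    linarith
  set A := α - s₀ * β with hA
  have hA1 : |A| ≤ 12 / 10 := by
    rw [hA]
    refine (abs_sub _ _).trans ?_
    rw [abs_mul]
    have : |s₀| * |β| ≤ 1 * (1 / 10) := by gcongr
    linarith
  set r := r₀ + 2 * t * β + t ^ 2 with hr
  have hr0pos : 0 < r₀ := by linarith
  have hrr : |r - r₀| ≤ 24 / 100 * |t| := by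
    have e : r - r₀ = t * (2 * β + t) := by rw [hr]; ring
    rw [e, abs_mul, mul_comm]
    have : |2 * β + t| ≤ 24 / 100 := by
      refine (abs_add_le _ _).trans ?_
      rw [abs_mul, abs_two]
      linarith
    gcongr
  have hrlow : 8 / 10 ≤ r := by
    have := (abs_le.mp hrr).1
    linarith
  have hrpos : 0 < r := by linarith
  have hinv : |1 / r - 1 / r₀| ≤ 38 / 100 * |t| := by
    have e : 1 / r - 1 / r₀ = (r₀ - r) * (1 / (r * r₀)) := by field_simp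
    rw [e, abs_mul, abs_sub_comm, abs_of_pos (show 0 < 1 / (r * r₀) by positivity)]
    have h1 : 1 / (r * r₀) ≤ 1 / (8 / 10 * (81 / 100)) := by gcongr
    calc |r - r₀| * (1 / (r * r₀)) ≤ (24 / 100 * |t|) * (1 / (8 / 10 * (81 / 100))) := by gcongr
      _ ≤ 38 / 100 * |t| := by
          have := abs_nonneg t
          nlinarith
  have hir : 1 / r ≤ 5 / 4 := by
    rw [div_le_div_iff₀ hrpos (by norm_num)]; linarith
  have hir0 : 0 < 1 / r := by positivity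
  set q := q₀ + 2 * t * α with hq
  have hqr : q = s₀ * r + t * (2 * A - s₀ * t) := by
    rw [hq, hr, hA, hs]; ring
  -- first error term
  have hE1 : |(2 * A - s₀ * t) ^ 2 * (1 / r) - 4 * A ^ 2 * (1 / r₀)| ≤ 9 * |t| := by
    have e : (2 * A - s₀ * t) ^ 2 * (1 / r) - 4 * A ^ 2 * (1 / r₀)
        = -(s₀ * t * (4 * A - s₀ * t)) * (1 / r) + 4 * A ^ 2 * (1 / r - 1 / r₀) := by ring
    rw [e]
    have hst : |s₀ * t| ≤ |t| := by
      rw [abs_mul]
      calc |s₀| * |t| ≤ 1 * |t| := by gcongr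
        _ = |t| := one_mul _
    have h1 : |-(s₀ * t * (4 * A - s₀ * t)) * (1 / r)| ≤ 5 * |t| * (5 / 4) := by
      rw [abs_mul, abs_neg, abs_mul, abs_of_pos hir0]
      have h2 : |4 * A - s₀ * t| ≤ 5 := by
        refine (abs_sub _ _).trans ?_
        rw [abs_mul, abs_of_pos (show (0 : ℝ) < 4 by norm_num)]
        linarith
      calc |s₀ * t| * |4 * A - s₀ * t| * (1 / r) ≤ |t| * 5 * (5 / 4) := by gcongr
        _ = _ := by ring
    have h3 : |4 * A ^ 2 * (1 / r - 1 / r₀)| ≤ 4 * (12 / 10) ^ 2 * (38 / 100 * |t|) := by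
      rw [abs_mul, abs_mul, abs_of_pos (show (0 : ℝ) < 4 by norm_num), abs_pow]
      gcongr
    refine (abs_add_le _ _).trans ?_
    have := abs_nonneg t
    linarith
  -- second error term
  have hE2 : |m * (q / r) - (m * s₀ + m * (2 * A / r₀) * t)| ≤ 22 / 10 * (m * t ^ 2) := by
    have e : m * (q / r) - (m * s₀ + m * (2 * A / r₀) * t)
        = m * t * (-(s₀ * t) * (1 / r) + 2 * A * (1 / r - 1 / r₀)) := by
      rw [hqr]; field_simp; ring
    rw [e, abs_mul, abs_mul, abs_of_pos hm0]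
    have h1 : |-(s₀ * t) * (1 / r) + 2 * A * (1 / r - 1 / r₀)| ≤ 22 / 10 * |t| := by
      refine (abs_add_le _ _).trans ?_
      have h2 : |-(s₀ * t) * (1 / r)| ≤ |t| * (5 / 4) := by
        rw [abs_mul, abs_neg, abs_mul, abs_of_pos hir0]
        calc |s₀| * |t| * (1 / r) ≤ 1 * |t| * (5 / 4) := by gcongr
          _ = _ := by ring
      have h3 : |2 * A * (1 / r - 1 / r₀)| ≤ 2 * (12 / 10) * (38 / 100 * |t|) := by
        rw [abs_mul, abs_mul, abs_two]; gcongr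
      have := abs_nonneg t
      linarith
    calc m * |t| * |-(s₀ * t) * (1 / r) + 2 * A * (1 / r - 1 / r₀)|
        ≤ m * |t| * (22 / 10 * |t|) := by gcongr
      _ = 22 / 10 * (m * (|t| * |t|)) := by ring
      _ = _ := by rw [abs_mul_abs_self]; ring
  have hosc := osc_lip (m * (q / r)) (m * s₀ + m * (2 * A / r₀) * t)
  have hE3 : |r * osc (m * (q / r)) - r₀ * osc (m * s₀ + m * (2 * A / r₀) * t)|
      ≤ 48 / 100 * |t| + 9 * (m * t ^ 2) := by
    have e : r * osc (m * (q / r)) - r₀ * osc (m * s₀ + m * (2 * A / r₀) * t)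
        = (r - r₀) * osc (m * (q / r))
          + r₀ * (osc (m * (q / r)) - osc (m * s₀ + m * (2 * A / r₀) * t)) := by ring
    rw [e]
    refine (abs_add_le _ _).trans ?_
    rw [abs_mul, abs_mul, abs_of_pos hr0pos]
    have h1 := abs_osc_le (m * (q / r))
    have h2 : |r - r₀| * |osc (m * (q / r))| ≤ (24 / 100 * |t|) * 2 := by gcongr
    have h3 : r₀ * |osc (m * (q / r)) - osc (m * s₀ + m * (2 * A / r₀) * t)|
        ≤ 13 / 10 * (3 * (22 / 10 * (m * t ^ 2))) := by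
      gcongr
      exact hosc.trans (by gcongr)
    have h4 : 0 ≤ m * t ^ 2 := by positivity
    linarith
  -- assemble
  have e : r * (1 + (c * (q / r) ^ 2 + δ / m ^ 2 * osc (m * (q / r))))
      - (r + c * (s₀ ^ 2 * r + 2 * s₀ * (2 * t * A - s₀ * t ^ 2) + 4 * A ^ 2 * t ^ 2 / r₀)
        + δ / m ^ 2 * (r₀ * osc (m * s₀ + m * (2 * A / r₀) * t)))
      = c * t ^ 2 * ((2 * A - s₀ * t) ^ 2 * (1 / r) - 4 * A ^ 2 * (1 / r₀))
        + δ / m ^ 2 * (r * osc (m * (q / r)) - r₀ * osc (m * s₀ + m * (2 * A / r₀) * t)) := by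
    have e1 : r * (q / r) ^ 2 = s₀ ^ 2 * r + 2 * s₀ * (t * (2 * A - s₀ * t))
        + t ^ 2 * ((2 * A - s₀ * t) ^ 2 * (1 / r)) := by
      rw [hqr]; field_simp; ring
    have e2 : r * (1 + (c * (q / r) ^ 2 + δ / m ^ 2 * osc (m * (q / r))))
        = r + c * (r * (q / r) ^ 2) + δ / m ^ 2 * (r * osc (m * (q / r))) := by ring
    rw [e2, e1]
    ring
  rw [e]
  refine (abs_add_le _ _).trans ?_
  have ht3 : t ^ 2 * |t| ≤ 64 / m ^ 3 := by
    calc t ^ 2 * |t| = |t| ^ 3 := by rw [← sq_abs]; ring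
      _ ≤ (4 / m) ^ 3 := by gcongr
      _ = 64 / m ^ 3 := by rw [div_pow]; norm_num
  have h1 : |c * t ^ 2 * ((2 * A - s₀ * t) ^ 2 * (1 / r) - 4 * A ^ 2 * (1 / r₀))|
      ≤ 9 * (64 / m ^ 3) := by
    rw [abs_mul, abs_of_nonneg (by positivity)]
    calc c * t ^ 2 * |(2 * A - s₀ * t) ^ 2 * (1 / r) - 4 * A ^ 2 * (1 / r₀)|
        ≤ 1 * t ^ 2 * (9 * |t|) := by gcongr
      _ = 9 * (t ^ 2 * |t|) := by ring
      _ ≤ _ := by gcongr
  have h2 : |δ / m ^ 2 * (r * osc (m * (q / r)) - r₀ * osc (m * s₀ + m * (2 * A / r₀) * t))|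
      ≤ 150 / m ^ 3 := by
    rw [abs_mul, abs_of_nonneg (by positivity)]
    have h3 : t ^ 2 ≤ (4 / m) ^ 2 := by rw [← sq_abs]; gcongr
    calc δ / m ^ 2 * |r * osc (m * (q / r)) - r₀ * osc (m * s₀ + m * (2 * A / r₀) * t)|
        ≤ 1 / m ^ 2 * (48 / 100 * (4 / m) + 9 * (m * (4 / m) ^ 2)) := by
          gcongr
          refine hE3.trans ?_
          gcongr
      _ = (48 / 100 * 4 + 9 * 16) / m ^ 3 := by field_simp; norm_num
      _ ≤ 150 / m ^ 3 := by gcongr; norm_num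
  calc _ ≤ 9 * (64 / m ^ 3) + 150 / m ^ 3 := add_le_add h1 h2
    _ = (9 * 64 + 150) / m ^ 3 := by ring
    _ ≤ 1000 / m ^ 3 := by gcongr; norm_num

/-- third difference -/
def D3 (f : ℝ → ℝ) (t : ℝ) : ℝ := f (2 * t) - f (-(2 * t)) - 2 * f t + 2 * f (-t)

lemma osc_third_pi_div_two (x : ℝ) :
    osc (x + 2 * (Real.pi / 2)) - osc (x + -(2 * (Real.pi / 2))) - 2 * osc (x + Real.pi / 2)
      + 2 * osc (x + -(Real.pi / 2)) = 4 * Real.sin x := by
  unfold osc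
  have e1 : x + 2 * (Real.pi / 2) = x + Real.pi := by ring
  have e2 : x + -(2 * (Real.pi / 2)) = x - Real.pi := by ring
  have e3 : 2 * (x + Real.pi) = 2 * x + 2 * Real.pi := by ring
  have e4 : 2 * (x - Real.pi) = 2 * x - 2 * Real.pi := by ring
  have e5 : 2 * (x + Real.pi / 2) = 2 * x + Real.pi := by ring
  have e6 : 2 * (x + -(Real.pi / 2)) = 2 * x - Real.pi := by ring
  have e7 : x + -(Real.pi / 2) = x - Real.pi / 2 := by ring
  rw [e1, e2, e3, e4, e5, e6, e7, Real.cos_add_pi, Real.cos_sub_pi, Real.sin_add_two_pi,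
    Real.sin_sub_two_pi, Real.sin_add_pi, Real.sin_sub_pi, Real.cos_add_pi_div_two,
    Real.cos_sub_pi_div_two]
  ring

lemma osc_third_pi_div_four (x : ℝ) :
    osc (x + 2 * (Real.pi / 4)) - osc (x + -(2 * (Real.pi / 4))) - 2 * osc (x + Real.pi / 4)
      + 2 * osc (x + -(Real.pi / 4)) = (2 * Real.sqrt 2 - 2) * Real.sin x
        - 4 * Real.cos (2 * x) := by
  unfold osc
  have e1 : x + 2 * (Real.pi / 4) = x + Real.pi / 2 := by ring
  have e2 : x + -(2 * (Real.pi / 4)) = x - Real.pi / 2 := by ring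
  have e3 : 2 * (x + Real.pi / 2) = 2 * x + Real.pi := by ring
  have e4 : 2 * (x - Real.pi / 2) = 2 * x - Real.pi := by ring
  have e5 : 2 * (x + Real.pi / 4) = 2 * x + Real.pi / 2 := by ring
  have e6 : 2 * (x + -(Real.pi / 4)) = 2 * x - Real.pi / 2 := by ring
  have e7 : x + -(Real.pi / 4) = x - Real.pi / 4 := by ring
  rw [e1, e2, e3, e4, e5, e6, e7, Real.cos_add_pi_div_two, Real.cos_sub_pi_div_two,
    Real.sin_add_pi, Real.sin_sub_pi, Real.sin_add_pi_div_two, Real.sin_sub_pi_div_two,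
    Real.cos_add, Real.cos_sub, Real.cos_pi_div_four, Real.sin_pi_div_four]
  ring

lemma osc_third_lower (x : ℝ) : ∃ θ : ℝ, 0 < θ ∧ θ ≤ 158 / 100 ∧
    1 ≤ |osc (x + 2 * θ) - osc (x + -(2 * θ)) - 2 * osc (x + θ) + 2 * osc (x + -θ)| := by
  have hpi := Real.pi_lt_d2
  have hpi0 := Real.pi_pos
  by_cases h : 1 / 4 ≤ |Real.sin x|
  · refine ⟨Real.pi / 2, by positivity, by linarith, ?_⟩
    rw [osc_third_pi_div_two, abs_mul, abs_of_pos (by norm_num : (0 : ℝ) < 4)]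
    linarith
  · push Not at h
    refine ⟨Real.pi / 4, by positivity, by linarith, ?_⟩
    rw [osc_third_pi_div_four]
    have h2 : Real.cos (2 * x) = 1 - 2 * Real.sin x ^ 2 := by
      rw [Real.cos_two_mul, Real.cos_sq']; ring
    have h3 : Real.sin x ^ 2 ≤ (1 / 4) ^ 2 := by rw [← sq_abs]; gcongr
    have h4 : Real.sqrt 2 ≤ 3 / 2 := by
      rw [Real.sqrt_le_left (by norm_num)]; norm_num
    have h5 : 1 ≤ Real.sqrt 2 := by
      rw [show (1 : ℝ) = Real.sqrt 1 by simp]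
      exact Real.sqrt_le_sqrt (by norm_num)
    have h6 := abs_lt.mp h
    have h7 : (2 * Real.sqrt 2 - 2) * Real.sin x ≤ 1 / 4 := by nlinarith
    rw [abs_sub_comm]
    refine le_trans ?_ (le_abs_self _)
    rw [h2]
    nlinarith

end Real

section Block

variable {𝕜 : Type*} [RCLike 𝕜]

/-- the quantitative failure of symmetry of the blocks, at scale `1 / n` -/
theorem third_lower : ∃ n₀ : ℕ, ∀ n : ℕ, n₀ ≤ n → ∀ a b : 𝕜, ‖a - 1‖ ≤ 1 / 10 → ‖b‖ ≤ 1 / 10 →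
    ∃ t : ℝ, 0 < t ∧
      dd / 4 * t ^ 2 ≤ |D3 (fun τ => PhiG (Gn n) ((a, b + (τ : 𝕜)) : 𝕜 × 𝕜)) t| := by
  have hd : 0 < dd := by unfold dd; norm_num
  obtain ⟨n₀, hn₀⟩ := exists_nat_ge (20000 / dd)
  refine ⟨n₀, fun n hn a b ha hb => ?_⟩
  set m : ℝ := (n : ℝ) + 1 with hm
  have hmd : 20000 / dd ≤ m := by
    have : (n₀ : ℝ) ≤ n := by exact_mod_cast hn
    linarith
  have hd1 : dd ≤ 1 := by unfold dd; norm_num
  have hm100 : 100 ≤ m := by
    refine le_trans ?_ hmd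
    rw [le_div_iff₀ hd]; linarith
  have hm0 : 0 < m := by linarith
  -- real parameters
  set r₀ := rr (a, b) with hr₀
  set q₀ := qq (a, b) with hq₀
  set α := re a with hα
  set β := re b with hβ
  have hα1 : |α - 1| ≤ 1 / 10 := by
    have : α - 1 = re (a - 1) := by rw [map_sub, RCLike.one_re]
    rw [this]; exact (abs_re_le_norm _).trans ha
  have hβ1 : |β| ≤ 1 / 10 := (abs_re_le_norm _).trans hb
  have hna : 9 / 10 ≤ ‖a‖ := by
    have := norm_sub_norm_le (1 : 𝕜) (1 - a)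
    rw [norm_one, sub_sub_cancel, norm_sub_rev] at this
    linarith
  have hna2 : ‖a‖ ≤ 11 / 10 := by
    have := norm_add_le (a - 1) 1
    rw [sub_add_cancel, norm_one] at this
    linarith
  have hr1 : 81 / 100 ≤ r₀ := by
    rw [hr₀]; unfold rr
    simp only
    nlinarith [sq_nonneg ‖b‖]
  have hr2 : r₀ ≤ 13 / 10 := by
    rw [hr₀]; unfold rr
    simp only
    have := norm_nonneg b
    nlinarith [norm_nonneg a]
  have hr0pos : 0 < r₀ := by linarith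
  set s₀ := q₀ / r₀ with hs₀
  have hs1 : |s₀| ≤ 1 := abs_ratio_le (a, b)
  have hs : q₀ = s₀ * r₀ := by rw [hs₀]; field_simp
  have hrt : ∀ τ : ℝ, rr ((a, b + (τ : 𝕜)) : 𝕜 × 𝕜) = r₀ + 2 * τ * β + τ ^ 2 := by
    intro τ
    rw [hr₀, hβ]; unfold rr
    simp only
    rw [norm_add_sq', RCLike.norm_ofReal, sq_abs, mul_comm (conj b), re_ofReal_mul, conj_re]
    ring
  have hqt : ∀ τ : ℝ, qq ((a, b + (τ : 𝕜)) : 𝕜 × 𝕜) = q₀ + 2 * τ * α := by
    intro τ
    rw [hq₀, hα]; unfold qq hqf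
    simp only [map_add, mul_add, add_mul, RCLike.conj_ofReal]
    rw [mul_comm (conj a) (τ : 𝕜), re_ofReal_mul, re_ofReal_mul, conj_re]
    ring
  set A := α - s₀ * β with hA
  have hAlow : 8 / 10 ≤ A := by
    have h1 := (abs_le.mp hα1).1
    have h2 : |s₀ * β| ≤ 1 / 10 := by
      rw [abs_mul]
      calc |s₀| * |β| ≤ 1 * (1 / 10) := by gcongr
        _ = 1 / 10 := one_mul _
    have h3 := (abs_le.mp h2).2
    rw [hA]; linarith
  have hρ : 0 < 2 * A / r₀ := by positivity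
  set ρ := 2 * A / r₀ with hρd
  have hρlow : 123 / 100 ≤ ρ := by
    rw [hρd, le_div_iff₀ hr0pos]; linarith
  obtain ⟨θ, hθ0, hθ1, hθ2⟩ := osc_third_lower (m * s₀)
  refine ⟨θ / (m * ρ), by positivity, ?_⟩
  set t := θ / (m * ρ) with ht
  have ht0 : 0 < t := by positivity
  have htb : t ≤ 13 / 10 / m := by
    rw [ht, div_le_div_iff₀ (by positivity) hm0]
    nlinarith
  -- the model
  set M : ℝ → ℝ := fun τ => (r₀ + 2 * τ * β + τ ^ 2)
        + cc * (s₀ ^ 2 * (r₀ + 2 * τ * β + τ ^ 2)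
          + 2 * s₀ * (2 * τ * A - s₀ * τ ^ 2) + 4 * A ^ 2 * τ ^ 2 / r₀)
        + dd / m ^ 2 * (r₀ * osc (m * s₀ + m * ρ * τ)) with hM
  have hα2 : |α| ≤ 11 / 10 := by
    have := abs_le.mp hα1
    rw [abs_le]; constructor <;> linarith
  have herr : ∀ τ : ℝ, |τ| ≤ 4 / m →
      |PhiG (Gn n) ((a, b + (τ : 𝕜)) : 𝕜 × 𝕜) - M τ| ≤ 1000 / m ^ 3 := by
    intro τ hτ
    have := model_err hr1 hr2 hs hs1 hα2 hβ1 hm100 hτ cc_nonneg' cc_le' hd.le hd1
    unfold PhiG Gn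
    rw [hrt, hqt, ← hm, hM]
    exact this
  have hD : D3 M t = dd / m ^ 2 * r₀ * (osc (m * s₀ + 2 * θ) - osc (m * s₀ + -(2 * θ))
      - 2 * osc (m * s₀ + θ) + 2 * osc (m * s₀ + -θ)) := by
    have e1 : m * ρ * t = θ := by rw [ht]; field_simp
    have e2 : m * ρ * (2 * t) = 2 * θ := by rw [← e1]; ring
    have e3 : m * ρ * (-(2 * t)) = -(2 * θ) := by rw [← e1]; ring
    have e4 : m * ρ * (-t) = -θ := by rw [← e1]; ring
    unfold D3
    rw [hM]
    simp only [e1, e2, e3, e4]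
    ring
  have habs : ∀ τ : ℝ, |τ| ≤ 2 * t → |τ| ≤ 4 / m := by
    intro τ hτ
    refine hτ.trans ?_
    calc 2 * t ≤ 2 * (13 / 10 / m) := by gcongr
      _ = 26 / 10 / m := by ring
      _ ≤ 4 / m := by gcongr; norm_num
  have a1 := herr (2 * t) (habs _ (by rw [abs_of_pos (by positivity)]))
  have a2 := herr (-(2 * t)) (habs _ (by rw [abs_neg, abs_of_pos (by positivity)]))
  have a3 := herr t (habs _ (by rw [abs_of_pos (by positivity)]; linarith))
  have a4 := herr (-t) (habs _ (by rw [abs_neg, abs_of_pos (by positivity)]; linarith))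
  have hdiff : |D3 (fun τ => PhiG (Gn n) ((a, b + (τ : 𝕜)) : 𝕜 × 𝕜)) t - D3 M t|
      ≤ 6 * (1000 / m ^ 3) := by
    unfold D3
    rw [abs_le] at *
    constructor <;> linarith [a1.1, a1.2, a2.1, a2.2, a3.1, a3.2, a4.1, a4.2]
  have hDlow : dd / m ^ 2 * (81 / 100) ≤ |D3 M t| := by
    rw [hD, abs_mul, abs_of_pos (by positivity)]
    calc dd / m ^ 2 * (81 / 100) ≤ dd / m ^ 2 * r₀ * 1 := by
          rw [mul_one]; gcongr
      _ ≤ _ := by gcongr
  have h6 : 6 * (1000 / m ^ 3) ≤ dd / m ^ 2 * (3 / 10) := by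
    rw [div_le_iff₀ hd] at hmd
    have e1 : 6 * (1000 / m ^ 3) = 6000 / m / m ^ 2 := by field_simp; norm_num
    have e2 : dd / m ^ 2 * (3 / 10) = (dd * (3 / 10)) / m ^ 2 := by ring
    rw [e1, e2]
    gcongr
    rw [div_le_iff₀ hm0]
    linarith
  have h7 : dd / 4 * t ^ 2 ≤ dd / m ^ 2 * (1 / 2) := by
    calc dd / 4 * t ^ 2 ≤ dd / 4 * (13 / 10 / m) ^ 2 := by gcongr
      _ = dd / m ^ 2 * (169 / 400) := by field_simp; norm_num
      _ ≤ dd / m ^ 2 * (1 / 2) := mul_le_mul_of_nonneg_left (by norm_num) (by positivity)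
  have h9 : 0 < dd / m ^ 2 := by positivity
  have h8 := abs_sub_abs_le_abs_sub (D3 M t)
    (D3 (fun τ => PhiG (Gn n) ((a, b + (τ : 𝕜)) : 𝕜 × 𝕜)) t)
  rw [abs_sub_comm] at hdiff
  linarith

end Block

end Pool.Agent.H15.BPB
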