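import Pool.Agent.H15.BPB.NumIndex
import Pool.Agent.H15.BPB.Third

set_option autoImplicit false

namespace Pool.Agent.H15.BPB

open Filter Topology RCLike
open scoped ComplexConjugate

section Convexity

variable {𝕜 : Type*} [RCLike 𝕜] {X : Type*} [NormedAddCommGroup X] [NormedSpace 𝕜 X]

/-- remainder of the squared norm at a point of the sphere -/
noncomputable def gf (x : X) (f : X →L[𝕜] 𝕜) (h : X) : ℝ := ‖x + h‖ ^ 2 - 1 - 2 * re (f h)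

lemma gf_nonneg {x : X} {f : X →L[𝕜] 𝕜} (hp : (x, f) ∈ PiSet 𝕜 X) (h : X) : 0 ≤ gf x f h := by
  obtain ⟨h1, h2, h3⟩ := hp
  simp only at h1 h2 h3
  have a1 : re (f (x + h)) ≤ ‖x + h‖ := by
    calc re (f (x + h)) ≤ ‖f (x + h)‖ := RCLike.re_le_norm _
      _ ≤ ‖f‖ * ‖x + h‖ := f.le_opNorm _
      _ = ‖x + h‖ := by rw [h2, one_mul]
  rw [map_add, map_add, h3, RCLike.one_re] at a1
  unfold gf
  nlinarith [sq_nonneg (‖x + h‖ - 1)]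

lemma gf_le {x : X} {f : X →L[𝕜] 𝕜} (hp : (x, f) ∈ PiSet 𝕜 X)
    (us : ∀ x y : X, ‖x + y‖ ^ 2 + ‖x - y‖ ^ 2 ≤ 2 * ‖x‖ ^ 2 + 2 * 2 * ‖y‖ ^ 2) (h : X) :
    gf x f h ≤ 4 * ‖h‖ ^ 2 := by
  have h1 := us x h
  have h2 := gf_nonneg hp (-h)
  have h3 : ‖x‖ = 1 := hp.1
  unfold gf at *
  rw [map_neg, map_neg, ← sub_eq_add_neg] at h2
  rw [h3] at h1
  linarith

lemma gf_convex {x : X} {f : X →L[𝕜] 𝕜} {θ : ℝ} (h0 : 0 ≤ θ) (h1 : θ ≤ 1) (a b : X) :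
    gf x f (((1 - θ : ℝ) : 𝕜) • a + ((θ : ℝ) : 𝕜) • b) ≤ (1 - θ) * gf x f a + θ * gf x f b := by
  unfold gf
  have e : x + (((1 - θ : ℝ) : 𝕜) • a + ((θ : ℝ) : 𝕜) • b)
      = ((1 - θ : ℝ) : 𝕜) • (x + a) + ((θ : ℝ) : 𝕜) • (x + b) := by
    rw [smul_add, smul_add]
    have : x = ((1 - θ : ℝ) : 𝕜) • x + ((θ : ℝ) : 𝕜) • x := by
      rw [← add_smul, ← RCLike.ofReal_add, sub_add_cancel, RCLike.ofReal_one, one_smul]
    conv_lhs => rw [this]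
    abel
  have h2 : ‖x + (((1 - θ : ℝ) : 𝕜) • a + ((θ : ℝ) : 𝕜) • b)‖
      ≤ (1 - θ) * ‖x + a‖ + θ * ‖x + b‖ := by
    rw [e]
    refine (norm_add_le _ _).trans (le_of_eq ?_)
    rw [norm_smul, norm_smul, RCLike.norm_ofReal, RCLike.norm_ofReal,
      abs_of_nonneg (by linarith : 0 ≤ 1 - θ), abs_of_nonneg h0]
  have h3 : ‖x + (((1 - θ : ℝ) : 𝕜) • a + ((θ : ℝ) : 𝕜) • b)‖ ^ 2
      ≤ (1 - θ) * ‖x + a‖ ^ 2 + θ * ‖x + b‖ ^ 2 := by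
    calc _ ≤ ((1 - θ) * ‖x + a‖ + θ * ‖x + b‖) ^ 2 := by gcongr
      _ ≤ _ := by nlinarith [mul_nonneg h0 (by linarith : 0 ≤ 1 - θ),
          mul_nonneg (mul_nonneg h0 (by linarith : 0 ≤ 1 - θ)) (sq_nonneg (‖x + a‖ - ‖x + b‖))]
  have h4 : re (f (((1 - θ : ℝ) : 𝕜) • a + ((θ : ℝ) : 𝕜) • b))
      = (1 - θ) * re (f a) + θ * re (f b) := by
    rw [map_add f, map_smul f, map_smul f, smul_eq_mul, smul_eq_mul, map_add, re_ofReal_mul,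
      re_ofReal_mul]
  rw [h4]
  linarith

lemma gf_perturb {x : X} {f : X →L[𝕜] 𝕜} (hp : (x, f) ∈ PiSet 𝕜 X)
    (us : ∀ x y : X, ‖x + y‖ ^ 2 + ‖x - y‖ ^ 2 ≤ 2 * ‖x‖ ^ 2 + 2 * 2 * ‖y‖ ^ 2)
    {θ : ℝ} (h0 : 0 < θ) (h1 : θ ≤ 1) {h k : X} (hk : ‖k‖ ≤ θ * ‖h‖) :
    gf x f h ≤ gf x f (h + k) + 16 * θ * ‖h‖ ^ 2 := by
  set h' : X := h - (((1 - θ) / θ : ℝ) : 𝕜) • k with hh'
  have e : h = ((1 - θ : ℝ) : 𝕜) • (h + k) + ((θ : ℝ) : 𝕜) • h' := by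
    rw [hh', smul_sub, smul_smul, ← RCLike.ofReal_mul, smul_add]
    have e1 : θ * ((1 - θ) / θ) = 1 - θ := by field_simp
    rw [e1]
    have : h = ((1 - θ : ℝ) : 𝕜) • h + ((θ : ℝ) : 𝕜) • h := by
      rw [← add_smul, ← RCLike.ofReal_add, sub_add_cancel, RCLike.ofReal_one, one_smul]
    conv_lhs => rw [this]
    abel
  have hn : ‖h'‖ ≤ 2 * ‖h‖ := by
    rw [hh']
    refine (norm_sub_le _ _).trans ?_
    rw [norm_smul, RCLike.norm_ofReal, abs_of_nonneg (div_nonneg (by linarith) h0.le)]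
    have : (1 - θ) / θ * ‖k‖ ≤ ‖h‖ := by
      calc (1 - θ) / θ * ‖k‖ ≤ 1 / θ * (θ * ‖h‖) := by
            gcongr
            linarith
        _ = ‖h‖ := by field_simp
    linarith
  have h2 := gf_convex (x := x) (f := f) h0.le h1 (h + k) h'
  rw [← e] at h2
  have h3 := gf_nonneg hp (h + k)
  have h4 := gf_le hp us h'
  have h5 : ‖h'‖ ^ 2 ≤ (2 * ‖h‖) ^ 2 := by gcongr
  have h6 : θ * gf x f h' ≤ θ * (4 * (2 * ‖h‖) ^ 2) := by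
    gcongr
    linarith
  have h7 : (1 - θ) * gf x f (h + k) ≤ gf x f (h + k) := by nlinarith
  calc gf x f h ≤ (1 - θ) * gf x f (h + k) + θ * gf x f h' := h2
    _ ≤ gf x f (h + k) + θ * (4 * (2 * ‖h‖) ^ 2) := add_le_add h7 h6
    _ = _ := by ring

/-- The key consequence: an almost reflection fixing `x` forces small third differences. -/
lemma third_small {x w : X} {f : X →L[𝕜] 𝕜} (hp : (x, f) ∈ PiSet 𝕜 X)
    (us : ∀ x y : X, ‖x + y‖ ^ 2 + ‖x - y‖ ^ 2 ≤ 2 * ‖x‖ ^ 2 + 2 * 2 * ‖y‖ ^ 2)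
    {S : X →L[𝕜] X} (hS : ‖S‖ ≤ 1) (hx : S x = x) {θ : ℝ} (h0 : 0 < θ) (h1 : θ ≤ 1)
    (hw : ‖S w + w‖ ≤ θ * ‖w‖) (t : ℝ) :
    |D3 (fun τ => ‖x + ((τ : ℝ) : 𝕜) • w‖ ^ 2) t| ≤ 96 * θ * (t ^ 2 * ‖w‖ ^ 2) := by
  have hxn : ‖x‖ = 1 := hp.1
  -- `f ∘ S = f`
  have hfS : f.comp S = f := by
    have h2 := us_dual (M := 2) (by norm_num) us hp (g := f.comp S) (by
      calc ‖f.comp S‖ ≤ ‖f‖ * ‖S‖ := ContinuousLinearMap.opNorm_comp_le _ _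
        _ ≤ 1 * 1 := by
            have : ‖f‖ = 1 := hp.2.1
            rw [this]; gcongr
        _ = 1 := one_mul _)
    have h3 : (f.comp S) x = 1 := by
      rw [ContinuousLinearMap.comp_apply, hx]; exact hp.2.2
    rw [h3, RCLike.one_re, sub_self, mul_zero] at h2
    have h4 : ‖f.comp S - f‖ = 0 := by nlinarith [norm_nonneg (f.comp S - f)]
    exact sub_eq_zero.mp (norm_eq_zero.mp h4)
  have hcon : ∀ h : X, gf x f (S h) ≤ gf x f h := by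
    intro h
    have e1 : x + S h = S (x + h) := by rw [map_add, hx]
    have e2 : f (S h) = f h := by
      rw [← ContinuousLinearMap.comp_apply, hfS]
    unfold gf
    rw [e1, e2]
    have : ‖S (x + h)‖ ≤ ‖x + h‖ := by
      calc ‖S (x + h)‖ ≤ ‖S‖ * ‖x + h‖ := S.le_opNorm _
        _ ≤ 1 * ‖x + h‖ := by gcongr
        _ = _ := one_mul _
    gcongr
  have hsym : ∀ τ : ℝ, gf x f (-((τ : 𝕜) • w)) ≤ gf x f ((τ : 𝕜) • w)
      + 16 * θ * (τ ^ 2 * ‖w‖ ^ 2) := by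
    intro τ
    have h2 := gf_perturb hp us h0 h1 (h := -((τ : 𝕜) • w)) (k := (τ : 𝕜) • (S w + w)) (by
      rw [norm_neg, norm_smul, norm_smul]
      calc ‖(τ : 𝕜)‖ * ‖S w + w‖ ≤ ‖(τ : 𝕜)‖ * (θ * ‖w‖) := by gcongr
        _ = _ := by ring)
    have e : -((τ : 𝕜) • w) + (τ : 𝕜) • (S w + w) = S ((τ : 𝕜) • w) := by
      rw [map_smul, smul_add]; abel
    rw [e] at h2
    have h3 := hcon ((τ : 𝕜) • w)
    have e2 : ‖-((τ : 𝕜) • w)‖ ^ 2 = τ ^ 2 * ‖w‖ ^ 2 := by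
      rw [norm_neg, norm_smul, RCLike.norm_ofReal, mul_pow, sq_abs]
    rw [e2] at h2
    linarith
  have hF : ∀ τ : ℝ, ‖x + ((τ : ℝ) : 𝕜) • w‖ ^ 2 = gf x f ((τ : 𝕜) • w) + 1 + 2 * (τ * re (f w)) := by
    intro τ
    unfold gf
    rw [map_smul, smul_eq_mul, re_ofReal_mul]; ring
  have hneg : ∀ τ : ℝ, ((-τ : ℝ) : 𝕜) • w = -((τ : 𝕜) • w) := by
    intro τ; rw [RCLike.ofReal_neg, neg_smul]
  have a1 := hsym t
  have a2 := hsym (-t)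
  have a3 := hsym (2 * t)
  have a4 := hsym (-(2 * t))
  rw [hneg, neg_neg] at a2 a4
  unfold D3
  simp only [hF]
  rw [hneg, hneg]
  rw [abs_le]
  constructor <;> nlinarith

end Convexity

section Reflection

lemma dd_pos : 0 < dd := by unfold dd; norm_num

lemma one_add_Gn_pos (n : ℕ) {s : ℝ} (hs : |s| ≤ 1) : 9 / 10 ≤ 1 + Gn n s := by
  have h1 := (nice_Gn n).small s hs
  have h2 := abs_nonneg (Gn' n s)
  have h3 := (nice_Gn n).κ_nonneg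
  have h4 := neg_abs_le (Gn n s)
  linarith

lemma continuous_Gn (n : ℕ) : Continuous (Gn n) := by
  unfold Gn osc
  fun_prop

lemma Gn_neg_sub (n : ℕ) (s : ℝ) : Gn n (-s) - Gn n s
    = -(2 * (dd / ((n : ℝ) + 1) ^ 2) * Real.sin (2 * (((n : ℝ) + 1) * s))) := by
  unfold Gn osc
  have e1 : ((n : ℝ) + 1) * -s = -(((n : ℝ) + 1) * s) := by ring
  have e2 : 2 * -(((n : ℝ) + 1) * s) = -(2 * (((n : ℝ) + 1) * s)) := by ring
  rw [e1, e2, Real.cos_neg, Real.sin_neg]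
  ring

/-- the extremal ratio for the reflection -/
lemma exists_ratio (n : ℕ) : ∃ s K : ℝ, |s| ≤ 1 / ((n : ℝ) + 1) ∧ 1 ≤ K ∧
    K ≤ 1 + 1 / ((n : ℝ) + 1) ∧ 1 + Gn n (-s) = K * (1 + Gn n s) ∧
    ∀ s' : ℝ, |s'| ≤ 1 → 1 + Gn n (-s') ≤ K * (1 + Gn n s') := by
  set m : ℝ := (n : ℝ) + 1 with hm
  have hm1 : 1 ≤ m := by
    have : (0 : ℝ) ≤ n := Nat.cast_nonneg n
    linarith
  have hm0 : 0 < m := by linarith
  have hd := dd_pos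
  have hc := cc_pos
  have hcont : ContinuousOn (fun s => (1 + Gn n (-s)) / (1 + Gn n s)) (Set.Icc (-1 : ℝ) 1) := by
    refine ContinuousOn.div ?_ ?_ ?_
    · exact (continuous_const.add ((continuous_Gn n).comp continuous_neg)).continuousOn
    · exact (continuous_const.add (continuous_Gn n)).continuousOn
    · intro s hs
      have := one_add_Gn_pos n (abs_le.mpr hs)
      linarith
  obtain ⟨s, hs, hmax⟩ := isCompact_Icc.exists_isMaxOn (Set.nonempty_Icc.mpr (by norm_num)) hcont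
  have hsa : |s| ≤ 1 := abs_le.mpr hs
  have hD := one_add_Gn_pos n hsa
  set K := (1 + Gn n (-s)) / (1 + Gn n s) with hK
  have hDpos : 0 < 1 + Gn n s := by linarith
  have hKeq : 1 + Gn n (-s) = K * (1 + Gn n s) := by
    rw [hK]; field_simp
  have hall : ∀ s' : ℝ, |s'| ≤ 1 → 1 + Gn n (-s') ≤ K * (1 + Gn n s') := by
    intro s' hs'
    have h1 := hmax (abs_le.mp hs')
    simp only [Set.mem_ofPred_eq] at h1
    have h2 := one_add_Gn_pos n hs'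
    rwa [div_le_iff₀ (by linarith)] at h1
  have hK1 : 1 ≤ K := by
    have h1 := hall 0 (by simp)
    rw [neg_zero] at h1
    have h2 := one_add_Gn_pos n (s := 0) (by simp)
    nlinarith
  -- the comparison point
  set s₁ : ℝ := -(Real.pi / 4 / m) with hs₁
  have hpi := Real.pi_pos
  have hpi4 := Real.pi_lt_d2
  have hs₁a : |s₁| ≤ 1 := by
    rw [hs₁, abs_neg, abs_of_pos (by positivity), div_le_one hm0]
    linarith
  have hsin : Real.sin (2 * (m * s₁)) = -1 := by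
    have : 2 * (m * s₁) = -(Real.pi / 2) := by rw [hs₁]; field_simp; norm_num
    rw [this, Real.sin_neg, Real.sin_pi_div_two]
  have hg1 := Gn_neg_sub n s₁
  rw [← hm, hsin] at hg1
  have hg := Gn_neg_sub n s
  rw [← hm] at hg
  have hu : 0 < dd / m ^ 2 := by positivity
  set u := dd / m ^ 2 with hud
  have hD1 := one_add_Gn_pos n hs₁a
  -- `K - 1 ≥ 2 u / D₁` and `(K - 1) D ≤ 2 u`
  have h3 : 2 * u ≤ (K - 1) * (1 + Gn n s₁) := by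
    have := hall s₁ hs₁a
    linarith
  have h4 : (K - 1) * (1 + Gn n s) ≤ 2 * u := by
    have h5 : (K - 1) * (1 + Gn n s) = Gn n (-s) - Gn n s := by
      linarith
    rw [h5, hg]
    have := Real.neg_one_le_sin (2 * (m * s))
    nlinarith
  have hK1' : 0 < K - 1 := by
    by_contra hcon
    push Not at hcon
    nlinarith
  have h5 : 1 + Gn n s ≤ 1 + Gn n s₁ := by
    have : (K - 1) * (1 + Gn n s) ≤ (K - 1) * (1 + Gn n s₁) := h4.trans h3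
    exact le_of_mul_le_mul_left this hK1'
  have h6 : cc * s ^ 2 ≤ cc * s₁ ^ 2 + 4 * u := by
    unfold Gn at h5
    rw [← hm, ← hud] at h5
    have a1 := (abs_le.mp (abs_osc_le (m * s))).1
    have a2 := (abs_le.mp (abs_osc_le (m * s₁))).2
    nlinarith
  have hsb : |s| ≤ 1 / m := by
    refine abs_le_of_sq_le_sq ?_ (by positivity)
    have e1 : s₁ ^ 2 = (Real.pi / 4) ^ 2 / m ^ 2 := by rw [hs₁]; field_simp
    have e2 : (1 / m) ^ 2 = 1 / m ^ 2 := by field_simp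
    have e3 : 4 * u = cc * ((4 * dd / cc) / m ^ 2) := by rw [hud]; field_simp
    rw [e2]
    rw [e1, e3, ← mul_add] at h6
    refine (le_of_mul_le_mul_left h6 hc).trans ?_
    rw [← add_div]
    gcongr
    have h7 : (Real.pi / 4) ^ 2 ≤ 8 / 10 := by nlinarith
    have h8 : 4 * dd / cc ≤ 2 / 10 := by
      unfold dd cc; norm_num
    linarith
  refine ⟨s, K, hsb, hK1, ?_, hKeq, hall⟩
  have h9 : K - 1 ≤ 3 * u := by nlinarith
  have h10 : 3 * u ≤ 1 / m := by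
    rw [hud, le_div_iff₀ hm0]
    have : 3 * (dd / m ^ 2) * m = 3 * dd / m := by field_simp
    rw [this, div_le_one hm0]
    unfold dd
    linarith
  linarith

variable {𝕜 : Type*} [RCLike 𝕜]

/-- the reflection `(a, b) ↦ (a, -b)` of a block -/
noncomputable def refl (n : ℕ) : Blk 𝕜 n →ₗ[𝕜] Blk 𝕜 n where
  toFun v := ofP 𝕜 n ((toP 𝕜 v).1, -(toP 𝕜 v).2)
  map_add' v w := by
    refine Prod.ext rfl ?_
    change -(v.2 + w.2) = -v.2 + -w.2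
    ring
  map_smul' α v := by
    refine Prod.ext rfl ?_
    change -(α * v.2) = α * -v.2
    ring

lemma rr_refl (v : 𝕜 × 𝕜) : rr (v.1, -v.2) = rr v := by unfold rr; simp

lemma qq_refl (v : 𝕜 × 𝕜) : qq (v.1, -v.2) = -qq v := by
  unfold qq hqf
  simp only [map_neg, mul_neg, neg_mul, map_add]
  ring

/-- the extremal vector -/
lemma exists_extremal (n : ℕ) : ∃ (b κ : ℝ), |b| ≤ 1 / ((n : ℝ) + 1) ∧ 0 < κ ∧ κ ≤ 1 ∧
    1 - κ ≤ 1 / ((n : ℝ) + 1) ∧ (∀ v : Blk 𝕜 n, κ * ‖refl n v‖ ≤ ‖v‖) ∧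
    (κ * ‖refl n (ofP 𝕜 n (1, (b : 𝕜)))‖ = ‖ofP 𝕜 n (1, (b : 𝕜))‖) := by
  obtain ⟨s, K, hs, hK1, hK2, hKeq, hall⟩ := exists_ratio n
  set m : ℝ := (n : ℝ) + 1 with hm
  have hm1 : 1 ≤ m := by
    have : (0 : ℝ) ≤ n := Nat.cast_nonneg n
    linarith
  have hm0 : 0 < m := by linarith
  have hs1 : |s| ≤ 1 := hs.trans (by rw [div_le_one hm0]; exact hm1)
  have hs2 : s ^ 2 ≤ 1 := by rw [← sq_abs]; nlinarith [abs_nonneg s]
  set w := Real.sqrt (1 - s ^ 2) with hw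
  have hw0 : 0 ≤ w := Real.sqrt_nonneg _
  have hw2 : w ^ 2 = 1 - s ^ 2 := Real.sq_sqrt (by linarith)
  set b := s / (1 + w) with hb
  have hb1 : |b| ≤ |s| := by
    rw [hb, abs_div, abs_of_pos (by linarith : 0 < 1 + w)]
    exact div_le_self (abs_nonneg s) (by linarith)
  have hratio : 2 * b = s * (1 + b ^ 2) := by
    rw [hb]
    have h0 : 1 + w ≠ 0 := by linarith
    field_simp
    linear_combination (-s) * hw2
  have hKpos : 0 < K := by linarith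
  have hsK : Real.sqrt K ^ 2 = K := Real.sq_sqrt hKpos.le
  have hsK1 : 1 ≤ Real.sqrt K := by
    rw [show (1 : ℝ) = Real.sqrt 1 by simp]
    exact Real.sqrt_le_sqrt hK1
  have hPhi : ∀ v : Blk 𝕜 n, ‖refl n v‖ ^ 2
      = rr (toP 𝕜 v) * (1 + Gn n (-(qq (toP 𝕜 v) / rr (toP 𝕜 v)))) := by
    intro v
    rw [blk_norm_sq]
    have : toP 𝕜 (refl n v) = ((toP 𝕜 v).1, -(toP 𝕜 v).2) := rfl
    rw [this, PhiG, rr_refl, qq_refl, neg_div]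
  have hPhi' : ∀ v : Blk 𝕜 n, ‖v‖ ^ 2
      = rr (toP 𝕜 v) * (1 + Gn n (qq (toP 𝕜 v) / rr (toP 𝕜 v))) := fun v => blk_norm_sq 𝕜 v
  refine ⟨b, (Real.sqrt K)⁻¹, hb1.trans hs, by positivity, inv_le_one_of_one_le₀ hsK1, ?_, ?_, ?_⟩
  · have h1 : 1 - (Real.sqrt K)⁻¹ = (Real.sqrt K - 1) / Real.sqrt K := by field_simp
    rw [h1]
    calc (Real.sqrt K - 1) / Real.sqrt K ≤ Real.sqrt K - 1 := div_le_self (by linarith) hsK1
      _ ≤ K - 1 := by nlinarith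
      _ ≤ 1 / m := by linarith
  · intro v
    have h1 := hall _ (abs_ratio_le (toP 𝕜 v))
    have h2 : ‖refl n v‖ ^ 2 ≤ (Real.sqrt K * ‖v‖) ^ 2 := by
      rw [mul_pow, hsK, hPhi, hPhi']
      have := rr_nonneg (toP 𝕜 v)
      nlinarith
    have h3 : ‖refl n v‖ ≤ Real.sqrt K * ‖v‖ :=
      (abs_le_of_sq_le_sq' h2 (by positivity)).2
    rw [inv_mul_le_iff₀ (by positivity)]
    exact h3
  · have hr : rr ((1 : 𝕜), (b : 𝕜)) = 1 + b ^ 2 := by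
      unfold rr; simp
    have hq : qq ((1 : 𝕜), (b : 𝕜)) = 2 * b := by
      unfold qq hqf
      simp only [map_one, one_mul, mul_one, RCLike.conj_ofReal, map_add, RCLike.ofReal_re]
      ring
    have hrat : qq (toP 𝕜 (ofP 𝕜 n (1, (b : 𝕜)))) / rr (toP 𝕜 (ofP 𝕜 n (1, (b : 𝕜)))) = s := by
      rw [toP_ofP, hr, hq, hratio]
      have : (0 : ℝ) < 1 + b ^ 2 := by positivity
      field_simp
    have h1 : ‖refl n (ofP 𝕜 n (1, (b : 𝕜)))‖ ^ 2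
        = (Real.sqrt K * ‖ofP 𝕜 n (1, (b : 𝕜))‖) ^ 2 := by
      rw [mul_pow, hsK, hPhi, hPhi', hrat, hKeq]; ring
    have h2 : ‖refl n (ofP 𝕜 n (1, (b : 𝕜)))‖ = Real.sqrt K * ‖ofP 𝕜 n (1, (b : 𝕜))‖ :=
      (sq_eq_sq₀ (norm_nonneg _) (by positivity)).mp h1
    rw [h2]
    field_simp

end Reflection

section Aux

lemma aux_low {N : ℝ} (h0 : 0 ≤ N) (h : 9 / 10 ≤ N ^ 2) : 9 / 10 ≤ N := by nlinarith
lemma aux_up {N : ℝ} (h0 : 0 ≤ N) (h : N ^ 2 ≤ 12 / 10) : N ≤ 11 / 10 := by nlinarith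
lemma aux_b {b : ℝ} (h : |b| ≤ 1 / 100) : b ^ 2 ≤ 1 / 10000 := by
  rw [← sq_abs]; nlinarith [abs_nonneg b]
lemma aux_phi {b P : ℝ} (h : 9 / 10 * (1 + b ^ 2) ≤ P) : 9 / 10 ≤ P := by
  nlinarith [sq_nonneg b]
lemma aux_k {κ y : ℝ} (h1 : 99 / 100 ≤ κ) (h2 : κ * y = 1) (h3 : 0 ≤ y) : y ≤ 12 / 10 := by
  nlinarith
lemma aux_sq {b y : ℝ} (h : y ≤ 11 / 10 * (4 * b ^ 2)) : y ≤ (215 / 100) ^ 2 * b ^ 2 := by
  nlinarith [sq_nonneg b]
lemma aux_num {y : ℝ} (h : 0 < y) : 10 / 9 * (215 / 100 * y) ≤ 24 / 10 * y := by nlinarith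
lemma aux_num2 {y : ℝ} (h : 0 < y) : 12 / 10 * y + 24 / 10 * y ≤ 4 * y := by nlinarith
lemma aux_zero {y : ℝ} (h0 : 0 ≤ y) (h : 1 ≤ 1 - 1 / 2 / 4 * y ^ 2) : y = 0 := by nlinarith
lemma aux_e {ε : ℝ} : 12 / 10 * (10 / 9 * ε ^ 2) ≤ (2 * ε) ^ 2 := by nlinarith [sq_nonneg ε]
lemma aux_l {x y c : ℝ} (h : x ^ 2 + y ^ 2 ≤ c) : x ^ 2 ≤ c := by nlinarith [sq_nonneg y]
lemma aux_r {x y c : ℝ} (h : x ^ 2 + y ^ 2 ≤ c) : y ^ 2 ≤ c := by nlinarith [sq_nonneg x]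

end Aux

section Main

variable {𝕜 : Type*} [RCLike 𝕜]

lemma norm_add_single_sq (x : XX 𝕜) (n : ℕ) (v : Blk 𝕜 n) :
    ‖x + lp.single (E := fun n => Blk 𝕜 n) 2 n v‖ ^ 2
      = (‖x‖ ^ 2 - ‖x n‖ ^ 2) + ‖x n + v‖ ^ 2 := by
  have h2 : ∀ y : ℝ, y ^ (ENNReal.toReal 2) = y ^ 2 := by
    intro y; simp
  have e1 := lp.norm_sub_norm_compl_sub_single (E := fun n => Blk 𝕜 n) (p := 2) (by norm_num)
    x {n}
  have e2 := lp.norm_sub_norm_compl_sub_single (E := fun n => Blk 𝕜 n) (p := 2) (by norm_num)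
    (x + lp.single (E := fun n => Blk 𝕜 n) 2 n v) {n}
  simp only [h2, Finset.sum_singleton] at e1 e2
  have e3 : (x + lp.single (E := fun n => Blk 𝕜 n) 2 n v) n = x n + v := by
    rw [lp.coeFn_add, Pi.add_apply, lp.single_apply_self]
  have e4 : x + lp.single (E := fun n => Blk 𝕜 n) 2 n v
      - lp.single (E := fun n => Blk 𝕜 n) 2 n ((x + lp.single (E := fun n => Blk 𝕜 n) 2 n v) n)
      = x - lp.single (E := fun n => Blk 𝕜 n) 2 n (x n) := by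
    rw [e3, lp.single_add]; abel
  rw [e4] at e2
  rw [e3] at e2
  linarith

lemma D3_add_const (f : ℝ → ℝ) (c t : ℝ) : D3 (fun τ => c + f τ) t = D3 f t := by
  unfold D3; ring

/-- The space `XX 𝕜` fails property (nu). -/
theorem not_hasPropertyNu : ¬ HasPropertyNu 𝕜 (XX 𝕜) := by
  intro hnu
  have hd := dd_pos
  obtain ⟨n₀, hn₀⟩ := third_lower (𝕜 := 𝕜)
  set ε : ℝ := dd / 10 ^ 4 with hε
  have hεpos : 0 < ε := by positivity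
  have hεsmall : ε ≤ 1 / 1000 := by
    rw [hε]; unfold dd; norm_num
  obtain ⟨η, hη, H⟩ := hnu ε hεpos
  obtain ⟨n₁, hn₁⟩ := exists_nat_gt (5 / η + 1 / ε + 100)
  set n := max n₀ n₁ with hn
  have hn0 : n₀ ≤ n := le_max_left _ _
  have hn1 : (n₁ : ℝ) ≤ n := by exact_mod_cast le_max_right _ _
  obtain ⟨b, κ, hb, hκ0, hκ1, hκ2, hκle, hκeq⟩ := exists_extremal (𝕜 := 𝕜) n
  set m : ℝ := (n : ℝ) + 1 with hm
  have h5η : 0 < 5 / η := by positivity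
  have h1ε : 0 < 1 / ε := by positivity
  have hm0 : 0 < m := by linarith
  have hmη : 5 / m < η := by
    rw [div_lt_iff₀ hm0]
    have : 5 / η < m := by linarith
    rw [div_lt_iff₀ hη] at this
    linarith
  have hmε : 1 / m ≤ ε := by
    rw [div_le_iff₀ hm0]
    have : 1 / ε < m := by linarith
    rw [div_lt_iff₀ hεpos] at this
    linarith
  have hm100 : 1 / m ≤ 1 / 100 := by
    rw [div_le_div_iff₀ hm0 (by norm_num)]
    linarith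
  -- the data `T`, `x₀`, `f₀`
  let sg : Blk 𝕜 n →L[𝕜] XX 𝕜 := lp.singleContinuousLinearMap 𝕜 (fun n => Blk 𝕜 n) 2 n
  let ev : XX 𝕜 →L[𝕜] Blk 𝕜 n := lp.evalCLM 𝕜 (fun n => Blk 𝕜 n) 2 n
  let Rc : Blk 𝕜 n →L[𝕜] Blk 𝕜 n := LinearMap.toContinuousLinearMap (refl n)
  have hRc : ∀ v, Rc v = refl n v := fun v => rfl
  let T : XX 𝕜 →L[𝕜] XX 𝕜 := (κ : 𝕜) • (sg.comp (Rc.comp ev))
  have hsg : ∀ v : Blk 𝕜 n, ‖sg v‖ = ‖v‖ := fun v =>
    lp.norm_single (E := fun n => Blk 𝕜 n) (by norm_num) n v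
  have hev : ∀ x : XX 𝕜, ‖ev x‖ ≤ ‖x‖ := fun x => lp.norm_apply_le_norm (by norm_num) x n
  have hTapp : ∀ x : XX 𝕜, T x = (κ : 𝕜) • sg (refl n (ev x)) := fun x => rfl
  have hevsg : ∀ v : Blk 𝕜 n, ev (sg v) = v := fun v =>
    lp.single_apply_self (E := fun n => Blk 𝕜 n) 2 n v
  have hTnorm : ∀ x : XX 𝕜, ‖T x‖ = κ * ‖refl n (ev x)‖ := by
    intro x
    rw [hTapp, norm_smul, RCLike.norm_ofReal, abs_of_pos hκ0, hsg]
  have hTle : ∀ x : XX 𝕜, ‖T x‖ ≤ ‖x‖ := fun x => by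
    rw [hTnorm]; exact (hκle _).trans (hev x)
  set v : Blk 𝕜 n := ofP 𝕜 n (1, (b : 𝕜)) with hv
  have hbm : |b| ≤ 1 / 100 := hb.trans hm100
  have hb2 : b ^ 2 ≤ 1 / 10000 := aux_b hbm
  have hrv : rr ((1 : 𝕜), (b : 𝕜)) = 1 + b ^ 2 := by unfold rr; simp
  have hv2l : 9 / 10 ≤ ‖v‖ ^ 2 := by
    have := PhiG_lower (nice_Gn n) ((1 : 𝕜), (b : 𝕜))
    rw [blk_norm_sq, hv, toP_ofP]
    rw [hrv] at this
    exact aux_phi this
  have hv2u : ‖v‖ ^ 2 ≤ 12 / 10 := by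
    have := norm_sq_le_rr v
    rw [hv, toP_ofP, hrv] at this
    linarith
  set N := ‖v‖ with hN
  have hN0 : 0 ≤ N := norm_nonneg _
  have hNl : 9 / 10 ≤ N := aux_low hN0 hv2l
  have hNu : N ≤ 11 / 10 := aux_up hN0 hv2u
  have hNpos : 0 < N := by linarith
  set u₀ : Blk 𝕜 n := ((N⁻¹ : ℝ) : 𝕜) • v with hu₀
  have hu₀n : ‖u₀‖ = 1 := by
    rw [hu₀, norm_smul, RCLike.norm_ofReal, abs_of_pos (by positivity), ← hN]
    field_simp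
  have hRu₀ : κ * ‖refl n u₀‖ = 1 := by
    rw [hu₀, map_smul, norm_smul, RCLike.norm_ofReal, abs_of_pos (by positivity)]
    calc κ * (N⁻¹ * ‖refl n v‖) = N⁻¹ * (κ * ‖refl n v‖) := by ring
      _ = 1 := by rw [hκeq]; field_simp
  set x₀ : XX 𝕜 := sg u₀ with hx₀
  have hx₀n : ‖x₀‖ = 1 := by rw [hx₀, hsg, hu₀n]
  have hTx₀ : ‖T x₀‖ = 1 := by rw [hTnorm, hx₀, hevsg, hRu₀]
  have hT1 : ‖T‖ = 1 := by
    apply le_antisymm
    · exact ContinuousLinearMap.opNorm_le_bound _ zero_le_one fun x => by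
        rw [one_mul]; exact hTle x
    · have := T.le_opNorm x₀
      rw [hTx₀, hx₀n, mul_one] at this
      exact this
  obtain ⟨f₀, hf₀, hf₀T⟩ := exists_dual_vector 𝕜 (T x₀) (by rw [hTx₀]; norm_num)
  rw [hTx₀, RCLike.ofReal_one] at hf₀T
  -- `T x₀` is close to `x₀`
  have hclose : ‖T x₀ - x₀‖ ≤ 4 / m := by
    have e : T x₀ - x₀ = sg ((κ : 𝕜) • refl n u₀ - u₀) := by
      rw [hTapp, map_sub, map_smul, hx₀, hevsg]
    rw [e, hsg]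
    have e2 : (κ : 𝕜) • refl n u₀ - u₀ = (((κ - 1 : ℝ)) : 𝕜) • refl n u₀ + (refl n u₀ - u₀) := by
      rw [RCLike.ofReal_sub, sub_smul, RCLike.ofReal_one, one_smul]; abel
    rw [e2]
    have t1 : ‖(((κ - 1 : ℝ)) : 𝕜) • refl n u₀‖ ≤ 12 / 10 * (1 / m) := by
      rw [norm_smul, RCLike.norm_ofReal, abs_sub_comm, abs_of_nonneg (by linarith)]
      have hκl : 99 / 100 ≤ κ := by linarith
      have : ‖refl n u₀‖ ≤ 12 / 10 := aux_k hκl hRu₀ (norm_nonneg _)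
      calc (1 - κ) * ‖refl n u₀‖ ≤ 1 / m * (12 / 10) := by gcongr
        _ = _ := by ring
    have t2 : ‖refl n u₀ - u₀‖ ≤ 24 / 10 * (1 / m) := by
      have e3 : refl n u₀ - u₀ = ((N⁻¹ : ℝ) : 𝕜) • ofP 𝕜 n (0, -(2 * (b : 𝕜))) := by
        rw [hu₀, map_smul, ← smul_sub]
        congr 1
        refine Prod.ext ?_ ?_
        · change (1 : 𝕜) - 1 = 0
          ring
        · change -(b : 𝕜) - b = -(2 * (b : 𝕜))
          ring
      rw [e3, norm_smul, RCLike.norm_ofReal, abs_of_pos (by positivity)]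
      have h1 : ‖ofP 𝕜 n ((0 : 𝕜), -(2 * (b : 𝕜)))‖ ≤ 215 / 100 * |b| := by
        have h2 := norm_sq_le_rr (ofP 𝕜 n ((0 : 𝕜), -(2 * (b : 𝕜))))
        have h3 : rr ((0 : 𝕜), -(2 * (b : 𝕜))) = 4 * b ^ 2 := by
          unfold rr
          simp only [norm_neg, norm_mul, RCLike.norm_ofNat, RCLike.norm_ofReal, norm_zero,
            mul_pow, sq_abs]
          ring
        rw [toP_ofP, h3] at h2
        refine (abs_le_of_sq_le_sq' ?_ (by positivity)).2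
        rw [mul_pow, sq_abs]
        exact aux_sq h2
      have hNi : N⁻¹ ≤ 10 / 9 := by
        rw [inv_le_comm₀ hNpos (by norm_num)]
        linarith
      calc N⁻¹ * ‖ofP 𝕜 n ((0 : 𝕜), -(2 * (b : 𝕜)))‖ ≤ 10 / 9 * (215 / 100 * (1 / m)) := by
            gcongr
            exact h1.trans (by gcongr)
        _ ≤ 24 / 10 * (1 / m) := aux_num (by positivity)
    have h0 : 0 < 1 / m := by positivity
    calc _ ≤ 12 / 10 * (1 / m) + 24 / 10 * (1 / m) := (norm_add_le _ _).trans (add_le_add t1 t2)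
      _ ≤ 4 * (1 / m) := aux_num2 h0
      _ = 4 / m := by ring
  have hre : 1 - η < re (f₀ x₀) := by
    have e : f₀ x₀ = 1 - f₀ (T x₀ - x₀) := by rw [map_sub, hf₀T]; ring
    have h1 : re (f₀ (T x₀ - x₀)) ≤ 4 / m := by
      calc re (f₀ (T x₀ - x₀)) ≤ ‖f₀ (T x₀ - x₀)‖ := RCLike.re_le_norm _
        _ ≤ ‖f₀‖ * ‖T x₀ - x₀‖ := f₀.le_opNorm _
        _ ≤ 4 / m := by rw [hf₀, one_mul]; exact hclose
    rw [e, map_sub, RCLike.one_re]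
    have : 4 / m < 5 / m := by gcongr; norm_num
    linarith
  obtain ⟨S, x₁, f₁, hS, hx₁, hf₁, hSatt, hfx, hxx, hff, hST⟩ :=
    H T x₀ f₀ hT1 hx₀n hf₀ hre (by rw [hf₀T, norm_one])
  have hmem : (x₁, f₁) ∈ PiSet 𝕜 (XX 𝕜) := ⟨hx₁, hf₁, hfx⟩
  -- the scalar `λ`
  set z := f₁ (S x₁) with hz
  have hz1 : ‖z - 1‖ ≤ 3 * ε := by
    have e : z - 1 = (f₁ - f₀) (S x₁) + f₀ ((S - T) x₁) + f₀ (T (x₁ - x₀)) := by
      rw [hz, sub_apply, sub_apply, map_sub f₀, map_sub T, map_sub f₀, hf₀T]; ring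
    rw [e]
    have a1 : ‖(f₁ - f₀) (S x₁)‖ ≤ ε := by
      calc _ ≤ ‖f₁ - f₀‖ * ‖S x₁‖ := (f₁ - f₀).le_opNorm _
        _ ≤ ‖f₁ - f₀‖ * (‖S‖ * ‖x₁‖) := by gcongr; exact S.le_opNorm _
        _ = ‖f₁ - f₀‖ := by rw [hS, hx₁]; ring
        _ ≤ ε := hff.le
    have a2 : ‖f₀ ((S - T) x₁)‖ ≤ ε := by
      calc _ ≤ ‖f₀‖ * ‖(S - T) x₁‖ := f₀.le_opNorm _
        _ ≤ ‖f₀‖ * (‖S - T‖ * ‖x₁‖) := by gcongr; exact (S - T).le_opNorm _
        _ = ‖S - T‖ := by rw [hf₀, hx₁]; ring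
        _ ≤ ε := hST.le
    have a3 : ‖f₀ (T (x₁ - x₀))‖ ≤ ε := by
      calc _ ≤ ‖f₀‖ * ‖T (x₁ - x₀)‖ := f₀.le_opNorm _
        _ ≤ ‖f₀‖ * (‖T‖ * ‖x₁ - x₀‖) := by gcongr; exact T.le_opNorm _
        _ = ‖x₁ - x₀‖ := by rw [hf₀, hT1]; ring
        _ ≤ ε := hxx.le
    refine (norm_add_le _ _).trans ?_
    have := norm_add_le ((f₁ - f₀) (S x₁)) (f₀ ((S - T) x₁))
    linarith
  -- the rotated operator
  set S' : XX 𝕜 →L[𝕜] XX 𝕜 := (conj z) • S with hS'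
  have hS'n : ‖S'‖ = 1 := by
    rw [hS', norm_smul, RCLike.norm_conj, hSatt, hS, one_mul]
  have hS'T : ‖S' - T‖ ≤ 4 * ε := by
    have e : S' - T = (conj z - 1) • S + (S - T) := by
      rw [hS', sub_smul, one_smul]; abel
    rw [e]
    refine (norm_add_le _ _).trans ?_
    have : ‖conj z - 1‖ = ‖z - 1‖ := by
      rw [← RCLike.norm_conj (z - 1), map_sub, map_one]
    rw [norm_smul, this, hS]
    linarith
  have hS'att : f₁ (S' x₁) = 1 := by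
    rw [hS', smul_apply, map_smul, smul_eq_mul, ← hz, RCLike.conj_mul, hSatt]
    simp
  have hfix : S' x₁ = x₁ := by
    have h1 := uc_dual (m := 1 / 2) XX_uc hmem (y := S' x₁) (by
      calc ‖S' x₁‖ ≤ ‖S'‖ * ‖x₁‖ := S'.le_opNorm _
        _ = 1 := by rw [hS'n, hx₁, one_mul]
        _ ≤ 1 := le_rfl)
    rw [hS'att, RCLike.one_re] at h1
    have h2 : ‖x₁ - S' x₁‖ = 0 := aux_zero (norm_nonneg _) h1
    exact (sub_eq_zero.mp (norm_eq_zero.mp h2)).symm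
  -- the direction `w`
  set w : XX 𝕜 := sg (ofP 𝕜 n (0, 1)) with hw
  have hrw : rr ((0 : 𝕜), (1 : 𝕜)) = 1 := by unfold rr; simp
  have hw2 : ‖w‖ ^ 2 ≤ 11 / 10 := by
    rw [hw, hsg]
    have := norm_sq_le_rr (ofP 𝕜 n ((0 : 𝕜), (1 : 𝕜)))
    rw [toP_ofP, hrw] at this
    linarith
  have hTw : T w = -((κ : 𝕜) • w) := by
    rw [hTapp, hw, hevsg]
    have : refl n (ofP 𝕜 n ((0 : 𝕜), (1 : 𝕜))) = -ofP 𝕜 n ((0 : 𝕜), (1 : 𝕜)) := by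
      refine Prod.ext ?_ ?_
      · change (0 : 𝕜) = -0
        simp
      · rfl
    rw [this, map_neg, smul_neg]
  have hSw : ‖S' w + w‖ ≤ (5 * ε) * ‖w‖ := by
    have e : S' w + w = (S' - T) w + (((1 - κ : ℝ)) : 𝕜) • w := by
      rw [sub_apply, hTw, RCLike.ofReal_sub, sub_smul, RCLike.ofReal_one, one_smul]; abel
    rw [e]
    refine (norm_add_le _ _).trans ?_
    have a1 : ‖(S' - T) w‖ ≤ 4 * ε * ‖w‖ := by
      calc _ ≤ ‖S' - T‖ * ‖w‖ := (S' - T).le_opNorm _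
        _ ≤ _ := by gcongr
    have a2 : ‖(((1 - κ : ℝ)) : 𝕜) • w‖ ≤ ε * ‖w‖ := by
      rw [norm_smul, RCLike.norm_ofReal, abs_of_nonneg (by linarith)]
      gcongr
      linarith
    linarith
  have hthird := fun t : ℝ => third_small hmem XX_us hS'n.le hfix (θ := 5 * ε) (by positivity)
    (by linarith) hSw t
  -- localisation to the block
  set a' : 𝕜 := (toP 𝕜 (x₁ n)).1 with ha'
  set b' : 𝕜 := (toP 𝕜 (x₁ n)).2 with hb'
  have hD3 : ∀ t : ℝ, D3 (fun τ => ‖x₁ + ((τ : ℝ) : 𝕜) • w‖ ^ 2) t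
      = D3 (fun τ => PhiG (Gn n) ((a', b' + (τ : 𝕜)) : 𝕜 × 𝕜)) t := by
    intro t
    have e : (fun τ : ℝ => ‖x₁ + ((τ : ℝ) : 𝕜) • w‖ ^ 2)
        = fun τ : ℝ => (‖x₁‖ ^ 2 - ‖x₁ n‖ ^ 2) + PhiG (Gn n) ((a', b' + (τ : 𝕜)) : 𝕜 × 𝕜) := by
      funext τ
      have e1 : ((τ : ℝ) : 𝕜) • w = lp.single (E := fun n => Blk 𝕜 n) 2 n
          (ofP 𝕜 n (0, (τ : 𝕜))) := by
        have e2 : ((τ : ℝ) : 𝕜) • ofP 𝕜 n ((0 : 𝕜), (1 : 𝕜)) = ofP 𝕜 n ((0 : 𝕜), (τ : 𝕜)) := by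
          refine Prod.ext ?_ ?_
          · change (τ : 𝕜) * 0 = 0
            simp
          · change (τ : 𝕜) * 1 = τ
            simp
        rw [hw, ← map_smul, e2]
        rfl
      rw [e1, norm_add_single_sq, blk_norm_sq 𝕜 (x₁ n + ofP 𝕜 n (0, (τ : 𝕜)))]
      congr 2
      refine Prod.ext ?_ ?_
      · change (toP 𝕜 (x₁ n)).1 + 0 = a'
        rw [add_zero]
      · rfl
    rw [e, D3_add_const]
  -- closeness of the block component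
  have hclose2 : rr ((a' - (N⁻¹ : ℝ) * 1, b' - (N⁻¹ : ℝ) * (b : 𝕜)) : 𝕜 × 𝕜) ≤ 10 / 9 * ε ^ 2 := by
    have h1 : ‖x₁ n - u₀‖ ≤ ε := by
      have h2 := hev (x₁ - x₀)
      have h3 : ev (x₁ - x₀) = x₁ n - u₀ := by
        rw [map_sub, hx₀, hevsg]; rfl
      rw [h3] at h2
      exact h2.trans hxx.le
    have h4 := rr_le_norm_sq (x₁ n - u₀)
    have h5 : ‖x₁ n - u₀‖ ^ 2 ≤ ε ^ 2 := by gcongr
    have h6 : toP 𝕜 (x₁ n - u₀)
        = ((a' - (N⁻¹ : ℝ) * 1, b' - (N⁻¹ : ℝ) * (b : 𝕜)) : 𝕜 × 𝕜) := rfl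
    rw [h6] at h4
    linarith
  set a : 𝕜 := (N : 𝕜) * a' with ha
  set bb : 𝕜 := (N : 𝕜) * b' with hbb
  have hNN : (N : 𝕜) * ((N⁻¹ : ℝ) : 𝕜) = 1 := by
    rw [← RCLike.ofReal_mul, mul_inv_cancel₀ hNpos.ne', RCLike.ofReal_one]
  have hcl3 : ‖a - 1‖ ^ 2 + ‖bb - b‖ ^ 2 ≤ (2 * ε) ^ 2 := by
    have e1 : a - 1 = (N : 𝕜) * (a' - (N⁻¹ : ℝ) * 1) := by
      rw [ha, mul_sub, mul_one, hNN]
    have e2 : bb - (b : 𝕜) = (N : 𝕜) * (b' - (N⁻¹ : ℝ) * (b : 𝕜)) := by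
      rw [hbb, mul_sub, ← mul_assoc, hNN, one_mul]
    rw [e1, e2, norm_mul, norm_mul, RCLike.norm_ofReal, abs_of_pos hNpos]
    unfold rr at hclose2
    simp only at hclose2
    have : (N * ‖a' - ((N⁻¹ : ℝ) : 𝕜) * 1‖) ^ 2 + (N * ‖b' - ((N⁻¹ : ℝ) : 𝕜) * (b : 𝕜)‖) ^ 2
        = N ^ 2 * (‖a' - ((N⁻¹ : ℝ) : 𝕜) * 1‖ ^ 2 + ‖b' - ((N⁻¹ : ℝ) : 𝕜) * (b : 𝕜)‖ ^ 2) := by
      ring
    rw [this]
    calc N ^ 2 * (‖a' - ((N⁻¹ : ℝ) : 𝕜) * 1‖ ^ 2 + ‖b' - ((N⁻¹ : ℝ) : 𝕜) * (b : 𝕜)‖ ^ 2)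
        ≤ 12 / 10 * (10 / 9 * ε ^ 2) := by gcongr
      _ ≤ (2 * ε) ^ 2 := aux_e
  have ha1 : ‖a - 1‖ ≤ 1 / 10 := by
    have : ‖a - 1‖ ^ 2 ≤ (2 * ε) ^ 2 := aux_l hcl3
    have := (abs_le_of_sq_le_sq' this (by positivity)).2
    linarith
  have hb1 : ‖bb‖ ≤ 1 / 10 := by
    have h1 : ‖bb - b‖ ^ 2 ≤ (2 * ε) ^ 2 := aux_r hcl3
    have h2 := (abs_le_of_sq_le_sq' h1 (by positivity)).2
    have h3 : ‖bb‖ ≤ ‖bb - b‖ + ‖(b : 𝕜)‖ := by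
      have := norm_add_le (bb - b) (b : 𝕜)
      rwa [sub_add_cancel] at this
    rw [RCLike.norm_ofReal] at h3
    linarith
  obtain ⟨t, ht0, ht⟩ := hn₀ n hn0 a bb ha1 hb1
  -- rescaling
  have hscale : ∀ τ : ℝ, PhiG (Gn n) ((a, bb + (τ : 𝕜)) : 𝕜 × 𝕜)
      = N ^ 2 * PhiG (Gn n) ((a', b' + ((τ / N : ℝ) : 𝕜)) : 𝕜 × 𝕜) := by
    intro τ
    have e : ((a, bb + (τ : 𝕜)) : 𝕜 × 𝕜)
        = (N : 𝕜) • ((a', b' + ((τ / N : ℝ) : 𝕜)) : 𝕜 × 𝕜) := by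
      have e2 : (N : 𝕜) * ((τ / N : ℝ) : 𝕜) = (τ : 𝕜) := by
        rw [← RCLike.ofReal_mul]
        congr 1
        field_simp
      refine Prod.ext rfl ?_
      change bb + (τ : 𝕜) = (N : 𝕜) * (b' + ((τ / N : ℝ) : 𝕜))
      rw [mul_add, e2]
    rw [e, PhiG_smul, RCLike.norm_ofReal, abs_of_pos hNpos]
  have hDs : D3 (fun τ => PhiG (Gn n) ((a, bb + (τ : 𝕜)) : 𝕜 × 𝕜)) t
      = N ^ 2 * D3 (fun τ => PhiG (Gn n) ((a', b' + (τ : 𝕜)) : 𝕜 × 𝕜)) (t / N) := by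
    unfold D3
    simp only [hscale]
    have e1 : 2 * t / N = 2 * (t / N) := by ring
    have e2 : -(2 * t) / N = -(2 * (t / N)) := by ring
    have e3 : -t / N = -(t / N) := by ring
    rw [e1, e2, e3]
    ring
  have hfin := hthird (t / N)
  rw [hD3] at hfin
  rw [hDs, abs_mul, abs_of_pos (by positivity : 0 < N ^ 2)] at ht
  have h1 : N ^ 2 * |D3 (fun τ => PhiG (Gn n) ((a', b' + (τ : 𝕜)) : 𝕜 × 𝕜)) (t / N)|
      ≤ N ^ 2 * (96 * (5 * ε) * ((t / N) ^ 2 * (11 / 10))) := by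
    gcongr
    exact hfin.trans (by gcongr)
  have h2 : N ^ 2 * (96 * (5 * ε) * ((t / N) ^ 2 * (11 / 10))) = 528 * ε * t ^ 2 := by
    field_simp
    norm_num
  have h3 : dd / 4 * t ^ 2 ≤ 528 * ε * t ^ 2 := (ht.trans h1).trans (le_of_eq h2)
  have h4 : 0 < t ^ 2 := by positivity
  have h5 : dd / 4 ≤ 528 * ε := le_of_mul_le_mul_right h3 h4
  rw [hε] at h5
  linarith

/-- The space `XX 𝕜` has the Bishop-Phelps-Bollobas property for the numerical radius. -/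
theorem hasBPBpNu_XX : HasBPBpNu 𝕜 (XX 𝕜) :=
  hasBPBpNu_of (m := 1 / 2) (M := 2) (C := 200000) (by norm_num) (by norm_num) (by norm_num)
    XX_uc XX_us norm_le_numRadius

end Main

end Pool.Agent.H15.BPB
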