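import Pool.Agent.H15.BPB.Space

set_option autoImplicit false

namespace Pool.Agent.H15.BPB

open Filter Topology RCLike
open scoped ComplexConjugate

section Averaging

variable {𝕜 : Type*} [RCLike 𝕜]

/-- Averaging over signs: if all `cut sums` are bounded, so is the off-diagonal sum. -/
lemma averaging (F : Finset ℕ) (b : ℕ → ℕ → 𝕜) (R : ℝ)
    (hcut : ∀ t : ℕ → ℝ, (∀ k, t k = 1 ∨ t k = -1) →
      ‖∑ k ∈ F, ∑ l ∈ F, ((1 - t k * t l : ℝ) : 𝕜) * b k l‖ ≤ R) :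
    ‖∑ k ∈ F, ∑ l ∈ F, (if k = l then 0 else b k l)‖ ≤ R := by
  classical
  set W : (ℕ → ℝ) → 𝕜 := fun t => ∑ k ∈ F, ∑ l ∈ F,
    (if k = l then 0 else ((1 - t k * t l : ℝ) : 𝕜) * b k l) with hW
  have hP : ∀ Z : Finset ℕ, ∀ t : ℕ → ℝ, (∀ k ∈ Z, t k = 0) → (∀ k ∉ Z, t k = 1 ∨ t k = -1) →
      ‖W t‖ ≤ R := by
    intro Z
    induction Z using Finset.induction with
    | empty =>
      intro t _ ht
      have ht' : ∀ k, t k = 1 ∨ t k = -1 := fun k => ht k (by simp)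
      refine le_trans (le_of_eq ?_) (hcut t ht')
      congr 1
      refine Finset.sum_congr rfl fun k _ => Finset.sum_congr rfl fun l _ => ?_
      split_ifs with hkl
      · subst hkl
        have : (1 - t k * t k : ℝ) = 0 := by
          rcases ht' k with h | h <;> rw [h] <;> ring
        rw [this]; simp
      · rfl
    | insert a Z ha ih =>
      intro t h0 h1
      have hta : t a = 0 := h0 a (by simp)
      have hav : W t = (1 / 2 : 𝕜) * (W (Function.update t a 1) + W (Function.update t a (-1))) := by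
        simp only [hW]
        rw [← Finset.sum_add_distrib, Finset.mul_sum]
        refine Finset.sum_congr rfl fun k _ => ?_
        rw [← Finset.sum_add_distrib, Finset.mul_sum]
        refine Finset.sum_congr rfl fun l _ => ?_
        by_cases hkl : k = l
        · simp [hkl]
        · rw [if_neg hkl, if_neg hkl, if_neg hkl]
          by_cases hka : k = a
          · subst hka
            have hlk : l ≠ k := fun h => hkl h.symm
            rw [Function.update_self, Function.update_self, Function.update_of_ne hlk,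
              Function.update_of_ne hlk, hta, ← add_mul, ← RCLike.ofReal_add]
            have : (1 - 1 * t l + (1 - -1 * t l) : ℝ) = 2 := by ring
            rw [this, zero_mul, sub_zero, RCLike.ofReal_one, RCLike.ofReal_ofNat]
            ring
          · by_cases hla : l = a
            · subst hla
              rw [Function.update_self, Function.update_self, Function.update_of_ne hka,
                Function.update_of_ne hka, hta, ← add_mul, ← RCLike.ofReal_add]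
              have : (1 - t k * 1 + (1 - t k * -1) : ℝ) = 2 := by ring
              rw [this, mul_zero, sub_zero, RCLike.ofReal_one, RCLike.ofReal_ofNat]
              ring
            · rw [Function.update_of_ne hka, Function.update_of_ne hka,
                Function.update_of_ne hla, Function.update_of_ne hla]
              ring
      have hb1 : ‖W (Function.update t a 1)‖ ≤ R := by
        refine ih _ (fun k hk => ?_) (fun k hk => ?_)
        · have hka : k ≠ a := fun h => ha (h ▸ hk)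
          rw [Function.update_of_ne hka]
          exact h0 k (Finset.mem_insert_of_mem hk)
        · by_cases hka : k = a
          · subst hka; left; rw [Function.update_self]
          · rw [Function.update_of_ne hka]
            exact h1 k (by simp [hka, hk])
      have hb2 : ‖W (Function.update t a (-1))‖ ≤ R := by
        refine ih _ (fun k hk => ?_) (fun k hk => ?_)
        · have hka : k ≠ a := fun h => ha (h ▸ hk)
          rw [Function.update_of_ne hka]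
          exact h0 k (Finset.mem_insert_of_mem hk)
        · by_cases hka : k = a
          · subst hka; right; rw [Function.update_self]
          · rw [Function.update_of_ne hka]
            exact h1 k (by simp [hka, hk])
      rw [hav, norm_mul, norm_div, norm_one, RCLike.norm_ofNat]
      have := norm_add_le (W (Function.update t a 1)) (W (Function.update t a (-1)))
      linarith
  have := hP F (fun k => if k ∈ F then 0 else 1) (fun k hk => by simp [hk])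
    (fun k hk => by simp [hk])
  refine le_trans (le_of_eq ?_) this
  congr 1
  refine Finset.sum_congr rfl fun k hk => Finset.sum_congr rfl fun l hl => ?_
  simp [hk]

end Averaging

section Matrix

variable {𝕜 : Type*} [RCLike 𝕜]

/-- the duality map of the unperturbed profile `cc * s ^ 2` -/
noncomputable def J0 (v w : 𝕜 × 𝕜) : 𝕜 :=
  ((1 - cc * (qq v / rr v) ^ 2 : ℝ) : 𝕜) * hip v w
    + ((2 * cc * (qq v / rr v) : ℝ) : 𝕜) * hqf v w

lemma J0_add_right (u v w : 𝕜 × 𝕜) : J0 u (v + w) = J0 u v + J0 u w := by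
  unfold J0
  rw [hip_add_right, hqf_add_right]; ring

lemma J0_smul_right (α : 𝕜) (v w : 𝕜 × 𝕜) : J0 v (α • w) = α * J0 v w := by
  unfold J0
  rw [hip_smul_right, hqf_smul_right]; ring

lemma J0_neg_right (v w : 𝕜 × 𝕜) : J0 v (-w) = -J0 v w := by
  unfold J0
  rw [hip_neg_right, hqf_neg_right]; ring

lemma J0_neg_left (v w : 𝕜 × 𝕜) : J0 (-v) w = -J0 v w := by
  unfold J0
  rw [qq_neg, rr_neg]
  have h1 : hip (-v) w = -hip v w := by
    simp only [hip, Prod.fst_neg, Prod.snd_neg, map_neg]; ring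
  have h2 : hqf (-v) w = -hqf v w := by
    simp only [hqf, Prod.fst_neg, Prod.snd_neg, map_neg]; ring
  rw [h1, h2]; ring

@[simp] lemma J0_zero_left (w : 𝕜 × 𝕜) : J0 0 w = 0 := by
  unfold J0 hip hqf; simp

/-- value at `(p, p)` -/
lemma J0_diag (p : 𝕜) (w : 𝕜 × 𝕜) : J0 (p, p) w = ((1 + cc : ℝ) : 𝕜) * (conj p * (w.1 + w.2)) := by
  by_cases hp : p = 0
  · subst hp
    have : J0 ((0 : 𝕜), (0 : 𝕜)) w = 0 := J0_zero_left w
    rw [this]; simp
  · have hq : qq (p, p) = 2 * ‖p‖ ^ 2 := by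
      unfold qq hqf
      simp only [RCLike.conj_mul]
      rw [← RCLike.ofReal_pow, ← RCLike.ofReal_add, RCLike.ofReal_re]; ring
    have hr : rr (p, p) = 2 * ‖p‖ ^ 2 := by unfold rr; ring
    have hn : ‖p‖ ≠ 0 := by simpa using hp
    have hs : qq (p, p) / rr (p, p) = 1 := by rw [hq, hr]; field_simp
    unfold J0
    rw [hs]
    unfold hip hqf
    simp only [one_pow, mul_one, RCLike.ofReal_sub, RCLike.ofReal_add, RCLike.ofReal_mul,
      RCLike.ofReal_one, RCLike.ofReal_ofNat]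
    ring

/-- value at `(p, -p)` -/
lemma J0_antidiag (p : 𝕜) (w : 𝕜 × 𝕜) :
    J0 (p, -p) w = ((1 + cc : ℝ) : 𝕜) * (conj p * (w.1 - w.2)) := by
  by_cases hp : p = 0
  · subst hp
    have : J0 ((0 : 𝕜), (-0 : 𝕜)) w = 0 := by rw [neg_zero]; exact J0_zero_left w
    rw [this]; simp
  · have hq : qq (p, -p) = -(2 * ‖p‖ ^ 2) := by
      unfold qq hqf
      simp only [map_neg, mul_neg, neg_mul, RCLike.conj_mul]
      rw [← RCLike.ofReal_pow, ← RCLike.ofReal_neg, ← RCLike.ofReal_add, RCLike.ofReal_re]; ring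
    have hr : rr (p, -p) = 2 * ‖p‖ ^ 2 := by
      unfold rr; simp only [norm_neg]; ring
    have hn : ‖p‖ ≠ 0 := by simpa using hp
    have hs : qq (p, -p) / rr (p, -p) = -1 := by rw [hq, hr]; field_simp
    unfold J0
    rw [hs]
    unfold hip hqf
    simp only [map_neg, RCLike.ofReal_sub, RCLike.ofReal_add, RCLike.ofReal_mul,
      RCLike.ofReal_one, RCLike.ofReal_ofNat, RCLike.ofReal_pow]
    ring

/-- value at `(p, 0)` -/
lemma J0_fst (p : 𝕜) (w : 𝕜 × 𝕜) : J0 (p, 0) w = conj p * w.1 := by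
  have hq : qq (p, (0 : 𝕜)) = 0 := by unfold qq hqf; simp
  unfold J0
  rw [hq]
  simp [hip]

/-- value at `(0, p)` -/
lemma J0_snd (p : 𝕜) (w : 𝕜 × 𝕜) : J0 (0, p) w = conj p * w.2 := by
  have hq : qq ((0 : 𝕜), p) = 0 := by unfold qq hqf; simp
  unfold J0
  rw [hq]
  simp [hip]


/-- the operator with matrix `t` restricted to the index set `F` -/
noncomputable def Tf (t : ℕ → ℕ → (𝕜 × 𝕜) →ₗ[𝕜] (𝕜 × 𝕜)) (F : Finset ℕ) (x : ℕ → 𝕜 × 𝕜) (k : ℕ) :
    𝕜 × 𝕜 := ∑ l ∈ F, t k l (x l)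

variable {t : ℕ → ℕ → (𝕜 × 𝕜) →ₗ[𝕜] (𝕜 × 𝕜)} {F : Finset ℕ} {A : ℝ}

lemma Tf_add (x y : ℕ → 𝕜 × 𝕜) (k : ℕ) :
    Tf t F (fun l => x l + y l) k = Tf t F x k + Tf t F y k := by
  unfold Tf
  rw [← Finset.sum_add_distrib]
  exact Finset.sum_congr rfl fun l _ => map_add _ _ _

lemma Tf_neg (x : ℕ → 𝕜 × 𝕜) (k : ℕ) :
    Tf t F (fun l => -x l) k = -Tf t F x k := by
  unfold Tf
  rw [← Finset.sum_neg_distrib]
  exact Finset.sum_congr rfl fun l _ => map_neg _ _

lemma Tf_smul (α : 𝕜) (x : ℕ → 𝕜 × 𝕜) (k : ℕ) :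
    Tf t F (fun l => α • x l) k = α • Tf t F x k := by
  unfold Tf
  rw [Finset.smul_sum]
  exact Finset.sum_congr rfl fun l _ => map_smul _ _ _

/-- the hypothesis: the numerical radius of the matrix is at most `A` -/
def NumLe (t : ℕ → ℕ → (𝕜 × 𝕜) →ₗ[𝕜] (𝕜 × 𝕜)) (F : Finset ℕ) (A : ℝ) : Prop :=
  ∀ x : ℕ → 𝕜 × 𝕜, ‖∑ k ∈ F, J0 (x k) (Tf t F x k)‖ ≤ A * ∑ k ∈ F, rr (x k)

/-- step 1: cross terms for disjointly supported vectors -/
lemma cross_le (h : NumLe t F A) {u w : ℕ → 𝕜 × 𝕜} (hd : ∀ k, u k = 0 ∨ w k = 0) :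
    ‖∑ k ∈ F, (J0 (u k) (Tf t F w k) + J0 (w k) (Tf t F u k))‖
      ≤ A * (∑ k ∈ F, rr (u k) + ∑ k ∈ F, rr (w k)) := by
  have h1 := h (fun k => u k + w k)
  have h2 := h (fun k => u k + -w k)
  have er1 : ∑ k ∈ F, rr (u k + w k) = ∑ k ∈ F, rr (u k) + ∑ k ∈ F, rr (w k) := by
    rw [← Finset.sum_add_distrib]
    refine Finset.sum_congr rfl fun k _ => ?_
    rcases hd k with hk | hk <;> simp [hk]
  have er2 : ∑ k ∈ F, rr (u k + -w k) = ∑ k ∈ F, rr (u k) + ∑ k ∈ F, rr (w k) := by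
    rw [← Finset.sum_add_distrib]
    refine Finset.sum_congr rfl fun k _ => ?_
    rcases hd k with hk | hk <;> simp [hk, rr_neg]
  have e : (2 : 𝕜) * ∑ k ∈ F, (J0 (u k) (Tf t F w k) + J0 (w k) (Tf t F u k))
      = ∑ k ∈ F, J0 (u k + w k) (Tf t F (fun k => u k + w k) k)
        - ∑ k ∈ F, J0 (u k + -w k) (Tf t F (fun k => u k + -w k) k) := by
    rw [Finset.mul_sum, ← Finset.sum_sub_distrib]
    refine Finset.sum_congr rfl fun k _ => ?_
    have e1 : Tf t F (fun k => u k + -w k) k = Tf t F u k + -Tf t F w k := by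
      rw [Tf_add u (fun l => -w l), Tf_neg]
    rw [Tf_add, e1]
    rcases hd k with hk | hk
    · rw [hk, zero_add, zero_add, J0_zero_left, J0_neg_left, J0_add_right, J0_add_right,
        J0_neg_right]
      ring
    · rw [hk, neg_zero, add_zero, J0_zero_left, J0_add_right, J0_add_right,
        J0_neg_right]
      ring
  have h3 : ‖(2 : 𝕜) * ∑ k ∈ F, (J0 (u k) (Tf t F w k) + J0 (w k) (Tf t F u k))‖
      ≤ 2 * (A * (∑ k ∈ F, rr (u k) + ∑ k ∈ F, rr (w k))) := by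
    rw [e]
    refine (norm_sub_le _ _).trans ?_
    rw [er1] at h1
    rw [er2] at h2
    linarith
  rw [norm_mul, RCLike.norm_ofNat] at h3
  linarith

/-- the sum of the cross terms is additive in `w` up to the nonlinearity of `J0` -/
lemma cross_comb (h : NumLe t F A) {u : ℕ → 𝕜 × 𝕜} {w₁ w₂ w₃ : ℕ → 𝕜 × 𝕜}
    (h1 : ∀ k, u k = 0 ∨ w₁ k = 0) (h2 : ∀ k, u k = 0 ∨ w₂ k = 0) (h3 : ∀ k, u k = 0 ∨ w₃ k = 0)
    (hs : ∀ k, w₁ k + w₂ k = w₃ k + w₃ k) :
    ‖∑ k ∈ F, (J0 (w₁ k) (Tf t F u k) + J0 (w₂ k) (Tf t F u k) - 2 * J0 (w₃ k) (Tf t F u k))‖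
      ≤ A * (4 * ∑ k ∈ F, rr (u k) + ∑ k ∈ F, rr (w₁ k) + ∑ k ∈ F, rr (w₂ k)
          + 2 * ∑ k ∈ F, rr (w₃ k)) := by
  have a1 := cross_le h h1
  have a2 := cross_le h h2
  have a3 := cross_le h h3
  have e : ∑ k ∈ F, (J0 (w₁ k) (Tf t F u k) + J0 (w₂ k) (Tf t F u k)
        - 2 * J0 (w₃ k) (Tf t F u k))
      = ∑ k ∈ F, (J0 (u k) (Tf t F w₁ k) + J0 (w₁ k) (Tf t F u k))
        + ∑ k ∈ F, (J0 (u k) (Tf t F w₂ k) + J0 (w₂ k) (Tf t F u k))
        - 2 * ∑ k ∈ F, (J0 (u k) (Tf t F w₃ k) + J0 (w₃ k) (Tf t F u k)) := by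
    rw [Finset.mul_sum, ← Finset.sum_add_distrib, ← Finset.sum_sub_distrib]
    refine Finset.sum_congr rfl fun k _ => ?_
    have e1 : Tf t F w₁ k + Tf t F w₂ k = Tf t F w₃ k + Tf t F w₃ k := by
      rw [← Tf_add, ← Tf_add]
      congr 1
      funext l
      exact hs l
    have e2 : J0 (u k) (Tf t F w₁ k) + J0 (u k) (Tf t F w₂ k) = 2 * J0 (u k) (Tf t F w₃ k) := by
      rw [← J0_add_right, e1, J0_add_right]; ring
    linear_combination -e2
  rw [e]
  have t1 := norm_sub_le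
    (∑ k ∈ F, (J0 (u k) (Tf t F w₁ k) + J0 (w₁ k) (Tf t F u k))
        + ∑ k ∈ F, (J0 (u k) (Tf t F w₂ k) + J0 (w₂ k) (Tf t F u k)))
    (2 * ∑ k ∈ F, (J0 (u k) (Tf t F w₃ k) + J0 (w₃ k) (Tf t F u k)))
  have t2 := norm_add_le
    (∑ k ∈ F, (J0 (u k) (Tf t F w₁ k) + J0 (w₁ k) (Tf t F u k)))
    (∑ k ∈ F, (J0 (u k) (Tf t F w₂ k) + J0 (w₂ k) (Tf t F u k)))
  rw [norm_mul, RCLike.norm_ofNat] at t1
  linarith

/-- squares from a quadratic inequality valid for all scalings -/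
lemma sq_le_of_scaling {m P U c : ℝ} (hP : 0 ≤ P) (hU : 0 ≤ U) (hc : 0 < c)
    (h : ∀ s : ℝ, 2 * c * (s * m) ≤ A * (4 * U + 6 * (s ^ 2 * P))) :
    m ^ 2 ≤ (5 * (A / c)) ^ 2 * (U * P) := by
  have hall : ∀ s : ℝ, 0 ≤ (6 * A * P) * (s * s) + (-(2 * c * m)) * s + 4 * A * U := by
    intro s
    have := h s
    nlinarith
  have h2 := discrim_le_zero hall
  unfold discrim at h2
  have h3 : c ^ 2 * m ^ 2 ≤ 25 * A ^ 2 * (U * P) := by
    have : 0 ≤ A ^ 2 * (U * P) := by positivity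
    nlinarith
  have e : (5 * (A / c)) ^ 2 * (U * P) = 25 * A ^ 2 * (U * P) / c ^ 2 := by
    field_simp
    ring
  rw [e, le_div_iff₀ (by positivity)]
  linarith

lemma cc_pos : 0 < cc := by unfold cc; norm_num

/-- step 2, first coordinates -/
lemma off_fst (h : NumLe t F A) {u : ℕ → 𝕜 × 𝕜} {p : ℕ → 𝕜}
    (hd : ∀ k, u k = 0 ∨ p k = 0) :
    ‖∑ k ∈ F, conj (p k) * (Tf t F u k).1‖ ^ 2
      ≤ (5 * (A / cc)) ^ 2 * ((∑ k ∈ F, rr (u k)) * ∑ k ∈ F, ‖p k‖ ^ 2) := by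
  refine sq_le_of_scaling (Finset.sum_nonneg fun k _ => by positivity)
    (Finset.sum_nonneg fun k _ => rr_nonneg _) cc_pos fun s => ?_
  have hk : ∀ k, u k = 0 ∨ ((s : 𝕜) * p k) = 0 := fun k => by
    rcases hd k with hk | hk
    · exact Or.inl hk
    · right; rw [hk, mul_zero]
  have h1 := cross_comb h (u := u) (w₁ := fun k => ((s : 𝕜) * p k, (s : 𝕜) * p k))
    (w₂ := fun k => ((s : 𝕜) * p k, -((s : 𝕜) * p k))) (w₃ := fun k => ((s : 𝕜) * p k, 0))
    (fun k => (hk k).imp_right fun h => by rw [h]; rfl)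
    (fun k => (hk k).imp_right fun h => by rw [h]; simp)
    (fun k => (hk k).imp_right fun h => by rw [h]; rfl)
    (fun k => by ext <;> simp)
  have e1 : ∑ k ∈ F, (J0 ((s : 𝕜) * p k, (s : 𝕜) * p k) (Tf t F u k)
      + J0 ((s : 𝕜) * p k, -((s : 𝕜) * p k)) (Tf t F u k)
      - 2 * J0 ((s : 𝕜) * p k, 0) (Tf t F u k))
      = ((2 * cc * s : ℝ) : 𝕜) * ∑ k ∈ F, conj (p k) * (Tf t F u k).1 := by
    rw [Finset.mul_sum]
    refine Finset.sum_congr rfl fun k _ => ?_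
    rw [J0_diag, J0_antidiag, J0_fst, map_mul, RCLike.conj_ofReal, RCLike.ofReal_mul,
      RCLike.ofReal_mul, RCLike.ofReal_add, RCLike.ofReal_one, RCLike.ofReal_ofNat]
    ring
  have e2 : ∑ k ∈ F, rr ((s : 𝕜) * p k, (s : 𝕜) * p k) = 2 * (s ^ 2 * ∑ k ∈ F, ‖p k‖ ^ 2) := by
    rw [Finset.mul_sum, Finset.mul_sum]
    refine Finset.sum_congr rfl fun k _ => ?_
    simp only [rr, norm_mul, RCLike.norm_ofReal, mul_pow, sq_abs]; ring
  have e3 : ∑ k ∈ F, rr ((s : 𝕜) * p k, -((s : 𝕜) * p k)) = 2 * (s ^ 2 * ∑ k ∈ F, ‖p k‖ ^ 2) := by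
    rw [Finset.mul_sum, Finset.mul_sum]
    refine Finset.sum_congr rfl fun k _ => ?_
    simp only [rr, norm_neg, norm_mul, RCLike.norm_ofReal, mul_pow, sq_abs]; ring
  have e4 : ∑ k ∈ F, rr ((s : 𝕜) * p k, (0 : 𝕜)) = s ^ 2 * ∑ k ∈ F, ‖p k‖ ^ 2 := by
    rw [Finset.mul_sum]
    refine Finset.sum_congr rfl fun k _ => ?_
    simp only [rr, norm_zero, norm_mul, RCLike.norm_ofReal, mul_pow, sq_abs]; ring
  rw [e1, e2, e3, e4, norm_mul, RCLike.norm_ofReal, abs_mul,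
    abs_of_pos (mul_pos two_pos cc_pos)] at h1
  have h5 : s ≤ |s| := le_abs_self s
  have h6 := norm_nonneg (∑ k ∈ F, conj (p k) * (Tf t F u k).1)
  calc 2 * cc * (s * ‖∑ k ∈ F, conj (p k) * (Tf t F u k).1‖)
      ≤ 2 * cc * (|s| * ‖∑ k ∈ F, conj (p k) * (Tf t F u k).1‖) := by
        have := cc_pos
        gcongr
    _ = 2 * cc * |s| * ‖∑ k ∈ F, conj (p k) * (Tf t F u k).1‖ := by ring
    _ ≤ _ := h1
    _ = _ := by ring

/-- step 2, second coordinates -/
lemma off_snd (h : NumLe t F A) {u : ℕ → 𝕜 × 𝕜} {p : ℕ → 𝕜}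
    (hd : ∀ k, u k = 0 ∨ p k = 0) :
    ‖∑ k ∈ F, conj (p k) * (Tf t F u k).2‖ ^ 2
      ≤ (5 * (A / cc)) ^ 2 * ((∑ k ∈ F, rr (u k)) * ∑ k ∈ F, ‖p k‖ ^ 2) := by
  refine sq_le_of_scaling (Finset.sum_nonneg fun k _ => by positivity)
    (Finset.sum_nonneg fun k _ => rr_nonneg _) cc_pos fun s => ?_
  have hk : ∀ k, u k = 0 ∨ ((s : 𝕜) * p k) = 0 := fun k => by
    rcases hd k with hk | hk
    · exact Or.inl hk
    · right; rw [hk, mul_zero]
  have h1 := cross_comb h (u := u) (w₁ := fun k => ((s : 𝕜) * p k, (s : 𝕜) * p k))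
    (w₂ := fun k => -((s : 𝕜) * p k, -((s : 𝕜) * p k))) (w₃ := fun k => (0, (s : 𝕜) * p k))
    (fun k => (hk k).imp_right fun h => by rw [h]; rfl)
    (fun k => (hk k).imp_right fun h => by rw [h]; simp)
    (fun k => (hk k).imp_right fun h => by rw [h]; rfl)
    (fun k => by ext <;> simp)
  have e1 : ∑ k ∈ F, (J0 ((s : 𝕜) * p k, (s : 𝕜) * p k) (Tf t F u k)
      + J0 (-((s : 𝕜) * p k, -((s : 𝕜) * p k))) (Tf t F u k)
      - 2 * J0 (0, (s : 𝕜) * p k) (Tf t F u k))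
      = ((2 * cc * s : ℝ) : 𝕜) * ∑ k ∈ F, conj (p k) * (Tf t F u k).2 := by
    rw [Finset.mul_sum]
    refine Finset.sum_congr rfl fun k _ => ?_
    rw [J0_diag, J0_neg_left, J0_antidiag, J0_snd, map_mul, RCLike.conj_ofReal, RCLike.ofReal_mul,
      RCLike.ofReal_mul, RCLike.ofReal_add, RCLike.ofReal_one, RCLike.ofReal_ofNat]
    ring
  have e2 : ∑ k ∈ F, rr ((s : 𝕜) * p k, (s : 𝕜) * p k) = 2 * (s ^ 2 * ∑ k ∈ F, ‖p k‖ ^ 2) := by
    rw [Finset.mul_sum, Finset.mul_sum]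
    refine Finset.sum_congr rfl fun k _ => ?_
    simp only [rr, norm_mul, RCLike.norm_ofReal, mul_pow, sq_abs]; ring
  have e3 : ∑ k ∈ F, rr (-((s : 𝕜) * p k, -((s : 𝕜) * p k)))
      = 2 * (s ^ 2 * ∑ k ∈ F, ‖p k‖ ^ 2) := by
    rw [Finset.mul_sum, Finset.mul_sum]
    refine Finset.sum_congr rfl fun k _ => ?_
    rw [rr_neg]
    simp only [rr, norm_neg, norm_mul, RCLike.norm_ofReal, mul_pow, sq_abs]; ring
  have e4 : ∑ k ∈ F, rr ((0 : 𝕜), (s : 𝕜) * p k) = s ^ 2 * ∑ k ∈ F, ‖p k‖ ^ 2 := by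
    rw [Finset.mul_sum]
    refine Finset.sum_congr rfl fun k _ => ?_
    simp only [rr, norm_zero, norm_mul, RCLike.norm_ofReal, mul_pow, sq_abs]; ring
  rw [e1, e2, e3, e4, norm_mul, RCLike.norm_ofReal, abs_mul,
    abs_of_pos (mul_pos two_pos cc_pos)] at h1
  have h5 : s ≤ |s| := le_abs_self s
  have h6 := norm_nonneg (∑ k ∈ F, conj (p k) * (Tf t F u k).2)
  calc 2 * cc * (s * ‖∑ k ∈ F, conj (p k) * (Tf t F u k).2‖)
      ≤ 2 * cc * (|s| * ‖∑ k ∈ F, conj (p k) * (Tf t F u k).2‖) := by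
        have := cc_pos
        gcongr
    _ = 2 * cc * |s| * ‖∑ k ∈ F, conj (p k) * (Tf t F u k).2‖ := by ring
    _ ≤ _ := h1
    _ = _ := by ring

/-- step 2: pairing of disjointly supported vectors -/
lemma off_le (h : NumLe t F A) (hA : 0 ≤ A) {u y : ℕ → 𝕜 × 𝕜}
    (hd : ∀ k, u k = 0 ∨ y k = 0) :
    ‖∑ k ∈ F, hip (y k) (Tf t F u k)‖
      ≤ 10 * (A / cc) * (Real.sqrt (∑ k ∈ F, rr (u k)) * Real.sqrt (∑ k ∈ F, rr (y k))) := by
  have hAc : 0 ≤ A / cc := div_nonneg hA cc_pos.le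
  have hU : 0 ≤ ∑ k ∈ F, rr (u k) := Finset.sum_nonneg fun k _ => rr_nonneg _
  have hY : 0 ≤ ∑ k ∈ F, rr (y k) := Finset.sum_nonneg fun k _ => rr_nonneg _
  have h1 := off_fst h (p := fun k => (y k).1) (u := u)
    (fun k => (hd k).imp_right fun h => by rw [h]; rfl)
  have h2 := off_snd h (p := fun k => (y k).2) (u := u)
    (fun k => (hd k).imp_right fun h => by rw [h]; rfl)
  have hy1 : ∑ k ∈ F, ‖(y k).1‖ ^ 2 ≤ ∑ k ∈ F, rr (y k) :=
    Finset.sum_le_sum fun k _ => by unfold rr; nlinarith [sq_nonneg ‖(y k).2‖]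
  have hy2 : ∑ k ∈ F, ‖(y k).2‖ ^ 2 ≤ ∑ k ∈ F, rr (y k) :=
    Finset.sum_le_sum fun k _ => by unfold rr; nlinarith [sq_nonneg ‖(y k).1‖]
  set U := ∑ k ∈ F, rr (u k)
  set Y := ∑ k ∈ F, rr (y k)
  have hb : ∀ m P : ℝ, 0 ≤ m → P ≤ Y → m ^ 2 ≤ (5 * (A / cc)) ^ 2 * (U * P) →
      m ≤ 5 * (A / cc) * (Real.sqrt U * Real.sqrt Y) := by
    intro m P hm hPY hmP
    have hle : m ^ 2 ≤ (5 * (A / cc) * (Real.sqrt U * Real.sqrt Y)) ^ 2 := by
      calc m ^ 2 ≤ (5 * (A / cc)) ^ 2 * (U * P) := hmP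
        _ ≤ (5 * (A / cc)) ^ 2 * (U * Y) := by gcongr
        _ = (5 * (A / cc)) ^ 2 * (Real.sqrt U ^ 2 * Real.sqrt Y ^ 2) := by
            rw [Real.sq_sqrt hU, Real.sq_sqrt hY]
        _ = _ := by ring
    exact (abs_le_of_sq_le_sq' hle (by positivity)).2
  have b1 := hb _ _ (norm_nonneg _) hy1 h1
  have b2 := hb _ _ (norm_nonneg _) hy2 h2
  have e : ∑ k ∈ F, hip (y k) (Tf t F u k)
      = ∑ k ∈ F, conj (y k).1 * (Tf t F u k).1 + ∑ k ∈ F, conj (y k).2 * (Tf t F u k).2 := by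
    rw [← Finset.sum_add_distrib]; rfl
  rw [e]
  refine (norm_add_le _ _).trans ?_
  linarith


/-- value at `(1, 2)` -/
lemma J0_one_two (w : 𝕜 × 𝕜) : J0 ((1 : 𝕜), (2 : 𝕜)) w
    = ((1 + 64 / 25 * cc : ℝ) : 𝕜) * w.1 + ((2 + 8 / 25 * cc : ℝ) : 𝕜) * w.2 := by
  have hq : qq ((1 : 𝕜), (2 : 𝕜)) = 4 := by
    unfold qq hqf
    have : (conj (1 : 𝕜) * 2 + conj (2 : 𝕜) * 1 : 𝕜) = ((4 : ℝ) : 𝕜) := by
      rw [map_one, map_ofNat, RCLike.ofReal_ofNat]; norm_num
    simp only [this, RCLike.ofReal_re]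
  have hr : rr ((1 : 𝕜), (2 : 𝕜)) = 5 := by
    unfold rr
    simp only [norm_one, RCLike.norm_ofNat]; norm_num
  unfold J0
  rw [hq, hr]
  unfold hip hqf
  simp only [map_one, map_ofNat, RCLike.ofReal_sub, RCLike.ofReal_add, RCLike.ofReal_mul,
    RCLike.ofReal_pow, RCLike.ofReal_div]
  ring

/-- step 3: a single block -/
lemma diag_le {T : (𝕜 × 𝕜) →ₗ[𝕜] (𝕜 × 𝕜)} (hA : 0 ≤ A)
    (h : ∀ v, ‖J0 v (T v)‖ ≤ A * rr v) (v w : 𝕜 × 𝕜) :
    ‖hip w (T v)‖ ≤ 10 * (A / cc) * (Real.sqrt (rr v) * Real.sqrt (rr w)) := by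
  have hc := cc_pos
  set a := T (1, 0) with ha
  set b := T (0, 1) with hb
  have h1 : ‖a.1‖ ≤ A := by
    have := h (1, 0)
    rw [← ha, J0_fst, map_one, one_mul] at this
    simpa [rr] using this
  have h2 : ‖b.2‖ ≤ A := by
    have := h (0, 1)
    rw [← hb, J0_snd, map_one, one_mul] at this
    simpa [rr] using this
  have e11 : T (1, 1) = a + b := by
    rw [ha, hb, ← map_add]; simp
  have e12 : T (1, 2) = a + (2 : 𝕜) • b := by
    rw [ha, hb, ← map_smul, ← map_add]; simp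
  have h3 : ‖a.2 + b.1‖ ≤ 4 * A := by
    have h := h (1, 1)
    rw [e11, J0_diag, map_one, one_mul, norm_mul, RCLike.norm_ofReal,
      abs_of_pos (by linarith)] at h
    have hr : rr ((1 : 𝕜), (1 : 𝕜)) = 2 := by unfold rr; simp only [norm_one]; norm_num
    rw [hr] at h
    have h4 : ‖(a + b).1 + (a + b).2‖ ≤ 2 * A := by
      have := norm_nonneg ((a + b).1 + (a + b).2)
      nlinarith
    have e : a.2 + b.1 = ((a + b).1 + (a + b).2) - a.1 - b.2 := by
      simp only [Prod.fst_add, Prod.snd_add]; ring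
    rw [e]
    refine (norm_sub_le _ _).trans ?_
    have := norm_sub_le ((a + b).1 + (a + b).2) a.1
    linarith
  have h5 : ‖b.1‖ ≤ 4 * (A / cc) - 4 * A := by
    have h := h (1, 2)
    have hr : rr ((1 : 𝕜), (2 : 𝕜)) = 5 := by
      unfold rr; simp only [norm_one, RCLike.norm_ofNat]; norm_num
    rw [e12, J0_one_two, hr] at h
    have e : ((120 / 25 * cc : ℝ) : 𝕜) * b.1
        = (((1 + 64 / 25 * cc : ℝ) : 𝕜) * (a + (2 : 𝕜) • b).1
            + ((2 + 8 / 25 * cc : ℝ) : 𝕜) * (a + (2 : 𝕜) • b).2)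
          - ((1 + 64 / 25 * cc : ℝ) : 𝕜) * a.1 - ((4 + 16 / 25 * cc : ℝ) : 𝕜) * b.2
          - ((2 + 8 / 25 * cc : ℝ) : 𝕜) * (a.2 + b.1) := by
      simp only [Prod.fst_add, Prod.snd_add, Prod.smul_fst, Prod.smul_snd, smul_eq_mul,
        RCLike.ofReal_add, RCLike.ofReal_mul,
        RCLike.ofReal_one, RCLike.ofReal_ofNat, RCLike.ofReal_div]
      ring
    have hn : 120 / 25 * cc * ‖b.1‖ ≤ A * 5 + (1 + 64 / 25 * cc) * A + (4 + 16 / 25 * cc) * A
        + (2 + 8 / 25 * cc) * (4 * A) := by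
      have e' := congrArg norm e
      rw [norm_mul, RCLike.norm_ofReal, abs_of_pos (by positivity)] at e'
      rw [e']
      refine (norm_sub_le _ _).trans (add_le_add ((norm_sub_le _ _).trans
        (add_le_add ((norm_sub_le _ _).trans (add_le_add h ?_)) ?_)) ?_)
      · rw [norm_mul, RCLike.norm_ofReal, abs_of_pos (by positivity)]; gcongr
      · rw [norm_mul, RCLike.norm_ofReal, abs_of_pos (by positivity)]; gcongr
      · rw [norm_mul, RCLike.norm_ofReal, abs_of_pos (by positivity)]; gcongr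
    have e6 : 4 * (A / cc) - 4 * A = (4 * A - 4 * A * cc) / cc := by field_simp
    rw [e6, le_div_iff₀ hc]
    have hcc : cc = 1 / 2000 := rfl
    rw [hcc] at hn ⊢
    nlinarith
  have h6 : ‖a.2‖ ≤ 4 * (A / cc) := by
    have e : a.2 = (a.2 + b.1) - b.1 := by ring
    rw [e]
    refine (norm_sub_le _ _).trans ?_
    linarith
  have h7 : A ≤ A / cc := by
    rw [le_div_iff₀ hc]
    have hcc : cc = 1 / 2000 := rfl
    rw [hcc]; linarith
  have hTv : T v = v.1 • a + v.2 • b := by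
    rw [ha, hb, ← map_smul, ← map_smul, ← map_add]
    congr 1
    ext <;> simp
  have hv1 : ‖v.1‖ ≤ Real.sqrt (rr v) := by
    apply Real.le_sqrt_of_sq_le; unfold rr; nlinarith [sq_nonneg ‖v.2‖]
  have hv2 : ‖v.2‖ ≤ Real.sqrt (rr v) := by
    apply Real.le_sqrt_of_sq_le; unfold rr; nlinarith [sq_nonneg ‖v.1‖]
  have hw1 : ‖w.1‖ ≤ Real.sqrt (rr w) := by
    apply Real.le_sqrt_of_sq_le; unfold rr; nlinarith [sq_nonneg ‖w.2‖]
  have hw2 : ‖w.2‖ ≤ Real.sqrt (rr w) := by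
    apply Real.le_sqrt_of_sq_le; unfold rr; nlinarith [sq_nonneg ‖w.1‖]
  have hAc : 0 ≤ A / cc := by positivity
  have hb1 : ‖b.1‖ ≤ 4 * (A / cc) := by linarith
  rw [hTv]
  unfold hip
  simp only [Prod.fst_add, Prod.snd_add, Prod.smul_fst, Prod.smul_snd, smul_eq_mul]
  have e : conj w.1 * (v.1 * a.1 + v.2 * b.1) + conj w.2 * (v.1 * a.2 + v.2 * b.2)
      = conj w.1 * v.1 * a.1 + conj w.1 * v.2 * b.1 + (conj w.2 * v.1 * a.2
        + conj w.2 * v.2 * b.2) := by ring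
  rw [e]
  set V := Real.sqrt (rr v)
  set W := Real.sqrt (rr w)
  have hV : 0 ≤ V := Real.sqrt_nonneg _
  have hW : 0 ≤ W := Real.sqrt_nonneg _
  have t1 : ‖conj w.1 * v.1 * a.1‖ ≤ W * V * (A / cc) := by
    rw [norm_mul, norm_mul, RCLike.norm_conj]
    gcongr
    exact h1.trans h7
  have t2 : ‖conj w.1 * v.2 * b.1‖ ≤ W * V * (4 * (A / cc)) := by
    rw [norm_mul, norm_mul, RCLike.norm_conj]
    gcongr
  have t3 : ‖conj w.2 * v.1 * a.2‖ ≤ W * V * (4 * (A / cc)) := by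
    rw [norm_mul, norm_mul, RCLike.norm_conj]
    gcongr
  have t4 : ‖conj w.2 * v.2 * b.2‖ ≤ W * V * (A / cc) := by
    rw [norm_mul, norm_mul, RCLike.norm_conj]
    gcongr
    exact h2.trans h7
  refine (norm_add_le _ _).trans ?_
  have u1 := norm_add_le (conj w.1 * v.1 * a.1) (conj w.1 * v.2 * b.1)
  have u2 := norm_add_le (conj w.2 * v.1 * a.2) (conj w.2 * v.2 * b.2)
  nlinarith

/-- Cauchy-Schwarz for the blocks -/
lemma sum_sqrt_le (x y : ℕ → 𝕜 × 𝕜) :
    ∑ k ∈ F, Real.sqrt (rr (x k)) * Real.sqrt (rr (y k))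
      ≤ Real.sqrt (∑ k ∈ F, rr (x k)) * Real.sqrt (∑ k ∈ F, rr (y k)) :=
  Real.sum_sqrt_mul_sqrt_le F (fun _ => rr_nonneg _) (fun _ => rr_nonneg _)

/-- step 4: the full matrix -/
lemma matrix_le (hA : 0 ≤ A) (h : NumLe t F A) (x y : ℕ → 𝕜 × 𝕜) :
    ‖∑ k ∈ F, hip (y k) (Tf t F x k)‖
      ≤ 50 * (A / cc) * (Real.sqrt (∑ k ∈ F, rr (x k)) * Real.sqrt (∑ k ∈ F, rr (y k))) := by
  classical
  have hAc : 0 ≤ A / cc := div_nonneg hA cc_pos.le
  set U := Real.sqrt (∑ k ∈ F, rr (x k)) with hU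
  set Y := Real.sqrt (∑ k ∈ F, rr (y k)) with hY
  have hU0 : 0 ≤ U := Real.sqrt_nonneg _
  have hY0 : 0 ≤ Y := Real.sqrt_nonneg _
  set b : ℕ → ℕ → 𝕜 := fun k l => hip (y k) (t k l (x l)) with hb
  have hip_sum : ∀ (v : 𝕜 × 𝕜) (s : Finset ℕ) (f : ℕ → 𝕜 × 𝕜),
      hip v (∑ l ∈ s, f l) = ∑ l ∈ s, hip v (f l) := by
    intro v s f
    induction s using Finset.induction with
    | empty => simp [hip]
    | insert a s ha ih => rw [Finset.sum_insert ha, Finset.sum_insert ha, hip_add_right, ih]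
  have e0 : ∑ k ∈ F, hip (y k) (Tf t F x k) = ∑ k ∈ F, ∑ l ∈ F, b k l := by
    refine Finset.sum_congr rfl fun k _ => ?_
    rw [Tf, hip_sum]
  -- cut sums
  have hcut : ∀ ε : ℕ → ℝ, (∀ k, ε k = 1 ∨ ε k = -1) →
      ‖∑ k ∈ F, ∑ l ∈ F, ((1 - ε k * ε l : ℝ) : 𝕜) * b k l‖ ≤ 40 * (A / cc) * (U * Y) := by
    intro ε hε
    -- indicator of `ε = 1` and `ε = -1`
    have key : ∀ σ : ℝ, (σ = 1 ∨ σ = -1) →
        ‖∑ k ∈ F, ∑ l ∈ F, (if ε k = σ ∧ ε l = -σ then b k l else 0)‖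
          ≤ 10 * (A / cc) * (U * Y) := by
      intro σ hσ
      have hσ0 : σ ≠ -σ := by
        rcases hσ with h | h <;> rw [h] <;> norm_num
      have h1 := off_le h hA (u := fun l => if ε l = -σ then x l else 0)
        (y := fun k => if ε k = σ then y k else 0) (fun k => by
          by_cases hk : ε k = σ
          · left
            have : ¬ (ε k = -σ) := fun h' => hσ0 (hk.symm.trans h')
            simp [this]
          · right; simp [hk])
      have e1 : ∑ k ∈ F, hip (if ε k = σ then y k else 0)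
            (Tf t F (fun l => if ε l = -σ then x l else 0) k)
          = ∑ k ∈ F, ∑ l ∈ F, (if ε k = σ ∧ ε l = -σ then b k l else 0) := by
        refine Finset.sum_congr rfl fun k _ => ?_
        rw [Tf, hip_sum]
        refine Finset.sum_congr rfl fun l _ => ?_
        by_cases h1 : ε k = σ
        · by_cases h2 : ε l = -σ
          · simp [h1, h2, hb]
          · simp [h2, hip]
        · simp [h1, hip]
      rw [e1] at h1
      refine h1.trans ?_
      have m1 : Real.sqrt (∑ k ∈ F, rr (if ε k = -σ then x k else 0)) ≤ U := by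
        apply Real.sqrt_le_sqrt
        refine Finset.sum_le_sum fun k _ => ?_
        split_ifs
        · exact le_rfl
        · rw [rr_zero]; exact rr_nonneg _
      have m2 : Real.sqrt (∑ k ∈ F, rr (if ε k = σ then y k else 0)) ≤ Y := by
        apply Real.sqrt_le_sqrt
        refine Finset.sum_le_sum fun k _ => ?_
        split_ifs
        · exact le_rfl
        · rw [rr_zero]; exact rr_nonneg _
      gcongr
    have k1 := key 1 (Or.inl rfl)
    have k2 := key (-1) (Or.inr rfl)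
    have e2 : ∑ k ∈ F, ∑ l ∈ F, ((1 - ε k * ε l : ℝ) : 𝕜) * b k l
        = 2 * ∑ k ∈ F, ∑ l ∈ F, (if ε k = 1 ∧ ε l = -1 then b k l else 0)
          + 2 * ∑ k ∈ F, ∑ l ∈ F, (if ε k = -1 ∧ ε l = - -1 then b k l else 0) := by
      rw [Finset.mul_sum, Finset.mul_sum, ← Finset.sum_add_distrib]
      refine Finset.sum_congr rfl fun k _ => ?_
      rw [Finset.mul_sum, Finset.mul_sum, ← Finset.sum_add_distrib]
      refine Finset.sum_congr rfl fun l _ => ?_
      have n1 : ¬ ((1 : ℝ) = -1) := by norm_num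
      have n2 : ¬ ((-1 : ℝ) = 1) := by norm_num
      rcases hε k with h | h <;> rcases hε l with h' | h' <;> simp [h, h', n1, n2] <;> norm_num
    rw [e2]
    refine (norm_add_le _ _).trans ?_
    rw [norm_mul, norm_mul, RCLike.norm_ofNat]
    linarith
  have hav := averaging F b _ hcut
  -- diagonal terms
  have hdg : ∀ k ∈ F, ‖b k k‖ ≤ 10 * (A / cc) * (Real.sqrt (rr (x k)) * Real.sqrt (rr (y k))) := by
    intro k hk
    refine diag_le hA (fun v => ?_) (x k) (y k)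
    have := h (fun l => if l = k then v else 0)
    have e1 : ∑ j ∈ F, rr (if j = k then v else 0) = rr v := by
      rw [Finset.sum_eq_single k (fun j _ hj => by simp [hj]) (fun h => absurd hk h)]
      simp
    have e2 : ∑ j ∈ F, J0 (if j = k then v else 0) (Tf t F (fun l => if l = k then v else 0) j)
        = J0 v (t k k v) := by
      rw [Finset.sum_eq_single k (fun j _ hj => by simp [hj]) (fun h => absurd hk h)]
      rw [if_pos rfl, Tf, Finset.sum_eq_single k (fun j _ hj => by simp [hj])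
        (fun h => absurd hk h), if_pos rfl]
    rw [e1, e2] at this
    exact this
  have e3 : ∑ k ∈ F, ∑ l ∈ F, b k l = ∑ k ∈ F, ∑ l ∈ F, (if k = l then 0 else b k l)
      + ∑ k ∈ F, b k k := by
    rw [← Finset.sum_add_distrib]
    refine Finset.sum_congr rfl fun k hk => ?_
    have e5 : ∑ l ∈ F, (if k = l then b k l else 0) = b k k := by
      rw [Finset.sum_ite_eq, if_pos hk]
    rw [← e5, ← Finset.sum_add_distrib]
    refine Finset.sum_congr rfl fun l _ => ?_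
    split_ifs <;> simp
  rw [e0, e3]
  have h8 : ‖∑ k ∈ F, b k k‖ ≤ 10 * (A / cc) * (U * Y) := by
    refine (norm_sum_le _ _).trans ?_
    calc ∑ k ∈ F, ‖b k k‖
        ≤ ∑ k ∈ F, 10 * (A / cc) * (Real.sqrt (rr (x k)) * Real.sqrt (rr (y k))) :=
          Finset.sum_le_sum hdg
      _ = 10 * (A / cc) * ∑ k ∈ F, Real.sqrt (rr (x k)) * Real.sqrt (rr (y k)) := by
          rw [Finset.mul_sum]
      _ ≤ 10 * (A / cc) * (U * Y) := by
          gcongr
          exact sum_sqrt_le x y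
  refine (norm_add_le _ _).trans ?_
  linarith

end Matrix

end Pool.Agent.H15.BPB
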