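import Pool.Agent.H15.BPB.Index

set_option autoImplicit false

namespace Pool.Agent.H15.BPB

open Filter Topology RCLike
open scoped ComplexConjugate

section General

variable {𝕜 : Type*} [RCLike 𝕜] {X : Type*} [NormedAddCommGroup X] [NormedSpace 𝕜 X]

lemma num_le_of_support {f : X →L[𝕜] 𝕜} {x : X} (h1 : f x = ((‖x‖ ^ 2 : ℝ) : 𝕜))
    (h2 : ‖f‖ ≤ ‖x‖) (T : X →L[𝕜] X) : ‖f (T x)‖ ≤ numRadius 𝕜 X T * ‖x‖ ^ 2 := by
  by_cases hx : x = 0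
  · subst hx; simp
  · have hn : 0 < ‖x‖ := norm_pos_iff.mpr hx
    set a : 𝕜 := ((‖x‖⁻¹ : ℝ) : 𝕜) with ha
    have hna : ‖a‖ = ‖x‖⁻¹ := by
      rw [ha, RCLike.norm_ofReal, abs_of_pos (by positivity)]
    have hmem : (a • x, a • f) ∈ PiSet 𝕜 X := by
      have e1 : ‖a • x‖ = 1 := by rw [norm_smul, hna]; field_simp
      have e3 : (a • f) (a • x) = 1 := by
        rw [smul_apply, map_smul, smul_eq_mul, smul_eq_mul, h1, ha, ← RCLike.ofReal_mul,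
          ← RCLike.ofReal_mul]
        have : ‖x‖⁻¹ * (‖x‖⁻¹ * ‖x‖ ^ 2) = 1 := by field_simp
        rw [this, RCLike.ofReal_one]
      have e2 : ‖a • f‖ = 1 := by
        apply le_antisymm
        · rw [norm_smul, hna]
          calc ‖x‖⁻¹ * ‖f‖ ≤ ‖x‖⁻¹ * ‖x‖ := by gcongr
            _ = 1 := by field_simp
        · have := (a • f).le_opNorm (a • x)
          rw [e3, e1, norm_one, mul_one] at this
          exact this
      exact ⟨e1, e2, e3⟩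
    have := le_numRadius hmem T
    simp only [smul_apply, map_smul, smul_eq_mul, norm_mul, hna] at this
    calc ‖f (T x)‖ = (‖x‖⁻¹ * (‖x‖⁻¹ * ‖f (T x)‖)) * ‖x‖ ^ 2 := by field_simp
      _ ≤ numRadius 𝕜 X T * ‖x‖ ^ 2 := by gcongr

end General

section Sum

variable {𝕜 : Type*} [RCLike 𝕜]

/-- the finitely supported vector with entries `x k`, `k ∈ F` -/
noncomputable def vec (F : Finset ℕ) (x : ℕ → 𝕜 × 𝕜) : XX 𝕜 :=
  ∑ k ∈ F, lp.single (E := fun n => Blk 𝕜 n) 2 k (ofP 𝕜 k (x k))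

lemma vec_apply (F : Finset ℕ) (x : ℕ → 𝕜 × 𝕜) (k : ℕ) :
    toP 𝕜 (vec F x k) = if k ∈ F then x k else 0 := by
  unfold vec
  rw [lp.coeFn_sum, Finset.sum_apply]
  simp only [lp.coeFn_single]
  rw [Finset.sum_pi_single]
  split_ifs <;> rfl

lemma norm_vec_sq (F : Finset ℕ) (x : ℕ → 𝕜 × 𝕜) :
    ‖vec F x‖ ^ 2 = ∑ k ∈ F, PhiG (Gn k) (x k) := by
  have h := lp.norm_sum_single (E := fun n => Blk 𝕜 n) (p := 2) (by norm_num)
    (fun k => ofP 𝕜 k (x k)) F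
  have h2 : ∀ y : ℝ, y ^ (ENNReal.toReal 2) = y ^ 2 := by
    intro y; simp
  rw [h2] at h
  unfold vec
  rw [h]
  refine Finset.sum_congr rfl fun k _ => ?_
  rw [h2, blk_norm_sq, toP_ofP]

/-- the support functional of a vector of a block -/
noncomputable def jl (n : ℕ) (v : 𝕜 × 𝕜) : Blk 𝕜 n →L[𝕜] 𝕜 :=
  LinearMap.mkContinuous
    { toFun := fun w => JG (Gn n) (Gn' n) v (toP 𝕜 w)
      map_add' := fun _ _ => JG_add_right _ _ _
      map_smul' := fun _ _ => JG_smul_right _ _ _ }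
    (nG (Gn n) v) (fun w => norm_JG_le (nice_Gn n) v (toP 𝕜 w))

lemma jl_apply (n : ℕ) (v : 𝕜 × 𝕜) (w : Blk 𝕜 n) :
    jl n v w = JG (Gn n) (Gn' n) v (toP 𝕜 w) := rfl

/-- the support functional of a finitely supported vector -/
noncomputable def jf (F : Finset ℕ) (x : ℕ → 𝕜 × 𝕜) : XX 𝕜 →L[𝕜] 𝕜 :=
  ∑ k ∈ F, (jl k (x k)).comp (lp.evalCLM (𝕜 := 𝕜) (fun n => Blk 𝕜 n) 2 k)

lemma jf_apply (F : Finset ℕ) (x : ℕ → 𝕜 × 𝕜) (y : XX 𝕜) :
    jf F x y = ∑ k ∈ F, JG (Gn k) (Gn' k) (x k) (toP 𝕜 (y k)) := by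
  unfold jf
  rw [sum_apply]
  rfl

lemma sum_norm_sq_le (F : Finset ℕ) (y : XX 𝕜) : ∑ k ∈ F, ‖y k‖ ^ 2 ≤ ‖y‖ ^ 2 := by
  rw [norm_sq_eq]
  exact (summable_sq y).sum_le_tsum F (fun k _ => by positivity)

lemma norm_jf_le (F : Finset ℕ) (x : ℕ → 𝕜 × 𝕜) : ‖jf F x‖ ≤ ‖vec F x‖ := by
  refine ContinuousLinearMap.opNorm_le_bound _ (norm_nonneg _) fun y => ?_
  rw [jf_apply]
  have h1 : ‖∑ k ∈ F, JG (Gn k) (Gn' k) (x k) (toP 𝕜 (y k))‖
      ≤ ∑ k ∈ F, nG (Gn k) (x k) * ‖y k‖ :=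
    (norm_sum_le _ _).trans (Finset.sum_le_sum fun k _ => norm_JG_le (nice_Gn k) _ _)
  refine h1.trans ?_
  have h2 := Finset.sum_mul_sq_le_sq_mul_sq F (fun k => nG (Gn k) (x k)) (fun k => ‖y k‖)
  have h3 : ∑ k ∈ F, nG (Gn k) (x k) ^ 2 = ‖vec F x‖ ^ 2 := by
    rw [norm_vec_sq]
    exact Finset.sum_congr rfl fun k _ => nG_sq (nice_Gn k) _
  rw [h3] at h2
  refine (abs_le_of_sq_le_sq' ?_ (by positivity)).2
  rw [mul_pow]
  calc (∑ k ∈ F, nG (Gn k) (x k) * ‖y k‖) ^ 2 ≤ ‖vec F x‖ ^ 2 * ∑ k ∈ F, ‖y k‖ ^ 2 := h2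
    _ ≤ ‖vec F x‖ ^ 2 * ‖y‖ ^ 2 := by
        gcongr
        exact sum_norm_sq_le F y

lemma jf_self (F : Finset ℕ) (x : ℕ → 𝕜 × 𝕜) : jf F x (vec F x) = ((‖vec F x‖ ^ 2 : ℝ) : 𝕜) := by
  rw [jf_apply, norm_vec_sq, RCLike.ofReal_sum]
  refine Finset.sum_congr rfl fun k hk => ?_
  rw [vec_apply, if_pos hk, JG_self]

/-- the matrix of an operator -/
noncomputable def mat (T : XX 𝕜 →L[𝕜] XX 𝕜) (k l : ℕ) : (𝕜 × 𝕜) →ₗ[𝕜] (𝕜 × 𝕜) where
  toFun v := toP 𝕜 (T (lp.single (E := fun n => Blk 𝕜 n) 2 l (ofP 𝕜 l v)) k)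
  map_add' v w := by
    have : ofP 𝕜 l (v + w) = ofP 𝕜 l v + ofP 𝕜 l w := rfl
    rw [this, lp.single_add, map_add]; rfl
  map_smul' α v := by
    have : ofP 𝕜 l (α • v) = α • ofP 𝕜 l v := rfl
    rw [this, lp.single_smul, map_smul]; rfl

lemma toP_sum {n : ℕ} (F : Finset ℕ) (f : ℕ → Blk 𝕜 n) :
    toP 𝕜 (∑ l ∈ F, f l) = ∑ l ∈ F, toP 𝕜 (f l) := by
  induction F using Finset.induction with
  | empty => simp [toP_zero]
  | insert a s ha ih => rw [Finset.sum_insert ha, Finset.sum_insert ha, toP_add, ih]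

lemma mat_apply (T : XX 𝕜 →L[𝕜] XX 𝕜) (F : Finset ℕ) (x : ℕ → 𝕜 × 𝕜) (k : ℕ) :
    toP 𝕜 (T (vec F x) k) = Tf (mat T) F x k := by
  unfold vec Tf
  rw [map_sum, lp.coeFn_sum, Finset.sum_apply, toP_sum]
  rfl

lemma rr_le_norm_sq {n : ℕ} (v : Blk 𝕜 n) : rr (toP 𝕜 v) ≤ 10 / 9 * ‖v‖ ^ 2 := by
  rw [blk_norm_sq]
  have := PhiG_lower (nice_Gn n) (toP 𝕜 v)
  linarith

lemma norm_sq_le_rr {n : ℕ} (v : Blk 𝕜 n) : ‖v‖ ^ 2 ≤ 11 / 10 * rr (toP 𝕜 v) := by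
  rw [blk_norm_sq]
  exact PhiG_upper (nice_Gn n) (toP 𝕜 v)

/-- the difference between the true duality map and the unperturbed one -/
lemma JG_sub_J0 (n : ℕ) (v w : 𝕜 × 𝕜) :
    ‖JG (Gn n) (Gn' n) v w - J0 v w‖ ≤ 8 * dd * (Real.sqrt (rr v) * Real.sqrt (rr w)) := by
  set s := qq v / rr v with hs
  have hs1 : |s| ≤ 1 := abs_ratio_le v
  set p := dd / ((n : ℝ) + 1) ^ 2 * osc (((n : ℝ) + 1) * s) with hp
  set p' := dd / ((n : ℝ) + 1) * osc' (((n : ℝ) + 1) * s) with hp'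
  have h1 : |p| ≤ 2 * dd := abs_Gn_osc_le n s
  have h2 : |p'| ≤ 3 * dd := abs_Gn'_osc_le n s
  have hd : 0 < dd := by unfold dd; norm_num
  have e : JG (Gn n) (Gn' n) v w - J0 v w
      = ((p - s * p' : ℝ) : 𝕜) * hip v w + ((p' : ℝ) : 𝕜) * hqf v w := by
    unfold JG J0
    rw [← hs]
    have e1 : 1 + Gn n s - s * Gn' n s = (1 - cc * s ^ 2) + (p - s * p') := by
      unfold Gn Gn'; rw [hp, hp']; ring
    have e2 : Gn' n s = 2 * cc * s + p' := by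
      unfold Gn'; rw [hp']
    rw [e1, e2, RCLike.ofReal_add (1 - cc * s ^ 2), RCLike.ofReal_add (2 * cc * s)]
    ring
  have hh : ‖hip v w‖ ≤ Real.sqrt (rr v) * Real.sqrt (rr w) := by
    rw [← Real.sqrt_mul (rr_nonneg v)]
    exact Real.le_sqrt_of_sq_le (norm_hip_sq_le v w)
  have hq : ‖hqf v w‖ ≤ Real.sqrt (rr v) * Real.sqrt (rr w) := by
    rw [← Real.sqrt_mul (rr_nonneg v)]
    exact Real.le_sqrt_of_sq_le (norm_hqf_sq_le v w)
  have h3 : |p - s * p'| ≤ 5 * dd := by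
    refine (abs_sub _ _).trans ?_
    rw [abs_mul s p']
    have : |s| * |p'| ≤ 1 * (3 * dd) := by gcongr
    linarith
  rw [e]
  refine (norm_add_le _ _).trans ?_
  rw [norm_mul, norm_mul, RCLike.norm_ofReal, RCLike.norm_ofReal]
  calc |p - s * p'| * ‖hip v w‖ + |p'| * ‖hqf v w‖
      ≤ 5 * dd * (Real.sqrt (rr v) * Real.sqrt (rr w))
        + 3 * dd * (Real.sqrt (rr v) * Real.sqrt (rr w)) := by gcongr
    _ = _ := by ring

lemma numLe_mat (T : XX 𝕜 →L[𝕜] XX 𝕜) (F : Finset ℕ) :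
    NumLe (mat T) F (11 / 10 * numRadius 𝕜 (XX 𝕜) T + 10 * dd * ‖T‖) := by
  intro x
  have hd : 0 < dd := by unfold dd; norm_num
  set R := ∑ k ∈ F, rr (x k) with hR
  have hR0 : 0 ≤ R := Finset.sum_nonneg fun k _ => rr_nonneg _
  have hv1 : ‖vec F x‖ ^ 2 ≤ 11 / 10 * R := by
    rw [norm_vec_sq, hR, Finset.mul_sum]
    exact Finset.sum_le_sum fun k _ => PhiG_upper (nice_Gn k) _
  have h1 := num_le_of_support (jf_self F x) (norm_jf_le F x) T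
  have hν : 0 ≤ numRadius 𝕜 (XX 𝕜) T := by
    apply Real.sSup_nonneg
    rintro _ ⟨p, _, rfl⟩
    exact norm_nonneg _
  rw [jf_apply] at h1
  simp only [mat_apply] at h1
  have h2 : ‖∑ k ∈ F, JG (Gn k) (Gn' k) (x k) (Tf (mat T) F x k)‖
      ≤ 11 / 10 * numRadius 𝕜 (XX 𝕜) T * R := by
    refine h1.trans ?_
    calc numRadius 𝕜 (XX 𝕜) T * ‖vec F x‖ ^ 2 ≤ numRadius 𝕜 (XX 𝕜) T * (11 / 10 * R) := by
          gcongr
      _ = _ := by ring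
  have hTR : ∑ k ∈ F, rr (Tf (mat T) F x k) ≤ (5 / 4) ^ 2 * (‖T‖ ^ 2 * R) := by
    calc ∑ k ∈ F, rr (Tf (mat T) F x k) ≤ ∑ k ∈ F, 10 / 9 * ‖T (vec F x) k‖ ^ 2 := by
          refine Finset.sum_le_sum fun k _ => ?_
          rw [← mat_apply]
          exact rr_le_norm_sq _
      _ ≤ 10 / 9 * ‖T (vec F x)‖ ^ 2 := by
          rw [← Finset.mul_sum]
          gcongr
          exact sum_norm_sq_le F _
      _ ≤ 10 / 9 * (‖T‖ * ‖vec F x‖) ^ 2 := by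
          gcongr
          exact T.le_opNorm _
      _ = 10 / 9 * ‖T‖ ^ 2 * ‖vec F x‖ ^ 2 := by ring
      _ ≤ 10 / 9 * ‖T‖ ^ 2 * (11 / 10 * R) := by gcongr
      _ ≤ (5 / 4) ^ 2 * (‖T‖ ^ 2 * R) := by nlinarith [mul_nonneg (sq_nonneg ‖T‖) hR0]
  have h3 : ‖∑ k ∈ F, (JG (Gn k) (Gn' k) (x k) (Tf (mat T) F x k) - J0 (x k) (Tf (mat T) F x k))‖
      ≤ 10 * dd * ‖T‖ * R := by
    refine (norm_sum_le _ _).trans ?_
    calc ∑ k ∈ F, ‖JG (Gn k) (Gn' k) (x k) (Tf (mat T) F x k) - J0 (x k) (Tf (mat T) F x k)‖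
        ≤ ∑ k ∈ F, 8 * dd * (Real.sqrt (rr (x k)) * Real.sqrt (rr (Tf (mat T) F x k))) :=
          Finset.sum_le_sum fun k _ => JG_sub_J0 k _ _
      _ = 8 * dd * ∑ k ∈ F, Real.sqrt (rr (x k)) * Real.sqrt (rr (Tf (mat T) F x k)) := by
          rw [Finset.mul_sum]
      _ ≤ 8 * dd * (Real.sqrt R * Real.sqrt (∑ k ∈ F, rr (Tf (mat T) F x k))) := by
          gcongr
          exact sum_sqrt_le x _
      _ ≤ 8 * dd * (Real.sqrt R * (5 / 4 * (‖T‖ * Real.sqrt R))) := by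
          gcongr
          rw [Real.sqrt_le_left (by positivity)]
          rw [mul_pow, mul_pow, Real.sq_sqrt hR0]
          exact hTR
      _ = 10 * dd * ‖T‖ * (Real.sqrt R * Real.sqrt R) := by ring
      _ = 10 * dd * ‖T‖ * R := by rw [Real.mul_self_sqrt hR0]
  have e : ∑ k ∈ F, J0 (x k) (Tf (mat T) F x k)
      = ∑ k ∈ F, JG (Gn k) (Gn' k) (x k) (Tf (mat T) F x k)
        - ∑ k ∈ F, (JG (Gn k) (Gn' k) (x k) (Tf (mat T) F x k) - J0 (x k) (Tf (mat T) F x k)) := by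
    rw [Finset.sum_sub_distrib]; ring
  rw [e]
  refine (norm_sub_le _ _).trans ?_
  linarith

lemma norm_T_vec_le (T : XX 𝕜 →L[𝕜] XX 𝕜) {A : ℝ} (hA : 0 ≤ A)
    (h : ∀ F, NumLe (mat T) F A) (F : Finset ℕ) (x : ℕ → 𝕜 × 𝕜) :
    ‖T (vec F x)‖ ≤ 60 * (A / cc) * ‖vec F x‖ := by
  classical
  have hAc : 0 ≤ A / cc := div_nonneg hA cc_pos.le
  set R := ∑ k ∈ F, rr (x k) with hR
  have hR0 : 0 ≤ R := Finset.sum_nonneg fun k _ => rr_nonneg _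
  have hvR : R ≤ 10 / 9 * ‖vec F x‖ ^ 2 := by
    rw [norm_vec_sq, hR, Finset.mul_sum]
    refine Finset.sum_le_sum fun k _ => ?_
    have := PhiG_lower (nice_Gn k) (x k)
    linarith
  -- finite sections
  have hfin : ∀ G : Finset ℕ, F ⊆ G →
      ∑ k ∈ G, rr (toP 𝕜 (T (vec F x) k)) ≤ (50 * (A / cc)) ^ 2 * R := by
    intro G hFG
    set x' : ℕ → 𝕜 × 𝕜 := fun k => if k ∈ F then x k else 0 with hx'
    have e1 : ∑ k ∈ G, rr (x' k) = R := by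
      rw [hR, ← Finset.sum_subset hFG (f := fun k => rr (x' k))]
      · exact Finset.sum_congr rfl fun k hk => by simp [hx', hk]
      · intro k _ hk; simp [hx', hk]
    have e2 : ∀ k, Tf (mat T) G x' k = toP 𝕜 (T (vec F x) k) := by
      intro k
      rw [mat_apply]
      unfold Tf
      rw [← Finset.sum_subset hFG (f := fun l => mat T k l (x' l))]
      · exact Finset.sum_congr rfl fun l hl => by simp [hx', hl]
      · intro l _ hl; simp [hx', hl]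
    have h1 := matrix_le hA (h G) x' (fun k => toP 𝕜 (T (vec F x) k))
    rw [e1] at h1
    simp only [e2, hip_self] at h1
    rw [← RCLike.ofReal_sum, RCLike.norm_ofReal, abs_of_nonneg
      (Finset.sum_nonneg fun k _ => rr_nonneg _)] at h1
    set Y := ∑ k ∈ G, rr (toP 𝕜 (T (vec F x) k)) with hY
    have hY0 : 0 ≤ Y := Finset.sum_nonneg fun k _ => rr_nonneg _
    have h2 : Real.sqrt Y * Real.sqrt Y ≤ (50 * (A / cc) * Real.sqrt R) * Real.sqrt Y := by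
      rw [Real.mul_self_sqrt hY0]; linarith
    have h3 : Real.sqrt Y ≤ 50 * (A / cc) * Real.sqrt R := by
      rcases (Real.sqrt_nonneg Y).lt_or_eq with h0 | h0
      · exact le_of_mul_le_mul_right h2 h0
      · rw [← h0]; positivity
    calc Y = Real.sqrt Y ^ 2 := (Real.sq_sqrt hY0).symm
      _ ≤ (50 * (A / cc) * Real.sqrt R) ^ 2 := by gcongr
      _ = (50 * (A / cc)) ^ 2 * R := by rw [mul_pow _ (Real.sqrt R), Real.sq_sqrt hR0]
  have hsum : ‖T (vec F x)‖ ^ 2 ≤ 11 / 10 * ((50 * (A / cc)) ^ 2 * R) := by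
    rw [norm_sq_eq]
    refine (summable_sq (T (vec F x))).tsum_le_of_sum_le fun G => ?_
    calc ∑ k ∈ G, ‖T (vec F x) k‖ ^ 2 ≤ ∑ k ∈ G ∪ F, ‖T (vec F x) k‖ ^ 2 :=
          Finset.sum_le_sum_of_subset_of_nonneg Finset.subset_union_left
            (fun k _ _ => by positivity)
      _ ≤ ∑ k ∈ G ∪ F, 11 / 10 * rr (toP 𝕜 (T (vec F x) k)) :=
          Finset.sum_le_sum fun k _ => norm_sq_le_rr _
      _ = 11 / 10 * ∑ k ∈ G ∪ F, rr (toP 𝕜 (T (vec F x) k)) := by rw [Finset.mul_sum]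
      _ ≤ _ := by
          gcongr
          exact hfin _ Finset.subset_union_right
  refine (abs_le_of_sq_le_sq' ?_ (by positivity)).2
  rw [mul_pow]
  calc ‖T (vec F x)‖ ^ 2 ≤ 11 / 10 * ((50 * (A / cc)) ^ 2 * R) := hsum
    _ ≤ 11 / 10 * ((50 * (A / cc)) ^ 2 * (10 / 9 * ‖vec F x‖ ^ 2)) := by gcongr
    _ ≤ (60 * (A / cc)) ^ 2 * ‖vec F x‖ ^ 2 := by
        nlinarith [mul_nonneg (sq_nonneg (A / cc)) (sq_nonneg ‖vec F x‖)]

lemma norm_T_le (T : XX 𝕜 →L[𝕜] XX 𝕜) {A : ℝ} (hA : 0 ≤ A)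
    (h : ∀ F, NumLe (mat T) F A) : ‖T‖ ≤ 60 * (A / cc) := by
  have hAc : 0 ≤ A / cc := div_nonneg hA cc_pos.le
  refine ContinuousLinearMap.opNorm_le_bound _ (by positivity) fun y => ?_
  have h1 : Tendsto (fun F : Finset ℕ => vec F (fun k => toP 𝕜 (y k))) atTop (𝓝 y) := by
    have := lp.hasSum_single (E := fun n => Blk 𝕜 n) (p := 2) (by norm_num) y
    exact this
  have h2 : Tendsto (fun F : Finset ℕ => ‖T (vec F (fun k => toP 𝕜 (y k)))‖) atTop (𝓝 ‖T y‖) :=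
    ((T.continuous.tendsto y).comp h1).norm
  have h3 : Tendsto (fun F : Finset ℕ => 60 * (A / cc) * ‖vec F (fun k => toP 𝕜 (y k))‖) atTop
      (𝓝 (60 * (A / cc) * ‖y‖)) := h1.norm.const_mul _
  exact le_of_tendsto_of_tendsto' h2 h3 fun F => norm_T_vec_le T hA h F _

theorem norm_le_numRadius (T : XX 𝕜 →L[𝕜] XX 𝕜) :
    ‖T‖ ≤ 200000 * numRadius 𝕜 (XX 𝕜) T := by
  have hν : 0 ≤ numRadius 𝕜 (XX 𝕜) T := by
    apply Real.sSup_nonneg
    rintro _ ⟨p, _, rfl⟩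
    exact norm_nonneg _
  have hd : 0 < dd := by unfold dd; norm_num
  have hA : 0 ≤ 11 / 10 * numRadius 𝕜 (XX 𝕜) T + 10 * dd * ‖T‖ := by positivity
  have h := norm_T_le T hA (numLe_mat T)
  have e1 : cc = 1 / 2000 := rfl
  have e2 : dd = 1 / 10 ^ 8 := rfl
  rw [e1, e2] at h
  have h0 := norm_nonneg T
  linarith

end Sum

end Pool.Agent.H15.BPB
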