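import Pool.Agent.H15.BPB.Block
import Pool.Agent.H15.BPB.Abstract

set_option autoImplicit false

namespace Pool.Agent.H15.BPB

open Filter Topology RCLike
open scoped ComplexConjugate

variable (𝕜 : Type*) [RCLike 𝕜]

/-- The `n`-th two dimensional block: `𝕜 × 𝕜` with the norm `nG (Gn n)`. -/
def Blk (_n : ℕ) : Type _ := 𝕜 × 𝕜

instance (n : ℕ) : AddCommGroup (Blk 𝕜 n) := inferInstanceAs (AddCommGroup (𝕜 × 𝕜))
instance (n : ℕ) : Module 𝕜 (Blk 𝕜 n) := inferInstanceAs (Module 𝕜 (𝕜 × 𝕜))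
instance (n : ℕ) : FiniteDimensional 𝕜 (Blk 𝕜 n) :=
  inferInstanceAs (FiniteDimensional 𝕜 (𝕜 × 𝕜))

/-- view an element of a block as a pair -/
def toP {n : ℕ} (v : Blk 𝕜 n) : 𝕜 × 𝕜 := v
/-- view a pair as an element of a block -/
def ofP (n : ℕ) (v : 𝕜 × 𝕜) : Blk 𝕜 n := v

noncomputable instance (n : ℕ) : NormedAddCommGroup (Blk 𝕜 n) :=
  AddGroupNorm.toNormedAddCommGroup
    { toFun := fun v => nG (Gn n) (toP 𝕜 v)
      map_zero' := nG_zero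
      add_le' := fun v w => nG_add_le (nice_Gn n) (toP 𝕜 v) (toP 𝕜 w)
      neg' := fun v => nG_neg (toP 𝕜 v)
      eq_zero_of_map_eq_zero' := fun v hv => nG_eq_zero (nice_Gn n) hv }

lemma blk_norm_def {n : ℕ} (v : Blk 𝕜 n) : ‖v‖ = nG (Gn n) (toP 𝕜 v) := rfl

noncomputable instance (n : ℕ) : NormedSpace 𝕜 (Blk 𝕜 n) where
  norm_smul_le α v := le_of_eq (nG_smul α (toP 𝕜 v))

instance (n : ℕ) : CompleteSpace (Blk 𝕜 n) := FiniteDimensional.complete 𝕜 (Blk 𝕜 n)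

lemma blk_norm_sq {n : ℕ} (v : Blk 𝕜 n) : ‖v‖ ^ 2 = PhiG (Gn n) (toP 𝕜 v) :=
  nG_sq (nice_Gn n) _

lemma toP_add {n : ℕ} (v w : Blk 𝕜 n) : toP 𝕜 (v + w) = toP 𝕜 v + toP 𝕜 w := rfl
lemma toP_sub {n : ℕ} (v w : Blk 𝕜 n) : toP 𝕜 (v - w) = toP 𝕜 v - toP 𝕜 w := rfl
lemma toP_neg {n : ℕ} (v : Blk 𝕜 n) : toP 𝕜 (-v) = -toP 𝕜 v := rfl
lemma toP_zero {n : ℕ} : toP 𝕜 (0 : Blk 𝕜 n) = 0 := rfl
lemma toP_smul {n : ℕ} (α : 𝕜) (v : Blk 𝕜 n) : toP 𝕜 (α • v) = α • toP 𝕜 v := rfl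
lemma toP_ofP {n : ℕ} (v : 𝕜 × 𝕜) : toP 𝕜 (ofP 𝕜 n v) = v := rfl
lemma ofP_toP {n : ℕ} (v : Blk 𝕜 n) : ofP 𝕜 n (toP 𝕜 v) = v := rfl

/-- The space: the `ℓ₂` sum of the blocks. -/
abbrev XX : Type _ := lp (fun n : ℕ => Blk 𝕜 n) 2

variable {𝕜}

lemma norm_sq_eq (x : XX 𝕜) : ‖x‖ ^ 2 = ∑' n, ‖x n‖ ^ 2 := by
  have h := lp.norm_rpow_eq_tsum (p := 2) (by norm_num) x
  simpa using h

lemma summable_sq (x : XX 𝕜) : Summable fun n => ‖x n‖ ^ 2 := by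
  have h := (lp.memℓp x).summable (p := 2) (by norm_num)
  simpa using h

lemma blk_uc {n : ℕ} (v w : Blk 𝕜 n) :
    2 * ‖v‖ ^ 2 + 2 * (1 / 2) * ‖w‖ ^ 2 ≤ ‖v + w‖ ^ 2 + ‖v - w‖ ^ 2 := by
  simp only [blk_norm_sq, toP_add, toP_sub]
  have h1 := (abs_le.mp (second_diff (nice_Gn n) (toP 𝕜 v) (toP 𝕜 w))).1
  have h2 := PhiG_upper (nice_Gn n) (toP 𝕜 w)
  have h3 := rr_nonneg (toP 𝕜 w)
  linarith

lemma blk_us {n : ℕ} (v w : Blk 𝕜 n) :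
    ‖v + w‖ ^ 2 + ‖v - w‖ ^ 2 ≤ 2 * ‖v‖ ^ 2 + 2 * 2 * ‖w‖ ^ 2 := by
  simp only [blk_norm_sq, toP_add, toP_sub]
  have h1 := (abs_le.mp (second_diff (nice_Gn n) (toP 𝕜 v) (toP 𝕜 w))).2
  have h2 := PhiG_lower (nice_Gn n) (toP 𝕜 w)
  have h3 := rr_nonneg (toP 𝕜 w)
  linarith

lemma XX_uc (x y : XX 𝕜) :
    2 * ‖x‖ ^ 2 + 2 * (1 / 2) * ‖y‖ ^ 2 ≤ ‖x + y‖ ^ 2 + ‖x - y‖ ^ 2 := by
  simp only [norm_sq_eq]
  rw [← tsum_mul_left, ← tsum_mul_left, ← Summable.tsum_add, ← Summable.tsum_add]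
  · refine Summable.tsum_le_tsum (fun n => blk_uc (x n) (y n)) ?_ ?_
    · exact ((summable_sq x).mul_left _).add ((summable_sq y).mul_left _)
    · exact (summable_sq (x + y)).add (summable_sq (x - y))
  · exact summable_sq (x + y)
  · exact summable_sq (x - y)
  · exact (summable_sq x).mul_left _
  · exact (summable_sq y).mul_left _

lemma XX_us (x y : XX 𝕜) :
    ‖x + y‖ ^ 2 + ‖x - y‖ ^ 2 ≤ 2 * ‖x‖ ^ 2 + 2 * 2 * ‖y‖ ^ 2 := by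
  simp only [norm_sq_eq]
  rw [← tsum_mul_left, ← tsum_mul_left, ← Summable.tsum_add, ← Summable.tsum_add]
  · refine Summable.tsum_le_tsum (fun n => blk_us (x n) (y n)) ?_ ?_
    · exact (summable_sq (x + y)).add (summable_sq (x - y))
    · exact ((summable_sq x).mul_left _).add ((summable_sq y).mul_left _)
  · exact (summable_sq x).mul_left _
  · exact (summable_sq y).mul_left _
  · exact summable_sq (x + y)
  · exact summable_sq (x - y)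

end Pool.Agent.H15.BPB
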